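import Mathlib

/-!
# Project AG (MP_2ec7a7_al): the Artin group of type `G̃_2`, definitions

`Artin M` is the Artin group of the Coxeter matrix `M` (`M s t = 0` stands for `∞`), `G2t` is the
Coxeter matrix of the affine type `G̃_2` (the path `0 - 1 - 2` with the labels `3`, `6`).
-/

namespace Pool.Agent.Helper7.AG

/-- the alternating product `s t s t ⋯` with `n` factors -/
def alt {G : Type*} [Monoid G] : G → G → ℕ → G
  | _, _, 0 => 1
  | s, t, n + 1 => s * alt t s n

/-- the relators `s t s ⋯ = t s t ⋯` (`M s t` factors) of the Artin group of `M`; for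
`M s t = 0` (which stands for `∞`) and for `s = t` this is the trivial relator -/
def rels {S : Type*} (M : CoxeterMatrix S) : Set (FreeGroup S) :=
  {w | ∃ s t, w = alt (FreeGroup.of s) (FreeGroup.of t) (M s t) *
    (alt (FreeGroup.of t) (FreeGroup.of s) (M s t))⁻¹}

/-- the Artin group of the Coxeter matrix `M` -/
abbrev Artin {S : Type*} (M : CoxeterMatrix S) : Type _ := PresentedGroup (rels M)

set_option backward.isDefEq.respectTransparency false in
/-- the Coxeter matrix of the affine type `G̃_2` -/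
def G2t : CoxeterMatrix (Fin 3) where
  M := !![1, 3, 2;
          3, 1, 6;
          2, 6, 1]

/-- the Artin group of type `G̃_2` -/
abbrev GA : Type := Artin G2t

/-- the standard generators -/
def ga : GA := PresentedGroup.of 0
/-- the standard generators -/
def gb : GA := PresentedGroup.of 1
/-- the standard generators -/
def gc : GA := PresentedGroup.of 2

lemma ga_gc : ga * gc = gc * ga := by
  have h : alt (FreeGroup.of (0 : Fin 3)) (FreeGroup.of 2) (G2t 0 2) *
    (alt (FreeGroup.of 2) (FreeGroup.of 0) (G2t 0 2))⁻¹ ∈ rels G2t := ⟨0, 2, rfl⟩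
  have h1 := PresentedGroup.one_of_mem h
  rw [map_mul, map_inv, mul_inv_eq_one] at h1
  have e : (G2t : Matrix (Fin 3) (Fin 3) ℕ) 0 2 = 2 := rfl
  rw [e] at h1
  simpa [alt, ga, gc, PresentedGroup.of, mul_assoc] using h1

lemma ga_gb : ga * gb * ga = gb * ga * gb := by
  have h : alt (FreeGroup.of (0 : Fin 3)) (FreeGroup.of 1) (G2t 0 1) *
    (alt (FreeGroup.of 1) (FreeGroup.of 0) (G2t 0 1))⁻¹ ∈ rels G2t := ⟨0, 1, rfl⟩
  have h1 := PresentedGroup.one_of_mem h
  rw [map_mul, map_inv, mul_inv_eq_one] at h1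
  have e : (G2t : Matrix (Fin 3) (Fin 3) ℕ) 0 1 = 3 := rfl
  rw [e] at h1
  simpa [alt, ga, gb, PresentedGroup.of, mul_assoc] using h1

lemma gb_gc : (gb * gc) ^ 3 = (gc * gb) ^ 3 := by
  have h : alt (FreeGroup.of (1 : Fin 3)) (FreeGroup.of 2) (G2t 1 2) *
    (alt (FreeGroup.of 2) (FreeGroup.of 1) (G2t 1 2))⁻¹ ∈ rels G2t := ⟨1, 2, rfl⟩
  have h1 := PresentedGroup.one_of_mem h
  rw [map_mul, map_inv, mul_inv_eq_one] at h1
  have e : (G2t : Matrix (Fin 3) (Fin 3) ℕ) 1 2 = 6 := rfl
  rw [e] at h1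
  simpa [alt, gb, gc, PresentedGroup.of, mul_assoc, pow_succ] using h1

lemma closure_gen : Subgroup.closure ({ga, gb, gc} : Set GA) = ⊤ := by
  rw [eq_top_iff, ← PresentedGroup.closure_range_of, Subgroup.closure_le]
  rintro _ ⟨i, rfl⟩
  fin_cases i <;> exact Subgroup.subset_closure (by simp [ga, gb, gc])

variable {H : Type*} [Group H]

lemma lift_aux (x y w : H) (h1 : x * w = w * x) (h2 : x * y * x = y * x * y)
    (h3 : (y * w) ^ 3 = (w * y) ^ 3) :
    ∀ r ∈ rels G2t, FreeGroup.lift (![x, y, w] : Fin 3 → H) r = 1 := by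
  rintro r ⟨s, t, rfl⟩
  rw [map_mul, map_inv, mul_inv_eq_one]
  have e : ∀ s t : Fin 3, (G2t : Matrix (Fin 3) (Fin 3) ℕ) s t =
    (!![1, 3, 2; 3, 1, 6; 2, 6, 1] : Matrix (Fin 3) (Fin 3) ℕ) s t := fun _ _ => rfl
  rw [e]
  have h3' : y * (w * (y * (w * (y * w)))) = w * (y * (w * (y * (w * y)))) := by
    simpa [pow_succ, mul_assoc] using h3
  have h2' : x * (y * x) = y * (x * y) := by simpa [mul_assoc] using h2
  fin_cases s <;> fin_cases t <;> simp [alt, h1, h2', h3']

/-- the universal property of `GA` -/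
def lift3 (x y w : H) (h1 : x * w = w * x) (h2 : x * y * x = y * x * y)
    (h3 : (y * w) ^ 3 = (w * y) ^ 3) : GA →* H :=
  PresentedGroup.toGroup (lift_aux x y w h1 h2 h3)

section
variable (x y w : H) (h1 : x * w = w * x) (h2 : x * y * x = y * x * y)
    (h3 : (y * w) ^ 3 = (w * y) ^ 3)

@[simp] lemma lift3_ga : lift3 x y w h1 h2 h3 ga = x := by
  unfold lift3 ga; rw [PresentedGroup.toGroup.of]; rfl
@[simp] lemma lift3_gb : lift3 x y w h1 h2 h3 gb = y := by
  unfold lift3 gb; rw [PresentedGroup.toGroup.of]; rfl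
@[simp] lemma lift3_gc : lift3 x y w h1 h2 h3 gc = w := by
  unfold lift3 gc; rw [PresentedGroup.toGroup.of]; rfl
end

lemma hom_ext3 {f g : GA →* H} (h1 : f ga = g ga) (h2 : f gb = g gb) (h3 : f gc = g gc) :
    f = g := by
  apply PresentedGroup.ext
  intro i
  fin_cases i
  · exact h1
  · exact h2
  · exact h3

/-- the automorphism `s ↦ s⁻¹` of the standard generators, as a homomorphism -/
def epsHom : GA →* GA := lift3 ga⁻¹ gb⁻¹ gc⁻¹
  (by rw [← mul_inv_rev, ← mul_inv_rev, ga_gc])
  (by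
    have h := congrArg (·⁻¹) ga_gb
    simpa [mul_inv_rev, mul_assoc] using h)
  (by
    have h := congrArg (·⁻¹) gb_gc
    rw [← mul_inv_rev, ← mul_inv_rev, inv_pow, inv_pow]
    exact h.symm)

lemma epsHom_epsHom (x : GA) : epsHom (epsHom x) = x := by
  have : epsHom.comp epsHom = MonoidHom.id GA := by
    apply hom_ext3 <;> simp [epsHom]
  exact DFunLike.congr_fun this x

/-- the automorphism `s ↦ s⁻¹` of the standard generators -/
def eps : MulAut GA := { epsHom with
  invFun := epsHom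
  left_inv := epsHom_epsHom
  right_inv := epsHom_epsHom }

@[simp] lemma eps_ga : eps ga = ga⁻¹ := by change epsHom ga = _; simp [epsHom]
@[simp] lemma eps_gb : eps gb = gb⁻¹ := by change epsHom gb = _; simp [epsHom]
@[simp] lemma eps_gc : eps gc = gc⁻¹ := by change epsHom gc = _; simp [epsHom]

end Pool.Agent.Helper7.AG
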