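import Pool.Agent.Helper7.AG.Fsum

/-!
# Project AG, piece AG-MAL: the factors of a free product are malnormal

Proof of `malnormal_left`.  Let `x = val l`, `l` reduced, and suppose `x ∉ range i`.  Write
`l = l₀ ++ l₁` where `l₁ = []` or `l₁ = [.inl a₁]`, and `l₀` is not empty and ends with a
`B` syllable (drop the last syllable of `l` if it is from `A`; if nothing remains then
`x ∈ range i`).  Then `x * i a * x⁻¹ = val l₀ * i (a₁ a a₁⁻¹) * (val l₀)⁻¹` is the value of the
reduced word `l₀ ++ [.inl (a₁ a a₁⁻¹)] ++ winv l₀`, which contains `B` syllables; but it equals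
`i a'`, the value of `[.inl a']` or `[]`: contradiction to `uniq`.
-/

namespace Pool.Agent.Helper7.AG

variable {A B Γ : Type*} [Group A] [Group B] [Group Γ] {i : A →* Γ} {j : B →* Γ}

private lemma fmal_split (l : List (A ⊕ B)) (hl : Red l) :
    ∃ (l₀ : List (A ⊕ B)) (a₁ : A), Red l₀ ∧ val i j l = val i j l₀ * i a₁ ∧
      (l₀ = [] ∨ ∃ (l₁ : List (A ⊕ B)) (b : B), l₀ = l₁ ++ [.inr b]) := by
  rcases List.eq_nil_or_concat l with rfl | ⟨l', s, rfl⟩
  · exact ⟨[], 1, red_nil, by simp, Or.inl rfl⟩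
  · rw [List.concat_eq_append] at hl ⊢
    cases s with
    | inr b => exact ⟨l' ++ [.inr b], 1, hl, by simp, Or.inr ⟨l', b, rfl⟩⟩
    | inl a₁ =>
      obtain ⟨h1, -, h3⟩ := red_append.1 hl
      refine ⟨l', a₁, h1, by simp [sv], ?_⟩
      rcases List.eq_nil_or_concat l' with rfl | ⟨l₁, t, rfl⟩
      · exact Or.inl rfl
      · right
        rw [List.concat_eq_append] at h3 ⊢
        cases t with
        | inr b => exact ⟨l₁, b, rfl⟩
        | inl a => exact absurd rfl (h3 (.inl a) (by simp) (.inl a₁) (by simp))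

/-- AG-MAL -/
theorem FreeProd.malnormal_left (h : FreeProd i j) {a a' : A} (ha : a ≠ 1) {x : Γ}
    (hx : x * i a * x⁻¹ = i a') : ∃ a₀, x = i a₀ := by
  obtain ⟨l, hl, rfl⟩ := h.ex x
  obtain ⟨l₀, a₁, hl₀, hv, hc⟩ := fmal_split (i := i) (j := j) l hl
  rcases hc with rfl | ⟨l₁, b, hb⟩
  · exact ⟨a₁, by rw [hv]; simp⟩
  exfalso
  have hc1 : a₁ * a * a₁⁻¹ ≠ 1 := by
    intro h1
    rw [mul_inv_eq_one] at h1
    exact ha (by simpa using h1)
  have hlast : l₀.getLast? = some (.inr b) := by rw [hb]; simp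
  have hr : Red (l₀ ++ ([Sum.inl (a₁ * a * a₁⁻¹)] ++ winv l₀)) := by
    rw [red_append, red_append]
    refine ⟨hl₀, ⟨red_single hc1, red_winv hl₀, ?_⟩, ?_⟩
    · intro s hs s' hs'
      rw [head_winv, hlast] at hs'
      simp only [List.getLast?_singleton, Option.mem_some_iff] at hs
      simp only [Option.map_some, Option.mem_some_iff] at hs'
      rw [← hs, ← hs']
      simp
    · intro s hs s' hs'
      rw [hlast] at hs
      simp only [Option.mem_some_iff] at hs
      simp only [List.singleton_append, List.head?_cons, Option.mem_some_iff] at hs'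
      rw [← hs, ← hs']
      simp
  have hval : val i j (l₀ ++ ([Sum.inl (a₁ * a * a₁⁻¹)] ++ winv l₀)) = i a' := by
    rw [← hx, hv]
    simp [sv, mul_assoc]
  have hlen : 1 ≤ l₀.length := by
    rw [hb]
    simp
  have hbig : 1 < (l₀ ++ ([Sum.inl (a₁ * a * a₁⁻¹)] ++ winv l₀)).length := by
    simp only [List.length_append, List.length_cons, List.length_nil]
    omega
  by_cases ha' : a' = 1
  · have h1 := h.uniq _ [] hr red_nil (by rw [hval, ha']; simp)
    rw [h1] at hbig
    simp at hbig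
  · have h1 := h.uniq _ [Sum.inl a'] hr (red_single ha') (by rw [hval]; simp [sv])
    rw [h1] at hbig
    simp at hbig

theorem FreeProd.malnormal_right (h : FreeProd i j) {b b' : B} (hb : b ≠ 1) {x : Γ}
    (hx : x * j b * x⁻¹ = j b') : ∃ b₀, x = j b₀ :=
  h.symm.malnormal_left hb hx

private lemma fmal_pow {α : Type} [Unique α] (x : FreeGroup α) :
    ∃ m : ℤ, x = FreeGroup.of (default : α) ^ m := by
  refine FreeGroup.induction_on (C := fun x => ∃ m : ℤ, x = FreeGroup.of (default : α) ^ m) x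
    ?_ ?_ ?_ ?_
  · exact ⟨0, by simp⟩
  · intro y
    refine ⟨1, ?_⟩
    rw [Unique.eq_default y, zpow_one]
    try rfl
  · intro y _
    refine ⟨-1, ?_⟩
    rw [Unique.eq_default y, zpow_neg, zpow_one]
    try rfl
  · rintro x y ⟨m, rfl⟩ ⟨n, rfl⟩
    exact ⟨m + n, by rw [zpow_add]⟩

/-- what commutes with a nontrivial power of a letter is a power of the letter -/
theorem commute_of_pow {α : Type} [DecidableEq α] (s : α) {n : ℤ} (hn : n ≠ 0) {x : FreeGroup α}
    (hx : x * FreeGroup.of s ^ n = FreeGroup.of s ^ n * x) :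
    ∃ m : ℤ, x = FreeGroup.of s ^ m := by
  let e : {y // y = s} ⊕ {y // ¬ y = s} ≃ α := Equiv.sumCompl (fun y => y = s)
  have h := (freeProd_sum {y // y = s} {y // ¬ y = s}).equiv (FreeGroup.freeGroupCongr e)
  set i' := (FreeGroup.freeGroupCongr e).toMonoidHom.comp
    (FreeGroup.map (Sum.inl : {y // y = s} → {y // y = s} ⊕ {y // ¬ y = s})) with hi'
  have hi : i' (FreeGroup.of ⟨s, rfl⟩) = FreeGroup.of s := by
    rw [hi']
    simp [e]
  have hne : (FreeGroup.of s : FreeGroup α) ^ n ≠ 1 := by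
    intro h1
    have h2 := congrArg (FreeGroup.lift (fun _ : α => Multiplicative.ofAdd (1 : ℤ))) h1
    rw [map_zpow, MonoidHom.map_one, FreeGroup.lift_apply_of, ← ofAdd_zsmul] at h2
    have h3 := congrArg Multiplicative.toAdd h2
    rw [toAdd_ofAdd, toAdd_one, smul_eq_mul, mul_one] at h3
    exact hn h3
  have ha : (FreeGroup.of (⟨s, rfl⟩ : {y // y = s})) ^ n ≠ 1 := by
    intro h1
    have h2 := congrArg i' h1
    rw [map_zpow, hi, map_one] at h2
    exact hne h2
  have hx' : x * i' ((FreeGroup.of (⟨s, rfl⟩ : {y // y = s})) ^ n) * x⁻¹ =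
      i' ((FreeGroup.of (⟨s, rfl⟩ : {y // y = s})) ^ n) := by
    rw [map_zpow, hi, hx]
    group
  obtain ⟨a₀, ha₀⟩ := h.malnormal_left ha hx'
  let U : Unique {y // y = s} := ⟨⟨⟨s, rfl⟩⟩, fun y => Subtype.ext y.2⟩
  obtain ⟨m, hm⟩ := fmal_pow a₀
  refine ⟨m, ?_⟩
  rw [ha₀, hm, map_zpow]
  have hd : (default : {y // y = s}) = ⟨s, rfl⟩ := rfl
  rw [hd, hi]
/- Proof: `FreeGroup α ≃* FreeGroup ({y // y = s} ⊕ {y // y ≠ s})` (`Equiv.sumCompl`,
`FreeGroup.freeGroupCongr`), import `Fsum` (`freeProd_sum`) and use `malnormal_left` with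
`a = a' = of s ^ n`; elements of `FreeGroup {y // y = s}` are powers of the only letter. -/

end Pool.Agent.Helper7.AG
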