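import Pool.Agent.Helper7.AG.FP

/-!
# Project AG, piece AG-V: words which are multiplicative in one variable

Proof of `mult_word`.  Write `x = i x₀ * j b₁ * i x₁ * ⋯ * j b_n * i x_n` with `n ≥ 0`, all
`b_k ≠ 1` and `x_k ≠ 1` for `0 < k < n` (from the reduced word).  If `n = 0`: `e₀ x = i' x₀` and
`e₁ x * e₂ x = i' (x₀²)`, so `x₀ = 1` and `x = 1`.  Let `n ≥ 1`.  The reduced word of `e₀ x` has
`n` syllables from `B'` (`f₀` is injective).  If `x_n x₀ ≠ 1`, the reduced word of `e₁ x * e₂ x`
has `2 n` syllables from `B'`: contradiction.  If `x_n x₀ = 1` then the product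
`f₁ b_n * f₂ b₁` is not `1` (hypothesis `h12`) and the reduced word of
`e₁ x * e₂ x = i' x₀ * j' (f₁ b₁) * ⋯ * j' (f₁ b_n * f₂ b₁) * ⋯ * j' (f₂ b_n) * i' x_n` has
`2 n - 1` syllables from `B'`.  So `n = 1`, `x = i x₀ * j b₁ * (i x₀)⁻¹`, and
`f₀ b₁ = f₁ b₁ * f₂ b₁`.
-/

namespace Pool.Agent.Helper7.AG

variable {A B Γ B' Γ' : Type*} [Group A] [Group B] [Group Γ] [Group B'] [Group Γ']
  {i : A →* Γ} {j : B →* Γ} {i' : A →* Γ'} {j' : B' →* Γ'}

/-- the word with `f` applied to the syllables of `B` -/
private def fvw (f : B →* B') (l : List (A ⊕ B)) : List (A ⊕ B') := l.map (Sum.map id f)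

private lemma fvw_nt {f : B →* B'} (hf : Function.Injective f) {s : A ⊕ B} (h : nt s) :
    nt (Sum.map id f s : A ⊕ B') := by
  cases s with
  | inl a => exact h
  | inr b =>
    intro h1
    apply h
    apply hf
    rw [map_one]
    exact h1

private lemma fvw_left (f : B →* B') (s : A ⊕ B) :
    (Sum.map id f s : A ⊕ B').isLeft = s.isLeft := by
  cases s <;> rfl

private lemma fvw_red {f : B →* B'} (hf : Function.Injective f) {l : List (A ⊕ B)}
    (h : Red l) : Red (fvw f l) := by
  refine ⟨?_, ?_⟩
  · intro s hs
    obtain ⟨s', h1, rfl⟩ := List.mem_map.1 hs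
    exact fvw_nt hf (h.1 _ h1)
  · unfold fvw
    rw [List.isChain_map]
    refine h.2.imp ?_
    intro s s' h1
    rw [fvw_left, fvw_left]
    exact h1

private lemma fvw_val {f : B →* B'} {e : Γ →* Γ'} (ha : ∀ a, e (i a) = i' a)
    (hb : ∀ b, e (j b) = j' (f b)) (l : List (A ⊕ B)) :
    val i' j' (fvw f l) = e (val i j l) := by
  induction l with
  | nil => simp [fvw]
  | cons s l ih =>
    have h1 : fvw f (s :: l) = (Sum.map id f s : A ⊕ B') :: fvw f l := rfl
    rw [h1, val_cons, val_cons, map_mul, ih]
    congr 1
    cases s with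
    | inl a => exact (ha a).symm
    | inr b => exact (hb b).symm

/-- the merging of the last and the first syllable -/
private lemma fvw_key (h' : FreeProd i' j') {f₀ f₁ f₂ : B →* B'} (i0 : Function.Injective f₀)
    (i1 : Function.Injective f₁) (i2 : Function.Injective f₂) {l : List (A ⊕ B)} (hl : Red l)
    (hv : val i' j' (fvw f₀ l) = val i' j' (fvw f₁ l) * val i' j' (fvw f₂ l))
    {s s' : A ⊕ B} {u v : List (A ⊕ B)} (e1 : l = s :: v) (e2 : l = u ++ [s'])
    {t : A ⊕ B'} (ht : nt t) (hL : t.isLeft = s.isLeft) (hL' : t.isLeft = s'.isLeft)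
    (hsv : sv i' j' t = sv i' j' (Sum.map id f₁ s') * sv i' j' (Sum.map id f₂ s)) :
    l = [s] ∧ s' = s ∧ (Sum.map id f₀ s : A ⊕ B') = t := by
  have hr1 : Red (fvw f₁ u ++ [(Sum.map id f₁ s' : A ⊕ B')]) := by
    have h1 := fvw_red i1 hl
    rw [e2] at h1
    unfold fvw at h1 ⊢
    rwa [List.map_append] at h1
  have hr2 : Red ([(Sum.map id f₂ s : A ⊕ B')] ++ fvw f₂ v) := by
    have h1 := fvw_red i2 hl
    rw [e1] at h1
    exact h1
  rw [red_append] at hr1 hr2
  have hw : Red (fvw f₁ u ++ ([t] ++ fvw f₂ v)) := by
    rw [red_append, red_append]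
    refine ⟨hr1.1, ⟨red_single ht, hr2.2.1, ?_⟩, ?_⟩
    · intro c hc c' hc'
      have h2 : c = t := by simpa using hc.symm
      have h3 := hr2.2.2 (Sum.map id f₂ s) (by simp) c' hc'
      rw [h2, hL]
      rwa [fvw_left] at h3
    · intro c hc c' hc'
      have h2 : c' = t := by simpa using hc'.symm
      have h3 := hr1.2.2 c hc (Sum.map id f₁ s') (by simp)
      rw [h2, hL']
      rwa [fvw_left] at h3
  have hval : val i' j' (fvw f₀ l) = val i' j' (fvw f₁ u ++ ([t] ++ fvw f₂ v)) := by
    rw [hv]
    have h1 : fvw f₁ l = fvw f₁ u ++ [(Sum.map id f₁ s' : A ⊕ B')] := by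
      rw [e2]
      unfold fvw
      rw [List.map_append]
      rfl
    have h2 : fvw f₂ l = (Sum.map id f₂ s : A ⊕ B') :: fvw f₂ v := by
      rw [e1]
      rfl
    rw [h1, h2]
    simp only [val_append, val_cons, val_nil, mul_one]
    rw [hsv]
    simp only [mul_assoc]
  have heq := h'.uniq _ _ (fvw_red i0 hl) hw hval
  have hlen := congrArg List.length heq
  have l1 := congrArg List.length e1
  have l2 := congrArg List.length e2
  simp only [fvw, List.length_map, List.length_append, List.length_cons, List.length_nil] at *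
  have hv0 : v = [] := List.length_eq_zero_iff.1 (by omega)
  have hu0 : u = [] := List.length_eq_zero_iff.1 (by omega)
  subst hv0
  subst hu0
  rw [e1] at heq e2
  refine ⟨e1, ?_, ?_⟩
  · simpa using e2.symm
  · simpa using heq

/-- AG-V -/
theorem mult_word (h : FreeProd i j) (h' : FreeProd i' j') {e₀ e₁ e₂ : Γ →* Γ'}
    {f₀ f₁ f₂ : B →* B'} (a0 : ∀ a, e₀ (i a) = i' a) (a1 : ∀ a, e₁ (i a) = i' a)
    (a2 : ∀ a, e₂ (i a) = i' a) (b0 : ∀ b, e₀ (j b) = j' (f₀ b)) (b1 : ∀ b, e₁ (j b) = j' (f₁ b))
    (b2 : ∀ b, e₂ (j b) = j' (f₂ b)) (i0 : Function.Injective f₀) (i1 : Function.Injective f₁)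
    (i2 : Function.Injective f₂) (h12 : ∀ b b' : B, b ≠ 1 → b' ≠ 1 → f₁ b * f₂ b' ≠ 1)
    {x : Γ} (hx : e₀ x = e₁ x * e₂ x) :
    x = 1 ∨ ∃ a b, b ≠ 1 ∧ x = i a * j b * (i a)⁻¹ ∧ f₀ b = f₁ b * f₂ b := by
  obtain ⟨l, hl, rfl⟩ := h.ex x
  have hv : val i' j' (fvw f₀ l) = val i' j' (fvw f₁ l) * val i' j' (fvw f₂ l) := by
    rw [fvw_val a0 b0, fvw_val a1 b1, fvw_val a2 b2]
    exact hx
  rcases List.eq_nil_or_concat l with rfl | ⟨u, s', e2⟩
  · left
    simp
  rw [List.concat_eq_append] at e2
  obtain ⟨s, v, e1⟩ : ∃ s v, l = s :: v := by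
    cases l with
    | nil => simp at e2
    | cons s v => exact ⟨s, v, rfl⟩
  -- both ends from `B`
  have hBB : ∀ (l : List (A ⊕ B)), Red l →
      val i' j' (fvw f₀ l) = val i' j' (fvw f₁ l) * val i' j' (fvw f₂ l) →
      ∀ b b' u v, l = Sum.inr b :: v → l = u ++ [Sum.inr b'] →
        l = [Sum.inr b] ∧ b ≠ 1 ∧ f₀ b = f₁ b * f₂ b := by
    intro l hl hv b b' u v e1 e2
    have hb : b ≠ 1 := hl.1 (Sum.inr b) (by rw [e1]; simp)
    have hb' : b' ≠ 1 := hl.1 (Sum.inr b') (by rw [e2]; simp)
    obtain ⟨k1, k2, k3⟩ := fvw_key h' i0 i1 i2 hl hv e1 e2 (t := Sum.inr (f₁ b' * f₂ b))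
      (h12 b' b hb' hb) rfl rfl (by
        show j' (f₁ b' * f₂ b) = j' (f₁ b') * j' (f₂ b)
        rw [map_mul])
    refine ⟨k1, hb, ?_⟩
    have k4 : b' = b := Sum.inr.inj k2
    rw [k4] at k3
    exact Sum.inr.inj k3
  by_cases hside : s'.isLeft = s.isLeft
  · cases s with
    | inl a =>
      cases s' with
      | inr b' => simp at hside
      | inl a' =>
        have ha : a ≠ 1 := hl.1 (Sum.inl a) (by rw [e1]; simp)
        by_cases hm : a' * a = 1
        · -- `x = i a * val m * (i a)⁻¹`
          rcases u with _ | ⟨s₀, m⟩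
          · exfalso
            rw [List.nil_append] at e2
            rw [e2] at hv hl e1
            have k1 : a' = a := by
              have := List.head_eq_of_cons_eq e1
              exact Sum.inl.inj this
            have k2 : i' a' = i' a' * i' a' := by simpa [fvw, sv] using hv
            have k3 : i' a' = 1 := by
              have := mul_eq_left.mp k2.symm
              exact this
            have k4 : a' = 1 := by
              apply h'.inj_left
              rw [k3, map_one]
            exact ha (by rw [← k1, k4])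
          · have e3 : l = s₀ :: (m ++ [Sum.inl a']) := by rw [e2]; rfl
            have k1 : s₀ = Sum.inl a := by
              rw [e3] at e1
              exact List.head_eq_of_cons_eq e1
            rw [k1] at e3
            have hm' : a' = a⁻¹ := eq_inv_of_mul_eq_one_left hm
            -- `m` is reduced with both ends from `B`
            have hr : Red ([Sum.inl a] ++ (m ++ [Sum.inl a'])) := by
              rw [e3] at hl
              exact hl
            rw [red_append, red_append] at hr
            obtain ⟨-, ⟨hrm, -, hr2⟩, hr3⟩ := hr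
            have hmne : m ≠ [] := by
              intro h0
              rw [h0] at hr3
              have := hr3 (Sum.inl a) (by simp) (Sum.inl a') (by simp)
              exact this rfl
            have hvm : val i' j' (fvw f₀ m) = val i' j' (fvw f₁ m) * val i' j' (fvw f₂ m) := by
              have hsplit : ∀ f : B →* B', val i' j' (fvw f l) =
                  i' a * val i' j' (fvw f m) * (i' a)⁻¹ := by
                intro f
                have k2 : fvw f l = (Sum.inl a : A ⊕ B') :: (fvw f m ++ [Sum.inl a']) := by
                  rw [e3]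
                  unfold fvw
                  rw [List.map_cons, List.map_append]
                  rfl
                rw [k2, val_cons, val_append, val_cons, val_nil, mul_one]
                show i' a * (val i' j' (fvw f m) * i' a') = _
                rw [hm', map_inv, mul_assoc]
              rw [hsplit, hsplit, hsplit] at hv
              have k3 : i' a * val i' j' (fvw f₀ m) * (i' a)⁻¹ =
                  i' a * (val i' j' (fvw f₁ m) * val i' j' (fvw f₂ m)) * (i' a)⁻¹ := by
                rw [hv]
                group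
              have k4 := mul_right_cancel k3
              exact mul_left_cancel k4
            obtain ⟨u', c', em2⟩ : ∃ u' c', m = u' ++ [c'] := by
              rcases List.eq_nil_or_concat m with h0 | ⟨u', c', h0⟩
              · exact absurd h0 hmne
              · exact ⟨u', c', by rw [h0, List.concat_eq_append]⟩
            obtain ⟨c, v', em1⟩ : ∃ c v', m = c :: v' := by
              cases m with
              | nil => exact absurd rfl hmne
              | cons c v' => exact ⟨c, v', rfl⟩
            have hc : c.isLeft ≠ true := by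
              have := hr3 (Sum.inl a) (by simp) c (by rw [em1]; simp)
              exact fun h0 => this h0.symm
            have hc' : c'.isLeft ≠ true := by
              exact hr2 c' (by rw [em2]; simp) (Sum.inl a') (by simp)
            cases c with
            | inl y => exact absurd rfl hc
            | inr b =>
              cases c' with
              | inl y => exact absurd rfl hc'
              | inr b' =>
                obtain ⟨k5, k6, k7⟩ := hBB m hrm hvm b b' u' v' em1 em2
                right
                refine ⟨a, b, k6, ?_, k7⟩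
                rw [e3, k5, hm']
                simp [sv, mul_assoc]
        · exfalso
          obtain ⟨k1, k2, k3⟩ := fvw_key h' i0 i1 i2 hl hv e1 e2 (t := Sum.inl (a' * a)) hm rfl rfl
            (by
              show i' (a' * a) = i' a' * i' a
              rw [map_mul])
          have k4 : a' = a := Sum.inl.inj k2
          rw [k4] at k3
          have k5 : a = a * a := Sum.inl.inj k3
          exact ha (mul_eq_left.mp k5.symm)
    | inr b =>
      cases s' with
      | inl a' => simp at hside
      | inr b' =>
        obtain ⟨k5, k6, k7⟩ := hBB l hl hv b b' u v e1 e2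
        right
        refine ⟨1, b, k6, ?_, k7⟩
        rw [k5]
        simp [sv]
  · exfalso
    have hr : Red (fvw f₁ l ++ fvw f₂ l) := by
      rw [red_append]
      refine ⟨fvw_red i1 hl, fvw_red i2 hl, ?_⟩
      intro c hc c' hc'
      have k1 : c = Sum.map id f₁ s' := by
        rw [e2] at hc
        simpa [fvw] using hc.symm
      have k2 : c' = Sum.map id f₂ s := by
        rw [e1] at hc'
        simpa [fvw] using hc'.symm
      rw [k1, k2, fvw_left, fvw_left]
      exact hside
    have heq := h'.uniq _ _ (fvw_red i0 hl) hr (by rw [val_append]; exact hv)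
    have hlen := congrArg List.length heq
    have l1 := congrArg List.length e1
    simp only [fvw, List.length_map, List.length_append, List.length_cons] at hlen l1
    omega

end Pool.Agent.Helper7.AG
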