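import Pool.Agent.Helper7.AG.Sl

/-!
# Project AG, piece AG-KER: the kernel of `B_3 → PSL(2, ℤ)`

Proof.  Let `x = a b`, `y = a b a`, `z = (a b)³`.  From the braid relation: `x³ = z = y²`,
`a = x⁻¹ y`, `b = y⁻¹ x²`; `z` commutes with `a` and `b`; `f x = mU`, `f y = mS`, `f z = -1`.
Every `w ∈ closure {a, b} = closure {x, y}` can be written
`w = z ^ n * y ^ e * P * x ^ δ`, `n : ℤ`, `e ∈ {0, 1}`, `δ ∈ {0, 1, -1}`, `P` a product of elements
`x * y` and `x⁻¹ * y` (a list of Booleans); this set is closed under the multiplication from the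
right by `x^±1`, `y^±1` (`x² = z x⁻¹`, `y⁻¹ = z⁻¹ y`; for `δ = 0` and `P = P' * (x^±1 * y)`:
`P * y = z * P' * x^±1`).  `f (x⁻¹ y) = !![1, 1; 0, 1]` and `f (x y) = -!![1, 0; 1, 1]`: so `f P` is,
up to sign, a matrix with entries `≥ 0`, and trace `≥ 2` and (if `P` is not the empty product) with
a positive entry off the diagonal.  If `f w = ±1` then `f P = ± (f y)^(-e) (f x)^(-δ)`, and these
six matrices (`1, mS, mU^∓1, mS⁻¹ mU^∓1`) have, up to sign, only nonnegative entries only for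
`e = δ = 0`; then `f P = ±1`, so `P` is the empty product and `w = z ^ n`.
-/

namespace Pool.Agent.Helper7.AG

private def sl5P {Γ : Type*} [Group Γ] (x y : Γ) : List Bool → Γ
  | [] => 1
  | b :: L => sl5P x y L * ((if b then x else x⁻¹) * y)

private def sl5N {Γ : Type*} [Group Γ] (x y w : Γ) : Prop :=
  ∃ (n : ℤ) (e : Bool) (L : List Bool) (d : Γ), (d = 1 ∨ d = x ∨ d = x⁻¹) ∧
    w = (x ^ 3) ^ n * ((if e then y else 1) * (sl5P x y L * d))

private lemma sl5_commP {Γ : Type*} [Group Γ] {x y : Γ} (hz : Commute (x ^ 3) y) (L : List Bool) :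
    Commute (x ^ 3) (sl5P x y L) := by
  induction L with
  | nil => exact Commute.one_right _
  | cons b L ih =>
    refine ih.mul_right (Commute.mul_right ?_ hz)
    split_ifs
    · exact (Commute.refl x).pow_left 3
    · exact ((Commute.refl x).pow_left 3).inv_right

private lemma sl5_commE {Γ : Type*} [Group Γ] {x y : Γ} (hz : Commute (x ^ 3) y) (e : Bool) :
    Commute (x ^ 3) (if e then y else 1) := by
  split_ifs
  · exact hz
  · exact Commute.one_right _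

private lemma sl5_key {Γ : Type*} [Group Γ] {z E P d : Γ} (hE : Commute z E) (hP : Commute z P)
    (n : ℤ) : z ^ n * (E * (P * (z * d))) = z ^ (n + 1) * (E * (P * d)) := by
  rw [zpow_add_one, mul_assoc (z ^ n) z, ← mul_assoc P z d, ← hP.eq, mul_assoc z P d,
    ← mul_assoc E z, ← hE.eq, mul_assoc z E]

private lemma sl5_comm {Γ : Type*} [Group Γ] {x y w : Γ} (hz : Commute (x ^ 3) y)
    (h : sl5N x y w) : Commute (x ^ 3) w := by
  obtain ⟨n, e, L, d, hd, rfl⟩ := h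
  refine Commute.mul_right ((Commute.refl _).zpow_right n) ((sl5_commE hz e).mul_right
    ((sl5_commP hz L).mul_right ?_))
  rcases hd with rfl | rfl | rfl
  · exact Commute.one_right _
  · exact (Commute.refl _).pow_left 3
  · exact ((Commute.refl _).pow_left 3).inv_right

private lemma sl5_zinv {Γ : Type*} [Group Γ] {x y w : Γ} (h : sl5N x y w) :
    sl5N x y ((x ^ 3)⁻¹ * w) := by
  obtain ⟨n, e, L, d, hd, rfl⟩ := h
  refine ⟨-1 + n, e, L, d, hd, ?_⟩
  rw [zpow_add, zpow_neg_one, mul_assoc]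

private lemma sl5_x {Γ : Type*} [Group Γ] {x y w : Γ} (hz : Commute (x ^ 3) y)
    (h : sl5N x y w) : sl5N x y (w * x) := by
  obtain ⟨n, e, L, d, hd, rfl⟩ := h
  rcases hd with rfl | rfl | rfl
  · exact ⟨n, e, L, x, Or.inr (Or.inl rfl), by simp only [mul_assoc, one_mul]⟩
  · refine ⟨n + 1, e, L, d⁻¹, Or.inr (Or.inr rfl), ?_⟩
    rw [← sl5_key (sl5_commE hz e) (sl5_commP hz L)]
    have : d ^ 3 * d⁻¹ = d * d := by rw [pow_succ, mul_inv_cancel_right, sq]
    rw [this]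
    simp only [mul_assoc]
  · exact ⟨n, e, L, 1, Or.inl rfl, by simp only [mul_assoc, inv_mul_cancel]⟩

private lemma sl5_y {Γ : Type*} [Group Γ] {x y w : Γ} (hy : y * y = x ^ 3)
    (hz : Commute (x ^ 3) y) (h : sl5N x y w) : sl5N x y (w * y) := by
  obtain ⟨n, e, L, d, hd, rfl⟩ := h
  rcases hd with rfl | rfl | rfl
  · cases L with
    | nil =>
      cases e with
      | false => exact ⟨n, true, [], 1, Or.inl rfl, by simp [sl5P]⟩
      | true =>
        refine ⟨n + 1, false, [], 1, Or.inl rfl, ?_⟩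
        simp only [sl5P, if_true, mul_one]
        rw [mul_assoc, hy, zpow_add_one]
        simp
    | cons b L =>
      refine ⟨n + 1, e, L, if b then x else x⁻¹, ?_, ?_⟩
      · split_ifs
        · exact Or.inr (Or.inl rfl)
        · exact Or.inr (Or.inr rfl)
      · rw [← sl5_key (sl5_commE hz e) (sl5_commP hz L)]
        have hc : Commute (x ^ 3) (if b then x else x⁻¹) := by
          split_ifs
          · exact (Commute.refl _).pow_left 3
          · exact ((Commute.refl _).pow_left 3).inv_right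
        rw [hc.eq, ← hy]
        simp only [sl5P, mul_assoc, one_mul]
  · exact ⟨n, e, true :: L, 1, Or.inl rfl, by simp [sl5P, mul_assoc]⟩
  · exact ⟨n, e, false :: L, 1, Or.inl rfl, by simp [sl5P, mul_assoc]⟩

private def sl5Q (M : SL) (t : Prop) : Prop :=
  (1 ≤ M 0 0 ∧ 1 ≤ M 1 1 ∧ 0 ≤ M 0 1 ∧ 0 ≤ M 1 0 ∧ (t ∨ 1 ≤ M 0 1 + M 1 0)) ∨
  (M 0 0 ≤ -1 ∧ M 1 1 ≤ -1 ∧ M 0 1 ≤ 0 ∧ M 1 0 ≤ 0 ∧ (t ∨ M 0 1 + M 1 0 ≤ -1))

private lemma sl5_mul00 (M N : SL) : (M * N) 0 0 = M 0 0 * N 0 0 + M 0 1 * N 1 0 := by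
  simp [Matrix.mul_apply, Fin.sum_univ_two]
private lemma sl5_mul01 (M N : SL) : (M * N) 0 1 = M 0 0 * N 0 1 + M 0 1 * N 1 1 := by
  simp [Matrix.mul_apply, Fin.sum_univ_two]
private lemma sl5_mul10 (M N : SL) : (M * N) 1 0 = M 1 0 * N 0 0 + M 1 1 * N 1 0 := by
  simp [Matrix.mul_apply, Fin.sum_univ_two]
private lemma sl5_mul11 (M N : SL) : (M * N) 1 1 = M 1 0 * N 0 1 + M 1 1 * N 1 1 := by
  simp [Matrix.mul_apply, Fin.sum_univ_two]

private lemma sl5_ent : mU 0 0 = 0 ∧ mU 0 1 = 1 ∧ mU 1 0 = -1 ∧ mU 1 1 = 1 ∧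
    mS 0 0 = 0 ∧ mS 0 1 = 1 ∧ mS 1 0 = -1 ∧ mS 1 1 = 0 ∧
    mA 0 0 = 1 ∧ mA 0 1 = 1 ∧ mA 1 0 = 0 ∧ mA 1 1 = 1 :=
  ⟨rfl, rfl, rfl, rfl, rfl, rfl, rfl, rfl, rfl, rfl, rfl, rfl⟩

private lemma sl5_UiS : mU⁻¹ * mS = mA := by
  rw [inv_mul_eq_iff_eq_mul, mU_mA]

private lemma sl5_Uinv : mU⁻¹ 0 0 = 1 ∧ mU⁻¹ 0 1 = -1 ∧ mU⁻¹ 1 0 = 1 ∧ mU⁻¹ 1 1 = 0 := by
  rw [Matrix.SpecialLinearGroup.SL2_inv_expl]
  exact ⟨rfl, rfl, rfl, rfl⟩

private lemma sl5_P {Γ : Type*} [Group Γ] {x y : Γ} {f : Γ →* SL} (fx : f x = mU)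
    (fy : f y = mS) (L : List Bool) : sl5Q (f (sl5P x y L)) (L = []) := by
  obtain ⟨u1, u2, u3, u4, s1, s2, s3, s4, a1, a2, a3, a4⟩ := sl5_ent
  induction L with
  | nil =>
    left
    simp [sl5P]
  | cons b L ih =>
    cases b with
    | true =>
      have h1 : f (sl5P x y (true :: L)) = f (sl5P x y L) * (mU * mS) := by
        simp [sl5P, fx, fy]
      rw [h1]
      obtain ⟨M, hM⟩ : ∃ M, M = f (sl5P x y L) := ⟨_, rfl⟩
      rw [← hM] at ih ⊢
      simp only [sl5Q, sl5_mul00, sl5_mul01, sl5_mul10, sl5_mul11, u1, u2, u3, u4, s1, s2, s3,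
        s4] at ih ⊢
      rcases ih with ⟨h1, h2, h3, h4, -⟩ | ⟨h1, h2, h3, h4, -⟩
      · right
        refine ⟨?_, ?_, ?_, ?_, Or.inr ?_⟩ <;> linarith
      · left
        refine ⟨?_, ?_, ?_, ?_, Or.inr ?_⟩ <;> linarith
    | false =>
      have h1 : f (sl5P x y (false :: L)) = f (sl5P x y L) * mA := by
        simp [sl5P, fx, fy, sl5_UiS]
      rw [h1]
      obtain ⟨M, hM⟩ : ∃ M, M = f (sl5P x y L) := ⟨_, rfl⟩
      rw [← hM] at ih ⊢
      simp only [sl5Q, sl5_mul00, sl5_mul01, sl5_mul10, sl5_mul11, a1, a2, a3, a4] at ih ⊢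
      rcases ih with ⟨h1, h2, h3, h4, -⟩ | ⟨h1, h2, h3, h4, -⟩
      · left
        refine ⟨?_, ?_, ?_, ?_, Or.inr ?_⟩ <;> linarith
      · right
        refine ⟨?_, ?_, ?_, ?_, Or.inr ?_⟩ <;> linarith

/-- AG-KER -/
theorem ker_B3 {Γ : Type*} [Group Γ] {a b : Γ} (hab : a * b * a = b * a * b) {f : Γ →* SL}
    (fa : f a = mA) (fb : f b = mB) {w : Γ} (hw : w ∈ Subgroup.closure {a, b})
    (h : f w = 1 ∨ f w = -1) : ∃ n : ℤ, w = ((a * b) ^ 3) ^ n := by
  obtain ⟨x, hx⟩ : ∃ x, x = a * b := ⟨_, rfl⟩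
  obtain ⟨y, hy⟩ : ∃ y, y = a * b * a := ⟨_, rfl⟩
  have fx : f x = mU := by rw [hx, map_mul, fa, fb, mA_mB]
  have fy : f y = mS := by rw [hy, map_mul, map_mul, fa, fb, mA_mB, mU_mA]
  have hyy : y * y = x ^ 3 := by
    have : y * y = (a * b * a) * (b * a * b) := by rw [← hab, hy]
    rw [this, hx]
    simp only [pow_succ, pow_zero, one_mul, mul_assoc]
  have hz : Commute (x ^ 3) y := by
    rw [← hyy]
    exact (Commute.refl y).mul_left (Commute.refl y)
  have ha : a = x⁻¹ * y := by rw [hx, hy, inv_mul_cancel_left]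
  have hb : b = y⁻¹ * (x * x) := by
    rw [eq_inv_mul_iff_mul_eq, hy, hx, hab]
    have : a * b * (a * b) = (a * b * a) * b := by simp only [mul_assoc]
    rw [this, hab]
  have hN : sl5N x y w := by
    have h1 : sl5N x y (1 : Γ) := ⟨0, false, [], 1, Or.inl rfl, by simp [sl5P]⟩
    have hxi : ∀ v, sl5N x y v → sl5N x y (v * x⁻¹) := by
      intro v hv
      have h2 := sl5_zinv (sl5_x hz (sl5_x hz hv))
      have hc : Commute (x ^ 3) v := sl5_comm hz hv
      have e : (x ^ 3)⁻¹ * (v * x * x) = v * x⁻¹ := by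
        rw [inv_mul_eq_iff_eq_mul, ← mul_assoc, hc.eq]
        simp only [pow_succ, pow_zero, one_mul, mul_assoc, mul_inv_cancel, mul_one]
      rwa [e] at h2
    have hyi : ∀ v, sl5N x y v → sl5N x y (v * y⁻¹) := by
      intro v hv
      have h2 := sl5_zinv (sl5_y hyy hz hv)
      have hc : Commute (x ^ 3) v := sl5_comm hz hv
      have e : (x ^ 3)⁻¹ * (v * y) = v * y⁻¹ := by
        rw [inv_mul_eq_iff_eq_mul, ← mul_assoc, hc.eq, ← hyy]
        simp only [mul_assoc, mul_inv_cancel, mul_one]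
      rwa [e] at h2
    refine Subgroup.closure_induction_right (p := fun v _ => sl5N x y v) h1 ?_ ?_ hw
    · intro v _ g hg hv
      rcases hg with rfl | hg
      · rw [ha, ← mul_assoc]
        exact sl5_y hyy hz (hxi v hv)
      · rw [Set.mem_singleton_iff] at hg
        rw [hg, hb, ← mul_assoc, ← mul_assoc]
        exact sl5_x hz (sl5_x hz (hyi v hv))
    · intro v _ g hg hv
      rcases hg with rfl | hg
      · rw [ha, mul_inv_rev, inv_inv, ← mul_assoc]
        exact sl5_x hz (hyi v hv)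
      · rw [Set.mem_singleton_iff] at hg
        rw [hg, hb, mul_inv_rev, mul_inv_rev, inv_inv, ← mul_assoc, ← mul_assoc]
        exact sl5_y hyy hz (hxi _ (hxi v hv))
  obtain ⟨n, e, L, d, hd, hwe⟩ := hN
  have fz : f (x ^ 3) = -1 := by
    rw [map_pow, fx]
    ext i j
    fin_cases i <;> fin_cases j <;> rfl
  have fzn : ∀ m : ℤ, f (x ^ 3) ^ m = 1 ∨ f (x ^ 3) ^ m = -1 := by
    intro m
    have h2 : f (x ^ 3) ^ (2 : ℤ) = 1 := by
      rw [fz]
      have : ((-1 : SL)) ^ (2 : ℤ) = (-1) ^ (2 : ℕ) := by rw [← zpow_natCast]; rfl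
      rw [this]; simp
    rcases Int.even_or_odd' m with ⟨c, hc | hc⟩
    · left
      rw [hc, zpow_mul, h2, one_zpow]
    · right
      rw [hc, zpow_add, zpow_mul, h2, one_zpow, one_mul, zpow_one, fz]
  have h3 : f ((if e then y else 1) * (sl5P x y L * d)) = 1 ∨
      f ((if e then y else 1) * (sl5P x y L * d)) = -1 := by
    rw [hwe, map_mul, map_zpow] at h
    rcases fzn n with h4 | h4 <;> rw [h4] at h
    · simpa using h
    · rcases h with h | h
      · right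
        rw [neg_one_mul, neg_eq_iff_eq_neg] at h
        exact h
      · left
        rw [neg_one_mul, neg_inj] at h
        exact h
  have hQ := sl5_P fx fy L
  obtain ⟨u1, u2, u3, u4, s1, s2, s3, s4, a1, a2, a3, a4⟩ := sl5_ent
  obtain ⟨v1, v2, v3, v4⟩ := sl5_Uinv
  obtain ⟨M, hM⟩ : ∃ M, M = f (sl5P x y L) := ⟨_, rfl⟩
  rw [map_mul, map_mul, ← hM] at h3
  rw [← hM] at hQ
  have h01 : (f (if e then y else 1) * (M * f d)) 0 1 = 0 := by
    rcases h3 with h | h <;> rw [h] <;> rfl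
  have h10 : (f (if e then y else 1) * (M * f d)) 1 0 = 0 := by
    rcases h3 with h | h <;> rw [h] <;> rfl
  have o1 : (1 : SL) 0 0 = 1 ∧ (1 : SL) 0 1 = 0 ∧ (1 : SL) 1 0 = 0 ∧ (1 : SL) 1 1 = 1 :=
    ⟨rfl, rfl, rfl, rfl⟩
  obtain ⟨o1, o2, o3, o4⟩ := o1
  rcases hd with rfl | rfl | rfl
  · cases e with
    | false =>
      have hL : L = [] := by
        simp only [sl5_mul01, sl5_mul10, sl5_mul00, sl5_mul11, map_one, o1, o2, o3, o4, if_false,
          Bool.false_eq_true] at h01 h10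
        rcases hQ with ⟨q1, q2, q3, q4, q5 | q5⟩ | ⟨q1, q2, q3, q4, q5 | q5⟩
        · exact q5
        · exfalso; linarith
        · exact q5
        · exfalso; linarith
      refine ⟨n, ?_⟩
      rw [hwe, hL, hx]
      simp [sl5P]
    | true =>
      exfalso
      simp only [sl5_mul01, sl5_mul10, sl5_mul00, sl5_mul11, map_one, o1, o2, o3, o4, if_true,
        fy, s1, s2, s3, s4] at h01 h10
      rcases hQ with ⟨q1, q2, q3, q4, -⟩ | ⟨q1, q2, q3, q4, -⟩ <;> linarith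
  · exfalso
    cases e with
    | false =>
      simp only [sl5_mul01, sl5_mul10, sl5_mul00, sl5_mul11, map_one, o1, o2, o3, o4, if_false,
        Bool.false_eq_true, fx, u1, u2, u3, u4] at h01 h10
      rcases hQ with ⟨q1, q2, q3, q4, -⟩ | ⟨q1, q2, q3, q4, -⟩ <;> linarith
    | true =>
      simp only [sl5_mul01, sl5_mul10, sl5_mul00, sl5_mul11, if_true,
        fy, s1, s2, s3, s4, fx, u1, u2, u3, u4] at h01 h10
      rcases hQ with ⟨q1, q2, q3, q4, -⟩ | ⟨q1, q2, q3, q4, -⟩ <;> linarith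
  · exfalso
    cases e with
    | false =>
      simp only [sl5_mul01, sl5_mul10, sl5_mul00, sl5_mul11, map_one, o1, o2, o3, o4, if_false,
        Bool.false_eq_true, map_inv, fx, v1, v2, v3, v4] at h01 h10
      rcases hQ with ⟨q1, q2, q3, q4, -⟩ | ⟨q1, q2, q3, q4, -⟩ <;> linarith
    | true =>
      simp only [sl5_mul01, sl5_mul10, sl5_mul00, sl5_mul11, if_true,
        fy, s1, s2, s3, s4, map_inv, fx, v1, v2, v3, v4] at h01 h10
      rcases hQ with ⟨q1, q2, q3, q4, -⟩ | ⟨q1, q2, q3, q4, -⟩ <;> linarith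

end Pool.Agent.Helper7.AG
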