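import Pool.Agent.Helper7.AG.FP

/-!
# Project AG, piece AG-FIX: fixed elements of endomorphisms of free products
-/

namespace Pool.Agent.Helper7.AG

variable {A B Γ : Type*} [Group A] [Group B] [Group Γ] {i : A →* Γ} {j : B →* Γ}

/-- AG-FIX.  Proof: let `x = val l`, `l` reduced.  The word obtained by applying `id` and `f` to
the syllables is reduced (`f` injective) and its value is `e x = x`, so it is `l` (`uniq`); so
every `B` syllable `b` of `l` satisfies `f b = b`. -/
theorem FreeProd.fix (h : FreeProd i j) {e : Γ →* Γ} {f : B →* B} (he : ∀ a, e (i a) = i a)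
    (he' : ∀ b, e (j b) = j (f b)) (hf : Function.Injective f) {x : Γ} (hx : e x = x) :
    x ∈ Subgroup.closure (Set.range i ∪ j '' {b | f b = b}) := by
  obtain ⟨l, hl, rfl⟩ := h.ex x
  let g : A ⊕ B → A ⊕ B := Sum.map id f
  have hg : ∀ s, nt (g s) ↔ nt s := by
    intro s
    cases s with
    | inl a => exact Iff.rfl
    | inr b =>
      change f b ≠ 1 ↔ b ≠ 1
      rw [not_iff_not]
      constructor
      · intro h1
        exact hf (h1.trans (map_one f).symm)
      · intro h1
        rw [h1, map_one]
  have hgl : ∀ s, (g s).isLeft = s.isLeft := by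
    intro s
    cases s <;> rfl
  have hr : Red (l.map g) := by
    refine ⟨?_, ?_⟩
    · intro s hs
      obtain ⟨s', h1, rfl⟩ := List.mem_map.1 hs
      exact (hg s').2 (hl.1 _ h1)
    · rw [List.isChain_map]
      refine hl.2.imp ?_
      intro s s' h1
      rw [hgl, hgl]
      exact h1
  have hv : ∀ l : List (A ⊕ B), val i j (l.map g) = e (val i j l) := by
    intro l
    induction l with
    | nil => simp
    | cons s l ih =>
      rw [List.map_cons, val_cons, val_cons, ih, map_mul]
      congr 1
      cases s with
      | inl a => exact (he a).symm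
      | inr b => exact (he' b).symm
  have hfix : l.map g = l := h.uniq _ _ hr hl ((hv l).trans hx)
  have hall : ∀ s ∈ l, g s = s :=
    List.map_inj_left.1 (hfix.trans (List.map_id l).symm)
  have hmem : ∀ l' : List (A ⊕ B), (∀ s ∈ l', g s = s) →
      val i j l' ∈ Subgroup.closure (Set.range i ∪ j '' {b | f b = b}) := by
    intro l'
    induction l' with
    | nil =>
      intro _
      rw [val_nil]
      exact one_mem _
    | cons s l' ih =>
      intro h1
      rw [val_cons]
      refine mul_mem ?_ (ih fun s' hs' => h1 s' (List.mem_cons_of_mem _ hs'))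
      apply Subgroup.subset_closure
      have h2 := h1 s (List.mem_cons_self)
      cases s with
      | inl a => exact Or.inl ⟨a, rfl⟩
      | inr b => exact Or.inr ⟨b, Sum.inr_injective h2, rfl⟩
  exact hmem l hall

end Pool.Agent.Helper7.AG
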