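import Pool.Agent.Helper7.AG.Out

/-!
# Project AG: the form of the statement
-/

namespace Pool.Agent.Helper7.AG

/-- `ε` inverts the standard generators of the Artin group of `M` -/
def InvertsGens {S : Type*} (M : CoxeterMatrix S) (ε : MulAut (Artin M)) : Prop :=
  ∀ s : S, ε (PresentedGroup.of s) = (PresentedGroup.of s)⁻¹

/-- `ε` is an involution -/
def SqOne (G : Type*) [Group G] (ε : MulAut G) : Prop := ε * ε = 1

/-- every automorphism of `G` is in exactly one way `conj x` or `conj x * ε` with `x` in `G` -/
def UniqueForm (G : Type*) [Group G] (ε : MulAut G) : Prop :=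
  Function.Bijective (fun p : G × Bool => MulAut.conj p.1 * (if p.2 = true then ε else 1))

/-- the group `Out G` has order two and is generated by the class of `ε` -/
def OutGenBy (G : Type*) [Group G] (ε : MulAut G) : Prop :=
  ∃ e : Out G ≃* ℤˣ, e (QuotientGroup.mk ε) = -1

/-- the extension `1 → Inn G → Aut G → Out G → 1` splits: `Aut G → Out G` has a section which is
a homomorphism -/
def Splits (G : Type*) [Group G] : Prop :=
  ∃ σ : Out G →* MulAut G, ∀ o, QuotientGroup.mk (σ o) = o

theorem invertsGens_eps : InvertsGens G2t eps := by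
  intro s
  fin_cases s
  · exact eps_ga
  · exact eps_gb
  · exact eps_gc

theorem outGenBy_eps : OutGenBy GA eps := ⟨outEquiv, outEquiv_eps⟩

theorem splits_GA : Splits GA := ⟨section_, section_spec⟩

theorem uniqueForm_eps : UniqueForm GA eps := by
  constructor
  · rintro ⟨x, u⟩ ⟨y, v⟩ h
    have h' : toAut ⟨x, if u = true then -1 else 1⟩ = toAut ⟨y, if v = true then -1 else 1⟩ := by
      rw [toAut_apply, toAut_apply]
      cases u <;> cases v <;> simpa [theta] using h
    have h1 := toAut_bij.1 h'
    have h2 := congrArg SemidirectProduct.left h1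
    have h3 := congrArg SemidirectProduct.right h1
    cases u <;> cases v <;> simp_all
  · intro φ
    obtain ⟨x, h | h⟩ := aut_eq φ
    · exact ⟨(x, false), by simp [h]⟩
    · exact ⟨(x, true), by simp [h]⟩

end Pool.Agent.Helper7.AG
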