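import Pool.Agent.Helper7.AG.FP

/-!
# Project AG, piece AG-CYC: every element is conjugate to a cyclically reduced one

Proof.  Strong induction on the length of the reduced word `l` of `x`.  Length 0: `x = 1 = i 1`.
Length 1: `x ∈ range i` or `x ∈ range j`.  Length ≥ 2, `l = s :: l' ++ [s']`.
* `s`, `s'` from the same factor: conjugating by `sv s⁻¹` gives `val l' * sv s' * sv s`, whose
  reduced word is shorter (`l' ++ [s' s]`, or `l'` if `s' s = 1`): induction.
* `s` from `A`, `s'` from `B`: the word alternates, its length is even, and it is `pv L` for the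
  list `L` of its pairs.
* `s` from `B`, `s'` from `A`: conjugating by `sv s⁻¹` gives `val (l' ++ [s', s])`, again reduced,
  of the previous kind.
-/

namespace Pool.Agent.Helper7.AG

variable {A B Γ : Type*} [Group A] [Group B] [Group Γ] {i : A →* Γ} {j : B →* Γ}

private theorem Fcyc_pairs (n : ℕ) : ∀ l : List (A ⊕ B), l.length ≤ n → Red l →
    (∀ s ∈ l.head?, s.isLeft = true) → (∀ s ∈ l.getLast?, s.isLeft = false) →
    ∃ L : List (A × B), (∀ p ∈ L, p.1 ≠ 1 ∧ p.2 ≠ 1) ∧
      l = L.flatMap (fun p => [Sum.inl p.1, Sum.inr p.2]) := by
  induction n with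
  | zero =>
    intro l hn _ _ _
    have : l = [] := List.length_eq_zero_iff.1 (Nat.le_zero.1 hn)
    subst this
    exact ⟨[], by simp, by simp⟩
  | succ n ih =>
    intro l hn hl h1 h2
    match l, hn, hl, h1, h2 with
    | [], _, _, _, _ => exact ⟨[], by simp, by simp⟩
    | [s], _, _, h1, h2 =>
      have e1 := h1 s (by simp)
      have e2 := h2 s (by simp)
      rw [e1] at e2
      exact absurd e2 (by simp)
    | s :: s' :: l', hn, hl, h1, h2 =>
      obtain ⟨g1, g2, g3⟩ := red_cons_cons.1 hl
      have e1 := h1 s (by simp)
      have e2 : s'.isLeft = false := by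
        rw [e1] at g2
        cases h : s'.isLeft
        · rfl
        · rw [h] at g2
          exact absurd rfl g2
      have g4 : Red l' := by
        have : Red ([s'] ++ l') := g3
        exact (red_append.1 this).2.1
      have g5 : ∀ t ∈ l'.head?, t.isLeft = true := by
        intro t ht
        have h5 : Red ([s'] ++ l') := g3
        have h6 := (red_append.1 h5).2.2 s' (by simp) t ht
        rw [e2] at h6
        cases h : t.isLeft
        · rw [h] at h6
          exact absurd rfl h6
        · rfl
      have g6 : ∀ t ∈ l'.getLast?, t.isLeft = false := by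
        intro t ht
        refine h2 t ?_
        cases l' with
        | nil => simp at ht
        | cons u l'' => simpa [List.getLast?_cons_cons] using ht
      obtain ⟨L, hL1, hL2⟩ := ih l' (by simp at hn; omega) g4 g5 g6
      have g7 : nt s' := g3.1 s' (by simp)
      cases s with
      | inr b => simp at e1
      | inl a =>
        cases s' with
        | inl a' => simp at e2
        | inr b =>
          refine ⟨(a, b) :: L, ?_, ?_⟩
          · intro p hp
            rcases List.mem_cons.1 hp with rfl | hp
            · exact ⟨g1, g7⟩
            · exact hL1 p hp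
          · rw [List.flatMap_cons, ← hL2]
            rfl

/-- a reduced word which starts in `A` and ends in `B` is a list of pairs -/
theorem pairs_of_red {l : List (A ⊕ B)} (hl : Red l) (h1 : ∀ s ∈ l.head?, s.isLeft = true)
    (h2 : ∀ s ∈ l.getLast?, s.isLeft = false) :
    ∃ L : List (A × B), (∀ p ∈ L, p.1 ≠ 1 ∧ p.2 ≠ 1) ∧
      l = L.flatMap (fun p => [Sum.inl p.1, Sum.inr p.2]) :=
  Fcyc_pairs l.length l le_rfl hl h1 h2

private theorem Fcyc_pv (L : List (A × B)) :
    val i j (L.flatMap (fun p => [Sum.inl p.1, Sum.inr p.2])) = pv i j L := by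
  induction L with
  | nil => simp [pv]
  | cons p L ih =>
    rw [List.flatMap_cons, val_append, ih]
    simp [pv, sv]

/-- what we want for `x` -/
private def FcycP (i : A →* Γ) (j : B →* Γ) (x : Γ) : Prop :=
  ∃ y : Γ, (∃ a, y * x * y⁻¹ = i a) ∨ (∃ b, y * x * y⁻¹ = j b) ∨
      ∃ L : List (A × B), PNt L ∧ y * x * y⁻¹ = pv i j L

private theorem Fcyc_conj {x z : Γ} (g : Γ) (hz : z = g⁻¹ * x * g) (h : FcycP i j z) :
    FcycP i j x := by
  obtain ⟨y, hy⟩ := h
  have e : y * z * y⁻¹ = (y * g⁻¹) * x * (y * g⁻¹)⁻¹ := by
    rw [hz]
    group
  rw [e] at hy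
  exact ⟨y * g⁻¹, hy⟩

private theorem Fcyc_direct {l : List (A ⊕ B)} (hl : Red l) (hne : l ≠ [])
    (h1 : ∀ s ∈ l.head?, s.isLeft = true) (h2 : ∀ s ∈ l.getLast?, s.isLeft = false) :
    FcycP i j (val i j l) := by
  obtain ⟨L, hL1, hL2⟩ := pairs_of_red hl h1 h2
  refine ⟨1, Or.inr (Or.inr ⟨L, ⟨?_, hL1⟩, ?_⟩)⟩
  · rintro rfl
    exact hne (by rw [hL2]; simp)
  · rw [one_mul, inv_one, mul_one, hL2, Fcyc_pv]

private theorem Fcyc_main (n : ℕ) : ∀ l : List (A ⊕ B), l.length = n → Red l →
    FcycP i j (val i j l) := by
  induction n using Nat.strong_induction_on with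
  | _ n ih =>
  intro l hn hl
  match l, hn, hl with
  | [], _, _ => exact ⟨1, Or.inl ⟨1, by simp⟩⟩
  | [s], _, _ =>
    cases s with
    | inl a => exact ⟨1, Or.inl ⟨a, by simp [sv]⟩⟩
    | inr b => exact ⟨1, Or.inr (Or.inl ⟨b, by simp [sv]⟩)⟩
  | s :: u :: l₀, hn, hl =>
    obtain ⟨l', t, hlt⟩ : ∃ l' t, u :: l₀ = l' ++ [t] :=
      ⟨(u :: l₀).dropLast, (u :: l₀).getLast (by simp), (List.dropLast_append_getLast _).symm⟩
    rw [hlt] at hl hn ⊢
    have hlen : l'.length + 2 = n := by
      simpa using hn
    have hred : Red (l' ++ [t]) := by
      have : Red ([s] ++ (l' ++ [t])) := hl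
      exact (red_append.1 this).2.1
    have hred' : Red l' := (red_append.1 hred).1
    have hs : nt s := hl.1 s (by simp)
    have ht : nt t := hl.1 t (by simp)
    have hhead : ∀ w ∈ (l' ++ [t]).head?, s.isLeft ≠ w.isLeft := by
      intro w hw
      have : Red ([s] ++ (l' ++ [t])) := hl
      exact (red_append.1 this).2.2 s (by simp) w hw
    have hlast : ∀ w ∈ l'.getLast?, w.isLeft ≠ t.isLeft := by
      intro w hw
      exact (red_append.1 hred).2.2 w hw t (by simp)
    have hval : val i j (s :: (l' ++ [t])) = sv i j s * (val i j l' * sv i j t) := by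
      rw [val_cons, val_append, val_cons, val_nil, mul_one]
    -- the same factor
    have hsame : ∀ r : A ⊕ B, r.isLeft = t.isLeft → sv i j r = sv i j t * sv i j s →
        FcycP i j (val i j (s :: (l' ++ [t]))) := by
      intro r hr1 hr2
      by_cases hr : nt r
      · refine Fcyc_conj (sv i j s) ?_ (ih (n - 1) (by omega) (l' ++ [r]) (by simp; omega) ?_)
        · rw [val_append, val_cons, val_nil, mul_one, hr2, hval]
          group
        · refine red_append.2 ⟨hred', red_single hr, ?_⟩
          intro w hw w' hw'
          simp only [List.head?_cons, Option.mem_def, Option.some.injEq] at hw'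
          rw [← hw', hr1]
          exact hlast w hw
      · refine Fcyc_conj (sv i j s) ?_ (ih (n - 2) (by omega) l' (by omega) hred')
        have h1 : sv i j r = 1 := by
          cases r with
          | inl a =>
            have : a = 1 := by
              by_contra h
              exact hr h
            rw [this]
            exact map_one i
          | inr b =>
            have : b = 1 := by
              by_contra h
              exact hr h
            rw [this]
            exact map_one j
        rw [h1] at hr2
        rw [hval]
        calc val i j l' = val i j l' * 1 := (mul_one _).symm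
          _ = val i j l' * (sv i j t * sv i j s) := by rw [hr2]
          _ = _ := by group
    cases s with
    | inl a =>
      cases t with
      | inl a' => exact hsame (Sum.inl (a' * a)) rfl (map_mul i a' a)
      | inr b =>
        refine Fcyc_direct hl (by simp) ?_ ?_
        · intro w hw
          simp only [List.head?_cons, Option.mem_def, Option.some.injEq] at hw
          rw [← hw]
          rfl
        · intro w hw
          have e : (Sum.inl a :: (l' ++ [Sum.inr b]) : List (A ⊕ B)) =
              (Sum.inl a :: l') ++ [Sum.inr b] := rfl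
          rw [e, List.getLast?_concat] at hw
          simp only [Option.mem_def, Option.some.injEq] at hw
          rw [← hw]
          rfl
    | inr b =>
      cases t with
      | inr b' => exact hsame (Sum.inr (b' * b)) rfl (map_mul j b' b)
      | inl a =>
        have hnew : Red ((l' ++ [Sum.inl a]) ++ [Sum.inr b]) := by
          refine red_append.2 ⟨hred, red_single hs, ?_⟩
          intro w hw w' hw'
          rw [List.getLast?_concat] at hw
          simp only [List.head?_cons, Option.mem_def, Option.some.injEq] at hw hw'
          rw [← hw, ← hw']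
          simp
        refine Fcyc_conj (sv i j (Sum.inr b)) ?_ (Fcyc_direct hnew (by simp) ?_ ?_)
        · rw [hval, val_append, val_append, val_cons, val_nil, mul_one, val_cons, val_nil, mul_one]
          group
        · intro w hw
          have h1 : w ∈ (l' ++ [Sum.inl a]).head? := by
            cases l' with
            | nil => simpa using hw
            | cons c l'' => simpa using hw
          have h2 := hhead w h1
          cases w with
          | inl c => rfl
          | inr c => exact absurd rfl h2
        · intro w hw
          rw [List.getLast?_concat] at hw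
          simp only [Option.mem_def, Option.some.injEq] at hw
          rw [← hw]
          rfl

/-- AG-CYC -/
theorem FreeProd.exists_cyc (h : FreeProd i j) (x : Γ) :
    ∃ y : Γ, (∃ a, y * x * y⁻¹ = i a) ∨ (∃ b, y * x * y⁻¹ = j b) ∨
      ∃ L : List (A × B), PNt L ∧ y * x * y⁻¹ = pv i j L := by
  obtain ⟨l, hl, rfl⟩ := h.ex x
  exact Fcyc_main l.length l rfl hl

end Pool.Agent.Helper7.AG
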