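import Pool.Agent.Helper7.AG.FP

/-!
# Project AG, piece AG-ROT: conjugate cyclically reduced elements are rotations of each other

Proof of `rotate`.  `pv i j L = val (words L)` with the reduced word
`words L = L.flatMap (fun p => [inl p.1, inr p.2])`, which starts in `A` and ends in `B`; so `pv` is
injective on such lists (`uniq`).  Let `l` be the reduced word of `y`; strong induction on
`l.length`, for all `L`.
* `l = []`: `pv L = pv L'`, so `L = L'`.
* `l = l₁ ++ [inr b]`, `L = L₀ ++ [(a, b')]`: `(j b) * pv L * (j b)⁻¹` is the value of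
  `inr b :: words L₀ ++ [inl a, inr (b' b⁻¹)]` (reduced if `b ≠ b'`) or of
  `inr b :: words L₀ ++ [inl a]` (if `b = b'`).  If `b ≠ b'`, then, as `l₁` is empty or ends in
  `A`, the word `l₁ ++ inr b :: ⋯ ++ winv l₁` is reduced and its first and last syllables are in
  the same factor: it is not `words L'`.  If `b = b'`: `l₁ = []` is impossible (first syllable in
  `B`); `l₁ = l₂ ++ [inl a₂]`: if `a₂ ≠ a`, the same contradiction (the word
  `l₂ ++ inl a₂ :: inr b :: words L₀ ++ [inl (a a₂⁻¹)] ++ winv l₂`); if `a₂ = a` then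
  `y * pv L * y⁻¹ = val l₂ * pv ((a,b) :: L₀) * (val l₂)⁻¹`: induction, with the rotated list.
* `l = l₁ ++ [inl a]`, `L = (a', b') :: L₀`: the same with the front: `a a' ≠ 1` gives a
  contradiction; `a a' = 1`: `l₁` is not empty, `l₁ = l₂ ++ [inr b]`, `b b' = 1`, and
  `y * pv L * y⁻¹ = val l₂ * pv (L₀ ++ [(a', b')]) * (val l₂)⁻¹`.
-/

namespace Pool.Agent.Helper7.AG

variable {A B Γ : Type*} [Group A] [Group B] [Group Γ] {i : A →* Γ} {j : B →* Γ}

/-- the word of a list of pairs -/
def words (L : List (A × B)) : List (A ⊕ B) := L.flatMap (fun p => [Sum.inl p.1, Sum.inr p.2])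

theorem val_words (L : List (A × B)) : val i j (words L) = pv i j L := by
  induction L with
  | nil => rfl
  | cons p L ih =>
    have : words (p :: L) = Sum.inl p.1 :: Sum.inr p.2 :: words L := rfl
    rw [this, val_cons, val_cons, ih]
    simp [pv, sv, mul_assoc]

theorem red_words {L : List (A × B)} (hL : ∀ p ∈ L, p.1 ≠ 1 ∧ p.2 ≠ 1) : Red (words L) := by
  induction L with
  | nil => exact red_nil
  | cons p L ih =>
    have h1 := ih (fun q hq => hL q (List.mem_cons_of_mem _ hq))
    have h2 := hL p List.mem_cons_self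
    have e : words (p :: L) = Sum.inl p.1 :: Sum.inr p.2 :: words L := rfl
    rw [e, red_cons_cons]
    refine ⟨h2.1, by simp, ?_⟩
    cases L with
    | nil => exact red_single h2.2
    | cons q L =>
      have e' : words (q :: L) = Sum.inl q.1 :: Sum.inr q.2 :: words L := rfl
      rw [e'] at h1 ⊢
      rw [red_cons_cons]
      exact ⟨h2.2, by simp, h1⟩

/-- two syllables of the same factor cancel or merge -/
private lemma Frot_mul (s t : A ⊕ B) (h : s.isLeft = t.isLeft) :
    t = sinv s ∨ ∃ r : A ⊕ B, nt r ∧ r.isLeft = s.isLeft ∧ sv i j r = sv i j s * sv i j t := by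
  rcases s with a | b <;> rcases t with a' | b'
  · by_cases h1 : a * a' = 1
    · left
      rw [eq_comm, sinv, Sum.inl.injEq]
      exact inv_eq_of_mul_eq_one_right h1
    · exact Or.inr ⟨Sum.inl (a * a'), h1, rfl, map_mul i a a'⟩
  · simp at h
  · simp at h
  · by_cases h1 : b * b' = 1
    · left
      rw [eq_comm, sinv, Sum.inr.injEq]
      exact inv_eq_of_mul_eq_one_right h1
    · exact Or.inr ⟨Sum.inr (b * b'), h1, rfl, map_mul j b b'⟩

private lemma Frot_sinv (s : A ⊕ B) : sinv (sinv s) = s := by
  rcases s with a | b <;> simp [sinv]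

private lemma Frot_winv (l : List (A ⊕ B)) : winv (winv l) = l := by
  unfold winv
  rw [List.map_reverse, List.reverse_reverse, List.map_map]
  have : (sinv ∘ sinv : A ⊕ B → A ⊕ B) = id := by
    funext s
    exact Frot_sinv s
  rw [this, List.map_id]

/-- cyclically reduced words -/
private def Frot_cyc (u : List (A ⊕ B)) : Prop :=
  Red u ∧ ∃ (s t : A ⊕ B) (m : List (A ⊕ B)), u = s :: (m ++ [t]) ∧ s.isLeft ≠ t.isLeft

private lemma Frot_cyc_winv {u : List (A ⊕ B)} (h : Frot_cyc u) : Frot_cyc (winv u) := by
  obtain ⟨h1, s, t, m, rfl, h2⟩ := h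
  refine ⟨red_winv h1, sinv t, sinv s, winv m, ?_, ?_⟩
  · simp [winv]
  · rw [sinv_isLeft, sinv_isLeft]
    exact h2.symm

private lemma Frot_red_cons {s : A ⊕ B} {l : List (A ⊕ B)} :
    Red (s :: l) ↔ nt s ∧ Red l ∧ ∀ s' ∈ l.head?, s.isLeft ≠ s'.isLeft := by
  have h := red_append (l := [s]) (l' := l)
  rw [List.singleton_append] at h
  rw [h]
  constructor
  · rintro ⟨h1, h2, h3⟩
    exact ⟨h1.1 s (List.mem_singleton_self s), h2, fun s' hs' => h3 s (by simp) s' hs'⟩
  · rintro ⟨h1, h2, h3⟩
    refine ⟨red_single h1, h2, fun a ha s' hs' => ?_⟩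
    simp only [List.getLast?_singleton, Option.mem_def, Option.some.injEq] at ha
    subst ha
    exact h3 s' hs'

private lemma Frot_gl (a b : A ⊕ B) (l : List (A ⊕ B)) : (a :: (l ++ [b])).getLast? = some b := by
  rw [← List.cons_append, List.getLast?_append]
  simp

/-- the first and the last syllable of a conjugated word are in the same factor -/
private lemma Frot_ends {a b : A ⊕ B} (hab : a.isLeft = b.isLeft) (l₁ m : List (A ⊕ B))
    (hc : Frot_cyc (l₁ ++ (a :: (m ++ [b])) ++ winv l₁)) : False := by
  obtain ⟨-, s, t, m', h1, h2⟩ := hc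
  have hh := congrArg List.head? h1
  have hl := congrArg List.getLast? h1
  rw [Frot_gl] at hl
  apply h2
  cases l₁ with
  | nil =>
    have e0 : ([] : List (A ⊕ B)) ++ (a :: (m ++ [b])) ++ winv [] = a :: (m ++ [b]) := by
      simp [winv]
    rw [e0] at hh hl
    rw [Frot_gl] at hl
    simp only [List.head?_cons, Option.some.injEq] at hh hl
    rw [← hh, ← hl, hab]
  | cons x l₁ =>
    have e1 : x :: l₁ ++ (a :: (m ++ [b])) ++ winv (x :: l₁) =
        x :: ((l₁ ++ (a :: (m ++ [b])) ++ winv l₁) ++ [sinv x]) := by simp [winv]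
    rw [e1] at hh hl
    rw [Frot_gl] at hl
    simp only [List.head?_cons, Option.some.injEq] at hh hl
    rw [← hh, ← hl, sinv_isLeft]

/-- one step at the front -/
private lemma Frot_step (h : FreeProd i j) {l₁ : List (A ⊕ B)} {s : A ⊕ B}
    (IH : ∀ u u' : List (A ⊕ B), Frot_cyc u → Frot_cyc u' →
      val i j l₁ * val i j u * (val i j l₁)⁻¹ = val i j u' → u.IsRotated u')
    (hl : Red (l₁ ++ [s])) {t t' : A ⊕ B} {m : List (A ⊕ B)} {u' : List (A ⊕ B)}
    (hu : Red (t :: (m ++ [t']))) (htt : t.isLeft ≠ t'.isLeft) (hu' : Frot_cyc u')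
    (hst : s.isLeft = t.isLeft)
    (hv : val i j (l₁ ++ [s]) * val i j (t :: (m ++ [t'])) * (val i j (l₁ ++ [s]))⁻¹ =
      val i j u') : (t :: (m ++ [t'])).IsRotated u' := by
  obtain ⟨hl1, hl2, hl3⟩ := red_append.1 hl
  obtain ⟨hu1, hu2, hu3⟩ := Frot_red_cons.1 hu
  have hs : nt s := hl2.1 s (List.mem_singleton_self s)
  rcases Frot_mul (i := i) (j := j) s t hst with h1 | ⟨r, hr1, hr2, hr3⟩
  · -- cancellation: a rotation
    have hrot : (t :: (m ++ [t'])).IsRotated (m ++ [t'] ++ [t]) := ⟨1, by simp⟩
    refine hrot.trans (IH _ _ ⟨?_, ?_⟩ hu' ?_)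
    · refine red_append.2 ⟨hu2, red_single hu1, fun x hx y hy => ?_⟩
      simp at hx hy
      rw [← hx, ← hy]
      exact htt.symm
    · cases m with
      | nil => exact ⟨t', t, [], rfl, htt.symm⟩
      | cons x m =>
        refine ⟨x, t, m ++ [t'], by simp, ?_⟩
        exact (hu3 x (by simp)).symm
    · rw [← hv]
      have e1 : sv i j t = (sv i j s)⁻¹ := by rw [h1, sv_sinv]
      simp only [val_append, val_cons, val_nil, mul_one, e1]
      group
  · -- merging: impossible
    exfalso
    have e2 : l₁ ++ (r :: ((m ++ [t']) ++ [sinv s])) ++ winv l₁ = u' := by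
      refine h.uniq _ _ ?_ hu'.1 ?_
      · rw [List.append_assoc]
        refine red_append.2 ⟨hl1, ?_, fun x hx y hy => ?_⟩
        · rw [List.cons_append, Frot_red_cons]
          refine ⟨hr1, ?_, fun y hy => ?_⟩
          · rw [List.append_assoc]
            refine red_append.2 ⟨hu2, ?_, fun x hx y hy => ?_⟩
            · refine red_append.2 ⟨red_single (nt_sinv hs), red_winv hl1, fun x hx y hy => ?_⟩
              rw [head_winv, Option.mem_def, Option.map_eq_some_iff] at hy
              obtain ⟨z, hz, rfl⟩ := hy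
              simp at hx
              rw [← hx, sinv_isLeft, sinv_isLeft]
              exact (hl3 z hz s (by simp)).symm
            · simp at hx hy
              rw [← hx, ← hy, sinv_isLeft, hst]
              exact htt.symm
          · rw [hr2, hst]
            refine hu3 y ?_
            cases m with
            | nil => simpa using hy
            | cons x m => simpa using hy
        · simp at hy
          rw [← hy, hr2]
          exact hl3 x hx s (by simp)
      · rw [← hv]
        simp only [val_append, val_cons, val_nil, mul_one, val_winv, sv_sinv, hr3]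
        group
    rw [← e2] at hu'
    refine Frot_ends ?_ l₁ (m ++ [t']) hu'
    rw [sinv_isLeft, hr2]

private lemma Frot_main (h : FreeProd i j) : ∀ (n : ℕ) (l : List (A ⊕ B)), l.length = n → Red l →
    ∀ u u' : List (A ⊕ B), Frot_cyc u → Frot_cyc u' →
      val i j l * val i j u * (val i j l)⁻¹ = val i j u' → u.IsRotated u' := by
  intro n
  induction n with
  | zero =>
    intro l hl _ u u' hu hu' hv
    rw [List.length_eq_zero_iff] at hl
    subst hl
    rw [val_nil, one_mul, inv_one, mul_one] at hv
    rw [h.uniq _ _ hu.1 hu'.1 hv]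
  | succ n ih =>
    intro l hl hr u u' hu hu' hv
    rcases List.eq_nil_or_concat l with rfl | ⟨l₁, s, rfl⟩
    · simp at hl
    rw [List.concat_eq_append] at hl hr hv
    rw [List.length_append, List.length_singleton, Nat.add_right_cancel_iff] at hl
    have IH := ih l₁ hl (red_append.1 hr).1
    obtain ⟨hu1, t, t', m, rfl, htt⟩ := hu
    by_cases hst : s.isLeft = t.isLeft
    · exact Frot_step h IH hr hu1 htt hu' hst hv
    · have hst' : s.isLeft = (sinv t').isLeft := by
        rw [sinv_isLeft]
        revert hst htt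
        cases s.isLeft <;> cases t.isLeft <;> cases t'.isLeft <;> simp
      have e1 : winv (t :: (m ++ [t'])) = sinv t' :: (winv m ++ [sinv t]) := by simp [winv]
      have h2 := Frot_step (u' := winv u') (t := sinv t') (t' := sinv t) (m := winv m) h IH hr
        (by rw [← e1]; exact red_winv hu1)
        (by rw [sinv_isLeft, sinv_isLeft]; exact htt.symm) (Frot_cyc_winv hu') hst'
        (by
          rw [← e1, val_winv, val_winv, ← hv]
          group)
      rw [← e1] at h2
      have h3 : (winv (winv (t :: (m ++ [t'])))).IsRotated (winv (winv u')) :=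
        (h2.map sinv).reverse
      rw [Frot_winv, Frot_winv] at h3
      exact h3

private lemma Frot_words_append (L M : List (A × B)) : words (L ++ M) = words L ++ words M := by
  unfold words
  rw [List.flatMap_append]

private lemma Frot_words_inj : ∀ L L' : List (A × B), words L = words L' → L = L' := by
  intro L
  induction L with
  | nil =>
    intro L' h
    cases L' with
    | nil => rfl
    | cons p L' => simp [words] at h
  | cons p L ih =>
    intro L' h
    cases L' with
    | nil => simp [words] at h
    | cons p' L' =>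
      have e : ∀ (p : A × B) (L : List (A × B)),
        words (p :: L) = Sum.inl p.1 :: Sum.inr p.2 :: words L := fun _ _ => rfl
      rw [e, e] at h
      simp only [List.cons.injEq, Sum.inl.injEq, Sum.inr.injEq] at h
      obtain ⟨h1, h2, h3⟩ := h
      rw [ih _ h3, Prod.ext h1 h2]

private lemma Frot_words_rotate : ∀ (k : ℕ) (L L' : List (A × B)), L ≠ [] → L' ≠ [] →
    (words L).rotate k = words L' → ∃ n, L' = L.rotate n
  | 0, L, L', _, _, h => ⟨0, by
      rw [List.rotate_zero] at h
      rw [List.rotate_zero]
      exact (Frot_words_inj _ _ h).symm⟩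
  | 1, L, L', hL, hL', h => by
      exfalso
      cases L with
      | nil => exact hL rfl
      | cons p L =>
        cases L' with
        | nil => exact hL' rfl
        | cons p' L' =>
          have e : ∀ (p : A × B) (L : List (A × B)),
            words (p :: L) = Sum.inl p.1 :: Sum.inr p.2 :: words L := fun _ _ => rfl
          rw [e, e] at h
          simp at h
  | k + 2, L, L', hL, hL', h => by
      cases L with
      | nil => exact absurd rfl hL
      | cons p L =>
        have e : ∀ (p : A × B) (L : List (A × B)),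
          words (p :: L) = Sum.inl p.1 :: Sum.inr p.2 :: words L := fun _ _ => rfl
        have h1 : (words (L ++ [p])).rotate k = words L' := by
          rw [← h, e, List.rotate_cons_succ, List.cons_append, List.rotate_cons_succ,
            Frot_words_append]
          congr 1
          simp [words]
        obtain ⟨n, hn⟩ := Frot_words_rotate k (L ++ [p]) L' (by simp) hL' h1
        refine ⟨n + 1, ?_⟩
        rw [hn, List.rotate_cons_succ]

private lemma Frot_cyc_words {L : List (A × B)} (hL : PNt L) : Frot_cyc (words L) := by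
  refine ⟨red_words hL.2, ?_⟩
  obtain ⟨hL1, -⟩ := hL
  cases L with
  | nil => exact absurd rfl hL1
  | cons p L =>
    rcases List.eq_nil_or_concat L with rfl | ⟨L₁, q, rfl⟩
    · exact ⟨Sum.inl p.1, Sum.inr p.2, [], rfl, by simp⟩
    · rw [List.concat_eq_append]
      refine ⟨Sum.inl p.1, Sum.inr q.2, Sum.inr p.2 :: (words L₁ ++ [Sum.inl q.1]), ?_, by simp⟩
      have e : words (p :: (L₁ ++ [q])) = Sum.inl p.1 :: Sum.inr p.2 :: words (L₁ ++ [q]) := rfl
      rw [e, Frot_words_append]
      simp [words]

/-- AG-ROT -/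
theorem FreeProd.rotate (h : FreeProd i j) {L L' : List (A × B)} (hL : PNt L) (hL' : PNt L')
    {y : Γ} (hy : y * pv i j L * y⁻¹ = pv i j L') : ∃ n, L' = L.rotate n := by
  obtain ⟨l, hl, rfl⟩ := h.ex y
  rw [← val_words, ← val_words] at hy
  obtain ⟨k, hk⟩ := Frot_main h l.length l rfl hl _ _ (Frot_cyc_words hL) (Frot_cyc_words hL') hy
  exact Frot_words_rotate k L L' hL.1 hL'.1 hk

end Pool.Agent.Helper7.AG
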