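import Pool.Agent.Helper7.AG.FP

/-!
# Project AG, piece AG-SUM: a free group on a disjoint union is a free product

Proof.  Mathlib has normal forms for `Monoid.CoprodI M` (`Monoid.CoprodI.Word.equiv`,
`Word.prod`, `Word.prod_...`).  Let `M : Bool → Type`, `M true = FreeGroup α`,
`M false = FreeGroup β` (write the family with `Bool.rec`/`match` and give the group instances by
`match`), and translate `Σ b, M b` to `FreeGroup α ⊕ FreeGroup β`; a list of syllables is a `Word`
exactly if it is `Red`.  The isomorphism `CoprodI M ≃* FreeGroup (α ⊕ β)` is given by the two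
universal properties (`FreeGroup.lift`, `Monoid.CoprodI.lift`), inverse to each other on
generators.  (Any other proof is as good, e.g. directly with `FreeGroup.reduce`.)
-/

namespace Pool.Agent.Helper7.AG

open Monoid

set_option linter.unusedSectionVars false

private def FsM (A B : Type) : Bool → Type
  | true => A
  | false => B

private instance FsG (A B : Type) [Group A] [Group B] : ∀ b, Group (FsM A B b)
  | true => inferInstanceAs (Group A)
  | false => inferInstanceAs (Group B)

section
variable {A B : Type} [Group A] [Group B]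

private def Fst : (Σ b, FsM A B b) → A ⊕ B
  | ⟨true, a⟩ => .inl a
  | ⟨false, b⟩ => .inr b

private def Fst' : A ⊕ B → (Σ b, FsM A B b)
  | .inl a => ⟨true, a⟩
  | .inr b => ⟨false, b⟩

private def FsI : A →* CoprodI (FsM A B) := CoprodI.of (M := FsM A B) (i := true)
private def FsJ : B →* CoprodI (FsM A B) := CoprodI.of (M := FsM A B) (i := false)

private theorem Fst'_Fst (p : Σ b, FsM A B b) : Fst' (Fst p) = p := by
  rcases p with ⟨_ | _, a⟩ <;> rfl

private theorem Fst_Fst' (p : A ⊕ B) : Fst (Fst' p) = p := by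
  rcases p with a | b <;> rfl

private theorem Fst_nt (p : Σ b, FsM A B b) : nt (Fst p) ↔ p.2 ≠ 1 := by
  rcases p with ⟨_ | _, a⟩ <;> rfl

private theorem Fst_left (p : Σ b, FsM A B b) : (Fst p).isLeft = p.1 := by
  rcases p with ⟨_ | _, a⟩ <;> rfl

private theorem Fst_val (l : List (Σ b, FsM A B b)) :
    val (FsI (A := A) (B := B)) FsJ (l.map Fst) =
      (l.map fun p => CoprodI.of p.2).prod := by
  induction l with
  | nil => rfl
  | cons p l ih =>
    rw [List.map_cons, val_cons, ih, List.map_cons, List.prod_cons]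
    rcases p with ⟨_ | _, a⟩ <;> rfl

private theorem Fs_red (l : List (Σ b, FsM A B b)) :
    Red (l.map Fst) ↔ (∀ p ∈ l, Sigma.snd p ≠ 1) ∧ l.IsChain fun p q => Sigma.fst p ≠ Sigma.fst q := by
  unfold Red
  rw [List.isChain_map]
  simp only [List.mem_map, forall_exists_index, and_imp, forall_apply_eq_imp_iff₂, Fst_nt,
    Fst_left]

private theorem Fs_freeProd : FreeProd (FsI (A := A) (B := B)) FsJ := by
  classical
  refine ⟨fun x => ?_, fun l l' h1 h2 h3 => ?_⟩
  · set w := CoprodI.Word.equiv x with hw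
    refine ⟨w.toList.map Fst, (Fs_red _).2 ⟨fun p hp => w.ne_one p hp, w.chain_ne⟩, ?_⟩
    rw [Fst_val]
    exact CoprodI.Word.equiv.symm_apply_apply x
  · have e : ∀ l : List (A ⊕ B), (l.map Fst').map Fst = l := by
      intro l
      rw [List.map_map]
      conv_rhs => rw [← List.map_id l]
      exact List.map_congr_left fun p _ => Fst_Fst' p
    rw [← e l, Fs_red] at h1
    rw [← e l', Fs_red] at h2
    rw [← e l, ← e l', Fst_val, Fst_val] at h3
    set w : CoprodI.Word (FsM A B) := ⟨l.map Fst', h1.1, h1.2⟩ with hw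
    set w' : CoprodI.Word (FsM A B) := ⟨l'.map Fst', h2.1, h2.2⟩ with hw'
    have h4 : w = w' := CoprodI.Word.equiv.symm.injective h3
    have h5 : l.map Fst' = l'.map Fst' := congrArg CoprodI.Word.toList h4
    rw [← e l, ← e l', h5]

end

section
variable (α β : Type)

private def FsF : CoprodI (FsM (FreeGroup α) (FreeGroup β)) →* FreeGroup (α ⊕ β) :=
  CoprodI.lift fun b => match b with
    | true => FreeGroup.map Sum.inl
    | false => FreeGroup.map Sum.inr

private def FsK : FreeGroup (α ⊕ β) →* CoprodI (FsM (FreeGroup α) (FreeGroup β)) :=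
  FreeGroup.lift (Sum.elim (fun a => FsI (FreeGroup.of a)) (fun b => FsJ (FreeGroup.of b)))

private theorem FsF_I (a : FreeGroup α) : FsF α β (FsI a) = FreeGroup.map Sum.inl a :=
  CoprodI.lift_of (i := true) _ _

private theorem FsF_J (b : FreeGroup β) : FsF α β (FsJ b) = FreeGroup.map Sum.inr b :=
  CoprodI.lift_of (i := false) _ _

private theorem FsK_F : (FsK α β).comp (FsF α β) = MonoidHom.id _ := by
  refine CoprodI.ext_hom _ _ fun b => ?_
  rcases b with _ | _
  · refine FreeGroup.ext_hom _ _ fun b => ?_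
    change FsK α β (FsF α β (FsJ (FreeGroup.of b))) = FsJ (FreeGroup.of b)
    rw [FsF_J, FreeGroup.map.of, FsK, FreeGroup.lift_apply_of, Sum.elim_inr]
  · refine FreeGroup.ext_hom _ _ fun a => ?_
    change FsK α β (FsF α β (FsI (FreeGroup.of a))) = FsI (FreeGroup.of a)
    rw [FsF_I, FreeGroup.map.of, FsK, FreeGroup.lift_apply_of, Sum.elim_inl]

private theorem FsF_K : (FsF α β).comp (FsK α β) = MonoidHom.id _ := by
  refine FreeGroup.ext_hom _ _ fun b => ?_
  rcases b with a | b
  · rw [MonoidHom.comp_apply, FsK, FreeGroup.lift_apply_of, Sum.elim_inl, FsF_I, FreeGroup.map.of]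
    rfl
  · rw [MonoidHom.comp_apply, FsK, FreeGroup.lift_apply_of, Sum.elim_inr, FsF_J, FreeGroup.map.of]
    rfl

private def FsE : CoprodI (FsM (FreeGroup α) (FreeGroup β)) ≃* FreeGroup (α ⊕ β) :=
  MonoidHom.toMulEquiv (FsF α β) (FsK α β) (FsK_F α β) (FsF_K α β)

end

/-- AG-SUM -/
theorem freeProd_sum (α β : Type) :
    FreeProd (FreeGroup.map (Sum.inl : α → α ⊕ β)) (FreeGroup.map (Sum.inr : β → α ⊕ β)) := by
  have h := (Fs_freeProd (A := FreeGroup α) (B := FreeGroup β)).equiv (FsE α β)
  have h1 : (FsE α β).toMonoidHom.comp FsI = FreeGroup.map (Sum.inl : α → α ⊕ β) :=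
    MonoidHom.ext fun a => FsF_I α β a
  have h2 : (FsE α β).toMonoidHom.comp FsJ = FreeGroup.map (Sum.inr : β → α ⊕ β) :=
    MonoidHom.ext fun a => FsF_J α β a
  rwa [h1, h2] at h

end Pool.Agent.Helper7.AG
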