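import Mathlib

/-!
# Project AG (MP_2ec7a7_al): free products by normal forms, definitions

`FreeProd i j`: the group `Γ` is the (internal) free product of `A` and `B`, with the embeddings
`i : A →* Γ`, `j : B →* Γ`: every element has exactly one reduced word.
-/

namespace Pool.Agent.Helper7.AG

/-- a syllable is nontrivial -/
def nt {A B : Type*} [One A] [One B] : A ⊕ B → Prop
  | .inl a => a ≠ 1
  | .inr b => b ≠ 1

/-- reduced words: nontrivial syllables, alternately from `A` and from `B` -/
def Red {A B : Type*} [One A] [One B] (l : List (A ⊕ B)) : Prop :=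
  (∀ s ∈ l, nt s) ∧ l.IsChain (fun s s' => s.isLeft ≠ s'.isLeft)

section
variable {A B Γ : Type*} [Group A] [Group B] [Group Γ]

/-- the value of a syllable -/
def sv (i : A →* Γ) (j : B →* Γ) : A ⊕ B → Γ
  | .inl a => i a
  | .inr b => j b

/-- the value of a word -/
def val (i : A →* Γ) (j : B →* Γ) (l : List (A ⊕ B)) : Γ := (l.map (sv i j)).prod

/-- `Γ` is the free product of `A` and `B` -/
structure FreeProd (i : A →* Γ) (j : B →* Γ) : Prop where
  ex : ∀ x : Γ, ∃ l, Red l ∧ val i j l = x
  uniq : ∀ l l' : List (A ⊕ B), Red l → Red l' → val i j l = val i j l' → l = l'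

/-- the value of a list of pairs -/
def pv (i : A →* Γ) (j : B →* Γ) (L : List (A × B)) : Γ := (L.map (fun p => i p.1 * j p.2)).prod

/-- lists of pairs with nontrivial entries, not empty -/
def PNt (L : List (A × B)) : Prop := L ≠ [] ∧ ∀ p ∈ L, p.1 ≠ 1 ∧ p.2 ≠ 1

variable {i : A →* Γ} {j : B →* Γ}

@[simp] lemma val_nil : val i j [] = 1 := rfl

@[simp] lemma val_cons (s : A ⊕ B) (l : List (A ⊕ B)) : val i j (s :: l) = sv i j s * val i j l := by
  simp [val]

@[simp] lemma val_append (l l' : List (A ⊕ B)) :
    val i j (l ++ l') = val i j l * val i j l' := by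
  simp [val]

lemma red_nil : Red ([] : List (A ⊕ B)) := ⟨by simp, by simp⟩

lemma red_single {s : A ⊕ B} (h : nt s) : Red [s] := ⟨by simpa using h, by simp⟩

lemma red_cons_cons {s s' : A ⊕ B} {l : List (A ⊕ B)} :
    Red (s :: s' :: l) ↔ nt s ∧ s.isLeft ≠ s'.isLeft ∧ Red (s' :: l) := by
  unfold Red
  rw [List.isChain_cons_cons]
  simp only [List.mem_cons, forall_eq_or_imp]
  tauto

lemma red_append {l l' : List (A ⊕ B)} :
    Red (l ++ l') ↔ Red l ∧ Red l' ∧
      ∀ s ∈ l.getLast?, ∀ s' ∈ l'.head?, s.isLeft ≠ s'.isLeft := by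
  unfold Red
  rw [List.isChain_append]
  simp only [List.mem_append]
  constructor
  · rintro ⟨h1, h2, h3, h4⟩
    exact ⟨⟨fun s hs => h1 s (Or.inl hs), h2⟩, ⟨fun s hs => h1 s (Or.inr hs), h3⟩, h4⟩
  · rintro ⟨⟨h1, h2⟩, ⟨h3, h4⟩, h5⟩
    exact ⟨fun s hs => hs.elim (h1 s) (h3 s), h2, h4, h5⟩

/-- the inverse syllable -/
def sinv : A ⊕ B → A ⊕ B
  | .inl a => .inl a⁻¹
  | .inr b => .inr b⁻¹

@[simp] lemma sinv_isLeft (s : A ⊕ B) : (sinv s).isLeft = s.isLeft := by cases s <;> rfl

@[simp] lemma sv_sinv (s : A ⊕ B) : sv i j (sinv s) = (sv i j s)⁻¹ := by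
  cases s <;> simp [sv, sinv]

lemma nt_sinv {s : A ⊕ B} (h : nt s) : nt (sinv s) := by
  cases s <;> simpa [nt, sinv] using h

/-- the inverse word -/
def winv (l : List (A ⊕ B)) : List (A ⊕ B) := (l.map sinv).reverse

@[simp] lemma val_winv (l : List (A ⊕ B)) : val i j (winv l) = (val i j l)⁻¹ := by
  induction l with
  | nil => simp [winv]
  | cons s l ih =>
    have : winv (s :: l) = winv l ++ [sinv s] := by simp [winv]
    rw [this, val_append, ih]
    simp

lemma red_winv {l : List (A ⊕ B)} (h : Red l) : Red (winv l) := by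
  refine ⟨?_, ?_⟩
  · intro s hs
    simp only [winv, List.mem_reverse, List.mem_map] at hs
    obtain ⟨s', h1, rfl⟩ := hs
    exact nt_sinv (h.1 _ h1)
  · unfold winv
    rw [List.isChain_reverse, List.isChain_map]
    refine h.2.imp ?_
    intro s s' h1
    simpa [eq_comm] using h1.symm

/-- the first and the last syllable of the inverse word -/
lemma head_winv (l : List (A ⊕ B)) : (winv l).head? = l.getLast?.map sinv := by
  unfold winv
  rw [List.head?_reverse, List.getLast?_map]

lemma last_winv (l : List (A ⊕ B)) : (winv l).getLast? = l.head?.map sinv := by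
  unfold winv
  rw [List.getLast?_reverse, List.head?_map]

end

section
variable {A B Γ Γ' : Type*} [Group A] [Group B] [Group Γ] [Group Γ'] {i : A →* Γ} {j : B →* Γ}

lemma FreeProd.inj_left (h : FreeProd i j) : Function.Injective i := by
  rw [injective_iff_map_eq_one]
  intro a ha
  by_contra hn
  have h1 := h.uniq [.inl a] [] (red_single hn) red_nil (by simp [sv, ha])
  simp at h1

lemma FreeProd.inj_right (h : FreeProd i j) : Function.Injective j := by
  rw [injective_iff_map_eq_one]
  intro b hb
  by_contra hn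
  have h1 := h.uniq [.inr b] [] (red_single hn) red_nil (by simp [sv, hb])
  simp at h1

/-- the free product, transported by an isomorphism -/
lemma FreeProd.equiv (h : FreeProd i j) (e : Γ ≃* Γ') :
    FreeProd (e.toMonoidHom.comp i) (e.toMonoidHom.comp j) := by
  have hv : ∀ l, val (e.toMonoidHom.comp i) (e.toMonoidHom.comp j) l = e (val i j l) := by
    intro l
    induction l with
    | nil => simp
    | cons s l ih =>
      rw [val_cons, val_cons, map_mul, ih]
      cases s <;> rfl
  refine ⟨fun x => ?_, fun l l' h1 h2 h3 => ?_⟩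
  · obtain ⟨l, h1, h2⟩ := h.ex (e.symm x)
    exact ⟨l, h1, by rw [hv, h2]; simp⟩
  · rw [hv, hv] at h3
    exact h.uniq l l' h1 h2 (e.injective h3)

/-- exchange of the factors -/
lemma FreeProd.symm (h : FreeProd i j) : FreeProd j i := by
  have hs : ∀ s : A ⊕ B, nt s.swap ↔ nt s := by intro s; cases s <;> rfl
  have hr : ∀ l : List (A ⊕ B), Red (l.map Sum.swap) ↔ Red l := by
    intro l
    unfold Red
    rw [List.isChain_map]
    simp only [List.mem_map, forall_exists_index, and_imp, forall_apply_eq_imp_iff₂, hs]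
    refine and_congr_right (fun _ => ?_)
    constructor
    · intro h1
      refine h1.imp ?_
      intro s s' h2
      cases s <;> cases s' <;> simp_all
    · intro h1
      refine h1.imp ?_
      intro s s' h2
      cases s <;> cases s' <;> simp_all
  have hv : ∀ l : List (A ⊕ B), val j i (l.map Sum.swap) = val i j l := by
    intro l
    induction l with
    | nil => rfl
    | cons s l ih =>
      rw [List.map_cons, val_cons, val_cons, ih]
      cases s <;> rfl
  refine ⟨fun x => ?_, fun l l' h1 h2 h3 => ?_⟩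
  · obtain ⟨l, h1, h2⟩ := h.ex x
    exact ⟨l.map Sum.swap, (hr l).mpr h1, by rw [hv, h2]⟩
  · have e : ∀ l : List (B ⊕ A), l = (l.map Sum.swap).map Sum.swap := by
      intro l; simp
    have h4 := h.uniq (l.map Sum.swap) (l'.map Sum.swap) ?_ ?_ ?_
    · have := congrArg (List.map Sum.swap) h4
      rwa [← e, ← e] at this
    · rw [e l, hr] at h1; exact h1
    · rw [e l', hr] at h2; exact h2
    · rw [e l, e l', hv, hv] at h3; exact h3

end

end Pool.Agent.Helper7.AG
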