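import Pool.Agent.Helper7.AG.Sl0

/-!
# Project AG, piece AG-TR: the relations of `GA` in `SL(2, ℤ)`, traces

Proof.  Everything follows from: (1) Cayley-Hamilton `X² = tr X • X - 1`; (2) if `X : SL` is not
`±1` (not scalar) and `Y`, `Y'` commute with `X` then `Y` commutes with `Y'`; more precisely
`Y = u X + v` with rational `u`, `v`.  (`-1` below is the matrix `-1`, `Neg SL` exists in Mathlib.)

Let `A B ≠ B A`.  Then `A`, `B` are not scalar.
* `(A B)³ = (A B A)²` commutes with `A` and `B` (braid relation), so it is scalar (otherwise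
  `A B = B A` by (2)).  `X := A B` is not scalar (otherwise `B = ± A⁻¹` commutes with `A`);
  `X³ = (t² - 1) X - t`, `t = tr X`, scalar: `t² = 1`.  `Y := A B A` satisfies `Y² = X³ = ±1`;
  `Y² = 1` gives `tr Y • Y = 2`, `Y` scalar, `B = ± A⁻²`, commutes with `A`; so `Y² = -1`,
  `tr Y = 0`, and `X³ = -1 = -t` gives `t = 1`.  `tr B = tr A =: τ` as `B = X A X⁻¹`.
* `W := (B C)³ = (C B)³` commutes with `B` and with `C`.  If `W` is not scalar, then `B C = C B`
  by (2), and if `C` were not scalar then `A B = B A` by (2) (both commute with `C`): so `C = ±1`,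
  `k = 0`.  If `W` is scalar: `B C` is not scalar (else `C = ± B⁻¹` commutes with `A`, and so
  `B` does), so `tr (B C) = ε`, `ε = ±1` as before.  `C = u A + v` with rational `u`, `v`; so
  `u + v τ = ε` (`tr (B A) = 1`) and `u² + u v τ + v² = 1` (`det C = 1`).  Then
  `ε u + v² = 1`, `ε v τ = 1 - ε u = v²`: `v = 0`, `u = ε`: `C = ε A`; or `v = ε τ`,
  `u = ε (1 - τ²)`: `C = ε ((1 - τ²) A + τ) = - ε A³`.
-/

namespace Pool.Agent.Helper7.AG

private lemma Sl1_mul (X Y : SL) (i j : Fin 2) :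
    (X * Y) i j = X i 0 * Y 0 j + X i 1 * Y 1 j := by
  rw [Matrix.SpecialLinearGroup.coe_mul, Matrix.mul_apply, Fin.sum_univ_two]

private lemma Sl1_det (X : SL) : X 0 0 * X 1 1 - X 0 1 * X 1 0 = 1 := by
  have h := X.det_coe
  rwa [Matrix.det_fin_two] at h

private lemma Sl1_ext {X Y : SL} (h0 : X 0 0 = Y 0 0) (h1 : X 0 1 = Y 0 1) (h2 : X 1 0 = Y 1 0)
    (h3 : X 1 1 = Y 1 1) : X = Y := by
  ext i j
  fin_cases i <;> fin_cases j
  · exact h0
  · exact h1
  · exact h2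
  · exact h3

private lemma Sl1_one : (1 : SL) 0 0 = 1 ∧ (1 : SL) 0 1 = 0 ∧ (1 : SL) 1 0 = 0 ∧ (1 : SL) 1 1 = 1 := by
  refine ⟨?_, ?_, ?_, ?_⟩ <;> simp

private lemma Sl1_neg (X : SL) (i j : Fin 2) : (-X) i j = - X i j := by
  rw [Matrix.SpecialLinearGroup.coe_neg, Matrix.neg_apply]

private lemma Sl1_tr_comm (X Y : SL) : tr (X * Y) = tr (Y * X) := by
  unfold tr
  rw [Sl1_mul, Sl1_mul, Sl1_mul, Sl1_mul]
  ring

/-- scalar matrices -/
private def Sc (X : SL) : Prop := X = 1 ∨ X = -1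

private lemma Sl1_sc_comm {X : SL} (h : Sc X) (Y : SL) : X * Y = Y * X := by
  rcases h with rfl | rfl <;> simp

private lemma Sl1_sc {X : SL} (h1 : X 0 1 = 0) (h2 : X 1 0 = 0) (h3 : X 0 0 = X 1 1) : Sc X := by
  have hd := Sl1_det X
  rw [h1, h3, zero_mul, sub_zero] at hd
  obtain ⟨e0, e1, e2, e3⟩ := Sl1_one
  rcases mul_self_eq_one_iff.1 hd with h | h
  · left
    exact Sl1_ext (by rw [h3, h, e0]) (by rw [h1, e1]) (by rw [h2, e2]) (by rw [h, e3])
  · right
    apply Sl1_ext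
    · rw [Sl1_neg, h3, h, e0]
    · rw [Sl1_neg, h1, e1, neg_zero]
    · rw [Sl1_neg, h2, e2, neg_zero]
    · rw [Sl1_neg, h, e3]

private lemma Sl1_comm {X Y Y' : SL} (h : ¬ Sc X) (hY : X * Y = Y * X) (hY' : X * Y' = Y' * X) :
    Y * Y' = Y' * Y :=
  comm_of_comm (fun h' => h (Or.inl h')) (fun h' => h (Or.inr h')) hY hY'

/-- entries of the cube -/
private lemma Sl1_cube (X : SL) :
    (X ^ 3) 0 0 = ((tr X) ^ 2 - 1) * X 0 0 - tr X ∧ (X ^ 3) 0 1 = ((tr X) ^ 2 - 1) * X 0 1 ∧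
    (X ^ 3) 1 0 = ((tr X) ^ 2 - 1) * X 1 0 ∧ (X ^ 3) 1 1 = ((tr X) ^ 2 - 1) * X 1 1 - tr X := by
  have hd := Sl1_det X
  have e : X ^ 3 = X * X * X := by rw [pow_succ, pow_two]
  rw [e]
  unfold tr
  simp only [Sl1_mul]
  refine ⟨?_, ?_, ?_, ?_⟩
  · linear_combination (-2 * X 0 0 - X 1 1) * hd
  · linear_combination (-X 0 1) * hd
  · linear_combination (-X 1 0) * hd
  · linear_combination (-2 * X 1 1 - X 0 0) * hd

private lemma Sl1_sq (X : SL) :
    (X * X) 0 0 = tr X * X 0 0 - 1 ∧ (X * X) 0 1 = tr X * X 0 1 ∧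
    (X * X) 1 0 = tr X * X 1 0 ∧ (X * X) 1 1 = tr X * X 1 1 - 1 := by
  have hd := Sl1_det X
  unfold tr
  simp only [Sl1_mul]
  refine ⟨?_, ?_, ?_, ?_⟩
  · linear_combination (-1) * hd
  · ring
  · ring
  · linear_combination (-1) * hd

private lemma Sl1_sc_tr {X : SL} (h : Sc (X ^ 3)) (hX : ¬ Sc X) :
    (tr X = 1 ∧ X ^ 3 = -1) ∨ (tr X = -1 ∧ X ^ 3 = 1) := by
  obtain ⟨c0, c1, c2, c3⟩ := Sl1_cube X
  obtain ⟨e0, e1, e2, e3⟩ := Sl1_one
  have hs : (X ^ 3) 0 1 = 0 ∧ (X ^ 3) 1 0 = 0 ∧ (X ^ 3) 0 0 = (X ^ 3) 1 1 := by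
    rcases h with h | h <;> rw [h]
    · exact ⟨e1, e2, e0.trans e3.symm⟩
    · rw [Sl1_neg, Sl1_neg, Sl1_neg, Sl1_neg, e0, e1, e2, e3]
      exact ⟨neg_zero, neg_zero, rfl⟩
  obtain ⟨s1, s2, s3⟩ := hs
  have ht : (tr X) ^ 2 - 1 = 0 := by
    by_contra ht
    apply hX
    apply Sl1_sc
    · rw [c1] at s1
      exact (mul_eq_zero.1 s1).resolve_left ht
    · rw [c2] at s2
      exact (mul_eq_zero.1 s2).resolve_left ht
    · rw [c0, c3] at s3
      have : ((tr X) ^ 2 - 1) * (X 0 0 - X 1 1) = 0 := by linarith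
      exact sub_eq_zero.1 ((mul_eq_zero.1 this).resolve_left ht)
  rw [ht, zero_mul] at c1 c2
  rw [ht, zero_mul, zero_sub] at c0 c3
  have ht2 : tr X * tr X = 1 := by linarith [ht, sq (tr X)]
  rcases mul_self_eq_one_iff.1 ht2 with h1 | h1
  · left
    refine ⟨h1, ?_⟩
    rw [h1] at c0 c3
    apply Sl1_ext
    · rw [Sl1_neg, e0, c0]
    · rw [Sl1_neg, e1, c1, neg_zero]
    · rw [Sl1_neg, e2, c2, neg_zero]
    · rw [Sl1_neg, e3, c3]
  · right
    refine ⟨h1, ?_⟩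
    rw [h1, neg_neg] at c0 c3
    exact Sl1_ext (by rw [e0, c0]) (by rw [e1, c1]) (by rw [e2, c2]) (by rw [e3, c3])

private lemma Sl1_one_ne : (1 : SL) ≠ -1 := by
  intro h
  have h1 := congrArg (fun X : SL => X 0 0) h
  simp only [Sl1_neg] at h1
  rw [Sl1_one.1] at h1
  norm_num at h1

/-- AG-TR, first part -/
theorem tr_AB {A B : SL} (h2 : A * B * A = B * A * B) (hn : A * B ≠ B * A) :
    tr (A * B) = 1 ∧ tr (A * B * A) = 0 ∧ (A * B) ^ 3 = -1 := by
  have hAD : A * (A * B * A) = (A * B * A) * B := by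
    rw [h2]
    simp only [mul_assoc]
    rw [← mul_assoc A B, ← mul_assoc (A * B) A B, h2]
    simp only [mul_assoc]
  have hBD : B * (A * B * A) = (A * B * A) * A := by
    conv_rhs => rw [h2]
    simp only [mul_assoc]
  have hD2 : (A * B) ^ 3 = (A * B * A) * (A * B * A) := by
    have h5 : (A * B) ^ 3 = (A * B * A) * (B * A * B) := by
      rw [pow_succ, pow_two]
      simp only [mul_assoc]
    rw [h5, ← h2]
  have hXn : ¬ Sc (A * B) := by
    intro h
    apply hn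
    have h3 := Sl1_sc_comm h A
    rw [mul_assoc A B A] at h3
    exact (mul_left_cancel h3).symm
  have hDn : ¬ Sc (A * B * A) := by
    intro h
    apply hn
    have h3 := Sl1_sc_comm h A
    rw [← hBD] at h3
    have h4 : B = A := by
      have h5 := Sl1_sc_comm h A
      have h6 := Sl1_sc_comm h B
      rw [← hAD] at h6
      have h7 : B * (A * B * A) = A * (A * B * A) := by rw [hBD, h5]
      exact mul_right_cancel h7
    rw [h4]
  have hZA : (A * B) ^ 3 * A = A * (A * B) ^ 3 := by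
    rw [hD2, mul_assoc, ← hBD, ← mul_assoc, ← hAD, mul_assoc]
  have hZB : (A * B) ^ 3 * B = B * (A * B) ^ 3 := by
    rw [hD2, mul_assoc, ← hAD, ← mul_assoc, ← hBD, mul_assoc]
  have hZ : Sc ((A * B) ^ 3) := by
    by_contra h
    exact hn (Sl1_comm h hZA hZB)
  have hfin : ¬ ((A * B) ^ 3 = 1) := by
    intro h
    rw [hD2] at h
    apply hDn
    obtain ⟨c0, c1, c2, c3⟩ := Sl1_sq (A * B * A)
    obtain ⟨e0, e1, e2, e3⟩ := Sl1_one
    rw [h] at c0 c1 c2 c3
    rw [e0] at c0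
    rw [e1] at c1
    rw [e2] at c2
    rw [e3] at c3
    have ht : tr (A * B * A) ≠ 0 := by
      intro h0
      rw [h0] at c0
      norm_num at c0
    apply Sl1_sc
    · exact (mul_eq_zero.1 c1.symm).resolve_left ht
    · exact (mul_eq_zero.1 c2.symm).resolve_left ht
    · have : tr (A * B * A) * ((A * B * A) 0 0 - (A * B * A) 1 1) = 0 := by linarith
      exact sub_eq_zero.1 ((mul_eq_zero.1 this).resolve_left ht)
  rcases Sl1_sc_tr hZ hXn with ⟨h3, h4⟩ | ⟨h3, h4⟩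
  · refine ⟨h3, ?_, h4⟩
    rw [hD2] at h4
    obtain ⟨c0, c1, c2, c3⟩ := Sl1_sq (A * B * A)
    obtain ⟨e0, e1, e2, e3⟩ := Sl1_one
    rw [h4, Sl1_neg] at c0 c1 c2 c3
    rw [e0] at c0
    rw [e1] at c1
    rw [e2] at c2
    rw [e3] at c3
    by_contra ht
    have d0 : (A * B * A) 0 0 = 0 := by
      have : tr (A * B * A) * (A * B * A) 0 0 = 0 := by linarith
      exact (mul_eq_zero.1 this).resolve_left ht
    have d1 : (A * B * A) 0 1 = 0 := by
      have : tr (A * B * A) * (A * B * A) 0 1 = 0 := by linarith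
      exact (mul_eq_zero.1 this).resolve_left ht
    have hd := Sl1_det (A * B * A)
    rw [d0, d1] at hd
    norm_num at hd
  · exact absurd h4 hfin

private lemma Sl1_hom {A B C : SL} {g w z : ℤ} (h0 : g * C 0 0 = w * A 0 0 + z)
    (h1 : g * C 0 1 = w * A 0 1) (h2 : g * C 1 0 = w * A 1 0) (h3 : g * C 1 1 = w * A 1 1 + z) :
    g * tr (B * C) = w * tr (B * A) + z * tr B ∧ g ^ 2 = w ^ 2 + w * z * tr A + z ^ 2 := by
  have hA := Sl1_det A
  have hC := Sl1_det C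
  constructor
  · unfold tr
    rw [Sl1_mul, Sl1_mul, Sl1_mul, Sl1_mul]
    linear_combination (B 0 0) * h0 + (B 0 1) * h2 + (B 1 0) * h1 + (B 1 1) * h3
  · have e : g ^ 2 = (g * C 0 0) * (g * C 1 1) - (g * C 0 1) * (g * C 1 0) := by
      linear_combination (-g ^ 2) * hC
    rw [e, h0, h1, h2, h3]
    unfold tr
    linear_combination (w ^ 2) * hA

private lemma Sl1_main {A C : SL} {g w z e : ℤ} (hg : g ≠ 0) (he : e = 1 ∨ e = -1)
    (h0 : g * C 0 0 = w * A 0 0 + z)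
    (h1 : g * C 0 1 = w * A 0 1) (h2 : g * C 1 0 = w * A 1 0) (h3 : g * C 1 1 = w * A 1 1 + z)
    (h4 : g * e = w + z * tr A) (h5 : g ^ 2 = w ^ 2 + w * z * tr A + z ^ 2) :
    ∃ k : ℕ, (k = 0 ∨ k = 1 ∨ k = 3) ∧ (C = A ^ k ∨ C = -A ^ k) := by
  have he2 : e ^ 2 = 1 := by rcases he with rfl | rfl <;> norm_num
  have hz : z * (z - e * tr A * g) = 0 := by
    linear_combination (-1 : ℤ) * h5 + (w + e * g) * h4 - g ^ 2 * he2
  rcases mul_eq_zero.1 hz with h6 | h6
  · rw [h6, zero_mul, add_zero] at h4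
    have hC : ∀ i j, C i j = e * A i j := by
      have h0' : g * C 0 0 = g * (e * A 0 0) := by rw [h0, h6, ← h4]; ring
      have h1' : g * C 0 1 = g * (e * A 0 1) := by rw [h1, ← h4]; ring
      have h2' : g * C 1 0 = g * (e * A 1 0) := by rw [h2, ← h4]; ring
      have h3' : g * C 1 1 = g * (e * A 1 1) := by rw [h3, h6, ← h4]; ring
      intro i j
      fin_cases i <;> fin_cases j
      · exact mul_left_cancel₀ hg h0'
      · exact mul_left_cancel₀ hg h1'
      · exact mul_left_cancel₀ hg h2'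
      · exact mul_left_cancel₀ hg h3'
    refine ⟨1, by omega, ?_⟩
    rw [pow_one]
    rcases he with rfl | rfl
    · left
      apply Sl1_ext <;> rw [hC, one_mul]
    · right
      apply Sl1_ext <;> rw [hC, Sl1_neg, neg_one_mul]
  · have hz' : z = e * tr A * g := sub_eq_zero.1 h6
    have hw : w = g * (e * (1 - tr A ^ 2)) := by
      rw [hz'] at h4
      linear_combination (-1 : ℤ) * h4
    obtain ⟨c0, c1, c2, c3⟩ := Sl1_cube A
    have hC : ∀ i j, C i j = -e * (A ^ 3) i j := by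
      have h0' : g * C 0 0 = g * (-e * (A ^ 3) 0 0) := by rw [h0, hz', hw, c0]; ring
      have h1' : g * C 0 1 = g * (-e * (A ^ 3) 0 1) := by rw [h1, hw, c1]; ring
      have h2' : g * C 1 0 = g * (-e * (A ^ 3) 1 0) := by rw [h2, hw, c2]; ring
      have h3' : g * C 1 1 = g * (-e * (A ^ 3) 1 1) := by rw [h3, hz', hw, c3]; ring
      intro i j
      fin_cases i <;> fin_cases j
      · exact mul_left_cancel₀ hg h0'
      · exact mul_left_cancel₀ hg h1'
      · exact mul_left_cancel₀ hg h2'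
      · exact mul_left_cancel₀ hg h3'
    refine ⟨3, by omega, ?_⟩
    rcases he with rfl | rfl
    · right
      apply Sl1_ext <;> rw [hC, Sl1_neg, neg_one_mul]
    · left
      apply Sl1_ext <;> rw [hC, neg_neg, one_mul]

/-- AG-TR -/
theorem class_C {A B C : SL} (h1 : A * C = C * A) (h2 : A * B * A = B * A * B)
    (h3 : (B * C) ^ 3 = (C * B) ^ 3) (hn : A * B ≠ B * A) :
    ∃ k : ℕ, (k = 0 ∨ k = 1 ∨ k = 3) ∧ (C = A ^ k ∨ C = -A ^ k) := by
  obtain ⟨t1, -, -⟩ := tr_AB h2 hn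
  have hA : ¬ Sc A := fun h => hn (Sl1_sc_comm h B)
  by_cases hCs : Sc C
  · refine ⟨0, Or.inl rfl, ?_⟩
    rw [pow_zero]
    exact hCs
  have hWB : (B * C) ^ 3 * B = B * (B * C) ^ 3 := by
    conv_rhs => rw [h3]
    simp only [pow_succ, pow_zero, one_mul, mul_assoc]
  have hWC : (B * C) ^ 3 * C = C * (B * C) ^ 3 := by
    conv_lhs => rw [h3]
    simp only [pow_succ, pow_zero, one_mul, mul_assoc]
  have hW : Sc ((B * C) ^ 3) := by
    by_contra h
    have h4 : B * C = C * B := Sl1_comm h hWB hWC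
    exact hn (Sl1_comm hCs h1.symm h4.symm)
  have hV : ¬ Sc (B * C) := by
    intro h
    apply hn
    have h4 : A * (B * C) = (B * C) * A := (Sl1_sc_comm h A).symm
    rw [mul_assoc B C A, ← h1, ← mul_assoc, ← mul_assoc] at h4
    exact mul_right_cancel h4
  have htr : tr B = tr A := by
    have h4 : B = (A * B) * A * (A * B)⁻¹ := by
      rw [h2, mul_assoc B A B, mul_inv_cancel_right]
    have h5 : tr ((A * B) * A * (A * B)⁻¹) = tr ((A * B)⁻¹ * ((A * B) * A)) := Sl1_tr_comm _ _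
    rw [← h4, inv_mul_cancel_left] at h5
    exact h5
  have hBA : tr (B * A) = 1 := by rw [Sl1_tr_comm, t1]
  obtain ⟨e, he, hte⟩ : ∃ e : ℤ, (e = 1 ∨ e = -1) ∧ tr (B * C) = e := by
    rcases Sl1_sc_tr hW hV with ⟨h4, -⟩ | ⟨h4, -⟩
    · exact ⟨1, Or.inl rfl, h4⟩
    · exact ⟨-1, Or.inr rfl, h4⟩
  have c00 := congrArg (fun X : SL => X 0 0) h1
  have c01 := congrArg (fun X : SL => X 0 1) h1
  have c10 := congrArg (fun X : SL => X 1 0) h1
  simp only [Sl1_mul] at c00 c01 c10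
  by_cases hb : A 0 1 = 0
  · have hc : A 1 0 ≠ 0 := by
      intro hc
      apply hA
      apply Sl1_sc hb hc
      have hd := Sl1_det A
      rw [hb, zero_mul, sub_zero] at hd
      exact Int.eq_of_mul_eq_one hd
    have e0 : A 1 0 * C 0 0 = C 1 0 * A 0 0 + (A 1 0 * C 0 0 - C 1 0 * A 0 0) := by ring
    have e1 : A 1 0 * C 0 1 = C 1 0 * A 0 1 := by linear_combination (-1 : ℤ) * c00
    have e2 : A 1 0 * C 1 0 = C 1 0 * A 1 0 := by ring
    have e3 : A 1 0 * C 1 1 = C 1 0 * A 1 1 + (A 1 0 * C 0 0 - C 1 0 * A 0 0) := by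
      linear_combination (-1 : ℤ) * c10
    obtain ⟨f1, f2⟩ := Sl1_hom (B := B) e0 e1 e2 e3
    rw [hte, hBA, htr, mul_one] at f1
    exact Sl1_main hc he e0 e1 e2 e3 f1 f2
  · have e0 : A 0 1 * C 0 0 = C 0 1 * A 0 0 + (A 0 1 * C 0 0 - C 0 1 * A 0 0) := by ring
    have e1 : A 0 1 * C 0 1 = C 0 1 * A 0 1 := by ring
    have e2 : A 0 1 * C 1 0 = C 0 1 * A 1 0 := by linear_combination c00
    have e3 : A 0 1 * C 1 1 = C 0 1 * A 1 1 + (A 0 1 * C 0 0 - C 0 1 * A 0 0) := by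
      linear_combination c01
    obtain ⟨f1, f2⟩ := Sl1_hom (B := B) e0 e1 e2 e3
    rw [hte, hBA, htr, mul_one] at f1
    exact Sl1_main hb he e0 e1 e2 e3 f1 f2

end Pool.Agent.Helper7.AG
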