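import Pool.Agent.Helper7.AG.Sl

/-!
# Project AG, piece AG-PP: a pair of matrices which does not generate `SL(2, ℤ)`

Let `X = !![p, q; r, 1 - p]`, `p (1 - p) - q r = 1`, and `p ≠ 0, 1`.  Then `p (1 - p) < 0`,
`q r = - (p² - p + 1) < 0`.  The elements of `closure {X, mS}` are of the form `X ^ δ * h`,
`δ ∈ {0, 1, -1}`, where `h` is one of `± 1`, `± mS` or `± mS * X ^ (±1) * h'` with `h'` of the same
kind (predicate `EE`).  Let `(x, y)` be the first column.  `EE X h` implies that `h` is one of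
`± 1`, `± mS`, or `p q x y > 0`: `X ^ (±1)` maps the vectors `≠ 0` with `p q x y ≥ 0` to vectors
with `p q x y < 0`, `mS` maps those to vectors with `p q x y > 0`.  The matrix
`mA = !![1, 1; 0, 1]` has `x y = 0` and is not one of `± 1`, `± mS`.
-/

namespace Pool.Agent.Helper7.AG

namespace PP

/-- The elements of `closure {X, mS}` which are `± 1` or start with `mS`. -/
inductive EE (X : SL) : SL → Prop
  | one : EE X 1
  | S : EE X mS
  | pos {h : SL} : EE X h → EE X (mS * (X * h))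
  | inv {h : SL} : EE X h → EE X (mS * (X⁻¹ * h))
  | neg {h : SL} : EE X h → EE X (-h)

/-- The elements of `closure {X, mS}`. -/
def DD (X g : SL) : Prop :=
  EE X g ∨ (∃ h, EE X h ∧ g = X * h) ∨ (∃ h, EE X h ∧ g = X⁻¹ * h)

lemma DD.neg {X g : SL} (h : DD X g) : DD X (-g) := by
  rcases h with h | ⟨k, hk, rfl⟩ | ⟨k, hk, rfl⟩
  · exact Or.inl h.neg
  · exact Or.inr (Or.inl ⟨-k, hk.neg, (mul_neg _ _).symm⟩)
  · exact Or.inr (Or.inr ⟨-k, hk.neg, (mul_neg _ _).symm⟩)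

lemma SS : mS * mS = -1 := by
  ext i j; fin_cases i <;> fin_cases j <;> simp [mS, Matrix.mul_apply]

lemma S_inv : mS⁻¹ = -mS := by
  rw [inv_eq_iff_mul_eq_one, mul_neg, SS, neg_neg]

lemma EE.mulS {X h : SL} (hh : EE X h) : DD X (mS * h) := by
  induction hh with
  | one => exact Or.inl (by rw [mul_one]; exact EE.S)
  | S => exact Or.inl (by rw [SS]; exact EE.one.neg)
  | @pos h hh ih =>
    refine Or.inr (Or.inl ⟨-h, hh.neg, ?_⟩)
    rw [← mul_assoc, SS, neg_mul, one_mul, mul_neg]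
  | @inv h hh ih =>
    refine Or.inr (Or.inr ⟨-h, hh.neg, ?_⟩)
    rw [← mul_assoc, SS, neg_mul, one_mul, mul_neg]
  | @neg h hh ih =>
    rw [mul_neg]
    exact ih.neg

lemma DD.mulS {X g : SL} (h : DD X g) : DD X (mS * g) := by
  rcases h with h | ⟨k, hk, rfl⟩ | ⟨k, hk, rfl⟩
  · exact h.mulS
  · exact Or.inl hk.pos
  · exact Or.inl hk.inv

lemma X_sq {X : SL} (htr : tr X = 1) : X * X = -X⁻¹ := by
  have hd := X.det_coe
  rw [Matrix.det_fin_two] at hd
  have ht : X 0 0 + X 1 1 = 1 := htr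
  ext i j
  rw [Matrix.SpecialLinearGroup.coe_mul, Matrix.SpecialLinearGroup.coe_neg,
    Matrix.SpecialLinearGroup.coe_inv, Matrix.adjugate_fin_two]
  fin_cases i <;> fin_cases j <;> simp [Matrix.mul_apply, Fin.sum_univ_two]
  · linear_combination X 0 0 * ht + ht - hd
  · linear_combination X 0 1 * ht
  · linear_combination X 1 0 * ht
  · linear_combination X 1 1 * ht + ht - hd

lemma DD.mulX {X g : SL} (htr : tr X = 1) (h : DD X g) : DD X (X * g) := by
  rcases h with h | ⟨k, hk, rfl⟩ | ⟨k, hk, rfl⟩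
  · exact Or.inr (Or.inl ⟨g, h, rfl⟩)
  · refine Or.inr (Or.inr ⟨-k, hk.neg, ?_⟩)
    rw [← mul_assoc, X_sq htr, mul_neg, neg_mul]
  · exact Or.inl (by rw [mul_inv_cancel_left]; exact hk)

lemma DD.mulX' {X g : SL} (htr : tr X = 1) (h : DD X g) : DD X (X⁻¹ * g) := by
  rcases h with h | ⟨k, hk, rfl⟩ | ⟨k, hk, rfl⟩
  · exact Or.inr (Or.inr ⟨g, h, rfl⟩)
  · exact Or.inl (by rw [inv_mul_cancel_left]; exact hk)
  · refine Or.inr (Or.inl ⟨-k, hk.neg, ?_⟩)
    have h1 : X⁻¹ * X⁻¹ = -X := by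
      have h2 : X * X * (X⁻¹ * X⁻¹) = 1 := by group
      rw [X_sq htr] at h2
      have h3 : X⁻¹ * (X⁻¹ * X⁻¹) = -1 := by
        rw [neg_mul] at h2
        rw [← h2, neg_neg]
      calc X⁻¹ * X⁻¹ = X * (X⁻¹ * (X⁻¹ * X⁻¹)) := by group
        _ = -X := by rw [h3, mul_neg, mul_one]
    rw [← mul_assoc, h1, mul_neg, neg_mul]

/-- The first column of a matrix of `SL` is not zero. -/
lemma col_ne (h : SL) : h 0 0 ≠ 0 ∨ h 1 0 ≠ 0 := by
  by_contra hc
  push Not at hc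
  have hd := h.det_coe
  rw [Matrix.det_fin_two, hc.1, hc.2] at hd
  simp at hd

lemma quad {A B C x y t : ℤ} (hA : A < 0) (hB : B ≤ 0) (hC : C < 0) (ht : 0 ≤ t)
    (h : x ≠ 0 ∨ y ≠ 0) : A * x ^ 2 + B * t + C * y ^ 2 < 0 := by
  have h1 : A * x ^ 2 ≤ 0 := mul_nonpos_of_nonpos_of_nonneg hA.le (sq_nonneg x)
  have h2 : B * t ≤ 0 := mul_nonpos_of_nonpos_of_nonneg hB ht
  have h3 : C * y ^ 2 ≤ 0 := mul_nonpos_of_nonpos_of_nonneg hC.le (sq_nonneg y)
  rcases h with h | h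
  · have : A * x ^ 2 < 0 := mul_neg_of_neg_of_pos hA (by positivity)
    linarith
  · have : C * y ^ 2 < 0 := mul_neg_of_neg_of_pos hC (by positivity)
    linarith

/-- The sign which is used. -/
def sg (X h : SL) : ℤ := X 0 0 * X 0 1 * (h 0 0 * h 1 0)

lemma sg_S (X h : SL) : sg X (mS * h) = -sg X h := by
  have e1 : (mS * h) 0 0 = h 1 0 := by
    simp [mS, Matrix.mul_apply, Fin.sum_univ_two]
  have e2 : (mS * h) 1 0 = -h 0 0 := by
    simp [mS, Matrix.mul_apply, Fin.sum_univ_two]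
  simp only [sg]
  rw [e1, e2]
  ring

lemma sg_neg (X h : SL) : sg X (-h) = sg X h := by
  simp [sg]

lemma sg_X {X : SL} (htr : tr X = 1) (h0 : X 0 0 ≠ 0) (h1 : X 0 0 ≠ 1) {h : SL}
    (hh : 0 ≤ sg X h) : sg X (X * h) < 0 := by
  have hd := X.det_coe
  rw [Matrix.det_fin_two] at hd
  have ht : X 1 1 = 1 - X 0 0 := by
    have : X 0 0 + X 1 1 = 1 := htr
    linarith
  rw [ht] at hd
  have h2 : X 0 0 * (1 - X 0 0) < 0 := by
    rcases lt_or_gt_of_ne h0 with h3 | h3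
    · nlinarith
    · have : 1 < X 0 0 := lt_of_le_of_ne h3 (Ne.symm h1)
      nlinarith
  have h3 : X 0 1 * X 1 0 < 0 := by linarith
  have hq : X 0 1 ≠ 0 := by
    intro h4
    rw [h4] at h3
    simp at h3
  have h4 := quad (A := X 0 0 ^ 2 * (X 0 1 * X 1 0))
    (B := X 0 0 * (1 - X 0 0) + X 0 1 * X 1 0)
    (C := X 0 1 ^ 2 * (X 0 0 * (1 - X 0 0))) (x := h 0 0) (y := h 1 0) (t := sg X h)
    (mul_neg_of_pos_of_neg (by positivity) h3) (by linarith)
    (mul_neg_of_pos_of_neg (by positivity) h2) hh (col_ne h)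
  have h5 : sg X (X * h) = X 0 0 ^ 2 * (X 0 1 * X 1 0) * h 0 0 ^ 2 +
      (X 0 0 * (1 - X 0 0) + X 0 1 * X 1 0) * sg X h +
      X 0 1 ^ 2 * (X 0 0 * (1 - X 0 0)) * h 1 0 ^ 2 := by
    simp only [sg, Matrix.SpecialLinearGroup.coe_mul, Matrix.mul_apply, Fin.sum_univ_two, ht]
    ring
  rw [h5]
  exact h4

lemma sg_X' {X : SL} (htr : tr X = 1) (h0 : X 0 0 ≠ 0) (h1 : X 0 0 ≠ 1) {h : SL}
    (hh : 0 ≤ sg X h) : sg X (X⁻¹ * h) < 0 := by
  have hd := X.det_coe
  rw [Matrix.det_fin_two] at hd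
  have ht : X 1 1 = 1 - X 0 0 := by
    have : X 0 0 + X 1 1 = 1 := htr
    linarith
  rw [ht] at hd
  have h2 : X 0 0 * (1 - X 0 0) < 0 := by
    rcases lt_or_gt_of_ne h0 with h3 | h3
    · nlinarith
    · have : 1 < X 0 0 := lt_of_le_of_ne h3 (Ne.symm h1)
      nlinarith
  have h3 : X 0 1 * X 1 0 < 0 := by linarith
  have hq : X 0 1 ≠ 0 := by
    intro h4
    rw [h4] at h3
    simp at h3
  have h4 := quad (A := -(X 0 0 * (1 - X 0 0) * (X 0 1 * X 1 0)))
    (B := X 0 0 * (1 - X 0 0) + X 0 1 * X 1 0)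
    (C := -(X 0 0 * X 0 1) ^ 2) (x := h 0 0) (y := h 1 0) (t := sg X h)
    (by have := mul_pos_of_neg_of_neg h2 h3; linarith) (by linarith)
    (by have : 0 < (X 0 0 * X 0 1) ^ 2 := by positivity
        linarith) hh (col_ne h)
  have h5 : sg X (X⁻¹ * h) = -(X 0 0 * (1 - X 0 0) * (X 0 1 * X 1 0)) * h 0 0 ^ 2 +
      (X 0 0 * (1 - X 0 0) + X 0 1 * X 1 0) * sg X h +
      -(X 0 0 * X 0 1) ^ 2 * h 1 0 ^ 2 := by
    simp only [sg, Matrix.SpecialLinearGroup.coe_mul, Matrix.SpecialLinearGroup.coe_inv,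
      Matrix.adjugate_fin_two, Matrix.mul_apply, Fin.sum_univ_two]
    simp only [Matrix.of_apply, Matrix.cons_val_zero, Matrix.cons_val_one, Matrix.cons_val', ht,
      Matrix.cons_val_fin_one]
    ring
  rw [h5]
  exact h4

lemma EE.sg_pos {X : SL} (htr : tr X = 1) (h0 : X 0 0 ≠ 0) (h1 : X 0 0 ≠ 1) {h : SL}
    (hh : EE X h) : (h = 1 ∨ h = -1 ∨ h = mS ∨ h = -mS) ∨ 0 < sg X h := by
  have key : ∀ h : SL, ((h = 1 ∨ h = -1 ∨ h = mS ∨ h = -mS) ∨ 0 < sg X h) → 0 ≤ sg X h := by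
    intro h hh
    rcases hh with (rfl | rfl | rfl | rfl) | hh
    · simp [sg]
    · simp [sg]
    · simp [sg, mS]
    · simp [sg, mS]
    · exact hh.le
  induction hh with
  | one => exact Or.inl (Or.inl rfl)
  | S => exact Or.inl (Or.inr (Or.inr (Or.inl rfl)))
  | @pos h hh ih =>
    refine Or.inr ?_
    rw [sg_S]
    have := sg_X htr h0 h1 (key h ih)
    linarith
  | @inv h hh ih =>
    refine Or.inr ?_
    rw [sg_S]
    have := sg_X' htr h0 h1 (key h ih)
    linarith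
  | @neg h hh ih =>
    rcases ih with (rfl | rfl | rfl | rfl) | ih
    · exact Or.inl (Or.inr (Or.inl rfl))
    · exact Or.inl (Or.inl (neg_neg _))
    · exact Or.inl (Or.inr (Or.inr (Or.inr rfl)))
    · exact Or.inl (Or.inr (Or.inr (Or.inl (neg_neg _))))
    · exact Or.inr (by rw [sg_neg]; exact ih)

lemma EE.sg_nonneg {X : SL} (htr : tr X = 1) (h0 : X 0 0 ≠ 0) (h1 : X 0 0 ≠ 1) {h : SL}
    (hh : EE X h) : 0 ≤ sg X h := by
  rcases hh.sg_pos htr h0 h1 with (rfl | rfl | rfl | rfl) | hh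
  · simp [sg]
  · simp [sg]
  · simp [sg, mS]
  · simp [sg, mS]
  · exact hh.le

end PP

open PP in
/-- AG-PP -/
theorem ping_pong {X : SL} (htr : tr X = 1) (h : Subgroup.closure {X, mS} = ⊤) :
    X 0 0 = 0 ∨ X 0 0 = 1 := by
  by_contra hc
  push Not at hc
  obtain ⟨h0, h1⟩ := hc
  have hD : ∀ g : SL, DD X g := by
    intro g
    have hg : g ∈ Subgroup.closure {X, mS} := by
      rw [h]
      exact Subgroup.mem_top g
    induction hg using Subgroup.closure_induction_left with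
    | one => exact Or.inl EE.one
    | mul_left x hx y _ ih =>
      rcases hx with rfl | rfl
      · exact ih.mulX htr
      · exact ih.mulS
    | inv_mul_cancel x hx y _ ih =>
      rcases hx with rfl | rfl
      · exact ih.mulX' htr
      · rw [S_inv, neg_mul]
        exact ih.mulS.neg
  have hA : sg X mA = 0 := by simp [sg, mA]
  rcases hD mA with h2 | ⟨k, hk, he⟩ | ⟨k, hk, he⟩
  · rcases h2.sg_pos htr h0 h1 with (h3 | h3 | h3 | h3) | h3
    · have := congrArg (fun g : SL => g 0 1) h3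
      simp [mA] at this
    · have := congrArg (fun g : SL => g 0 1) h3
      simp [mA] at this
    · have := congrArg (fun g : SL => g 0 0) h3
      simp [mA, mS] at this
    · have := congrArg (fun g : SL => g 0 0) h3
      simp [mA, mS] at this
    · rw [hA] at h3
      exact lt_irrefl _ h3
  · have h4 := sg_X htr h0 h1 (hk.sg_nonneg htr h0 h1)
    rw [← he, hA] at h4
    exact lt_irrefl _ h4
  · have h4 := sg_X' htr h0 h1 (hk.sg_nonneg htr h0 h1)
    rw [← he, hA] at h4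
    exact lt_irrefl _ h4

end Pool.Agent.Helper7.AG
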