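import Pool.Agent.Helper7.AG.Sl2
import Pool.Agent.Helper7.AG.Sl3

/-!
# Project AG, piece AG-CL: generating braid pairs of `SL(2, ℤ)`

Proof.  Let `X = A * B`, `Y = A * B * A`; then `A = X⁻¹ * Y`, `B = Y⁻¹ * X²` (braid relation), so
`closure {X, Y} = ⊤`.  By `conj_S` there is `M₁ : SL` with `M₁ Y M₁⁻¹ = η mS`, `η = ±1`.
`X' = M₁ X M₁⁻¹` and `mS` generate `SL` (`-1 = mS²`), `tr X' = 1`: by `ping_pong`
`X' 0 0 ∈ {0, 1}`, and so `X'` is one of `!![0, ε; -ε, 1]`, `!![1, ε; -ε, 0]`, `ε = ±1`.  With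
`J = !![1, 0; 0, ε]`: `J mU J⁻¹ = !![0, ε; -ε, 1]`, `J mS J⁻¹ = ε mS`; and
`mS mU mS⁻¹ = !![1, 1; -1, 0]`.  So there is `N` (`J` or `mS J`, as integer matrices of determinant
`±1`) with `X' N = N mU`, `mS N = ε' N mS`; `M := M₁⁻¹ N`.
-/

namespace Pool.Agent.Helper7.AG

open Matrix

private theorem Sl4_eta (X : SL) :
    (X : Matrix (Fin 2) (Fin 2) ℤ) = !![X 0 0, X 0 1; X 1 0, X 1 1] := by
  ext i j
  fin_cases i <;> fin_cases j <;> rfl

private theorem Sl4_find {X : SL} (ht : tr X = 1) (h : X 0 0 = 0 ∨ X 0 0 = 1) :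
    ∃ (N : Matrix (Fin 2) (Fin 2) ℤ) (e : ℤ), (N.det = 1 ∨ N.det = -1) ∧ (e = 1 ∨ e = -1) ∧
      (X : Matrix (Fin 2) (Fin 2) ℤ) * N = N * (mU : Matrix (Fin 2) (Fin 2) ℤ) ∧
      (mS : Matrix (Fin 2) (Fin 2) ℤ) * N = e • (N * (mS : Matrix (Fin 2) (Fin 2) ℤ)) := by
  have hd := X.det_coe
  rw [Matrix.det_fin_two] at hd
  have ht' : X 1 1 = 1 - X 0 0 := by
    have : X 0 0 + X 1 1 = 1 := ht
    linarith
  have hbc : X 0 1 * X 1 0 = -1 := by
    rw [ht'] at hd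
    rcases h with h | h <;> rw [h] at hd <;> linarith
  have hU : (mU : Matrix (Fin 2) (Fin 2) ℤ) = !![0, 1; -1, 1] := rfl
  have hS : (mS : Matrix (Fin 2) (Fin 2) ℤ) = !![0, 1; -1, 0] := rfl
  rw [Sl4_eta X, hU, hS]
  rcases h with h | h
  · rcases Int.mul_eq_neg_one_iff_eq_one_or_neg_one.1 hbc with ⟨h1, h2⟩ | ⟨h1, h2⟩
    · refine ⟨1, 1, ?_, Or.inl rfl, ?_, ?_⟩
      · simp
      · rw [ht', h, h1, h2]
        simp
      · simp
    · refine ⟨!![1, 0; 0, -1], -1, ?_, Or.inr rfl, ?_, ?_⟩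
      · simp [Matrix.det_fin_two]
      · rw [ht', h, h1, h2]
        simp
      · simp
  · rcases Int.mul_eq_neg_one_iff_eq_one_or_neg_one.1 hbc with ⟨h1, h2⟩ | ⟨h1, h2⟩
    · refine ⟨!![0, 1; -1, 0], 1, ?_, Or.inl rfl, ?_, ?_⟩
      · simp [Matrix.det_fin_two]
      · rw [ht', h, h1, h2]
        simp
      · simp
    · refine ⟨!![0, 1; 1, 0], -1, ?_, Or.inr rfl, ?_, ?_⟩
      · simp [Matrix.det_fin_two]
      · rw [ht', h, h1, h2]
        simp
      · simp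

private theorem Sl4_tr_conj (M X : SL) : tr (M * X * M⁻¹) = tr X := by
  have h1 : ∀ Z : SL, tr Z = (Z : Matrix (Fin 2) (Fin 2) ℤ).trace := by
    intro Z
    rw [Matrix.trace_fin_two]
    rfl
  rw [h1, h1, Matrix.SpecialLinearGroup.coe_mul, Matrix.trace_mul_comm,
    ← Matrix.SpecialLinearGroup.coe_mul, ← mul_assoc, inv_mul_cancel, one_mul]

/-- AG-CL -/
theorem class_AB {A B : SL} (h2 : A * B * A = B * A * B) (ht : tr (A * B) = 1)
    (ht' : tr (A * B * A) = 0) (hg : Subgroup.closure {A, B} = ⊤) :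
    ∃ (M : Matrix (Fin 2) (Fin 2) ℤ) (s : ℤ), (M.det = 1 ∨ M.det = -1) ∧ (s = 1 ∨ s = -1) ∧
      (A : Matrix (Fin 2) (Fin 2) ℤ) * M = s • (M * (mA : Matrix (Fin 2) (Fin 2) ℤ)) ∧
      (B : Matrix (Fin 2) (Fin 2) ℤ) * M = s • (M * (mB : Matrix (Fin 2) (Fin 2) ℤ)) := by
  obtain ⟨M₁, hM₁⟩ := conj_S ht'
  set X := A * B with hX
  set Y := X * A with hY
  have hYB : Y * B = X * X := by rw [hY, hX]; simp only [mul_assoc]
  set X' := M₁ * X * M₁⁻¹ with hX'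
  have hSmem : ∀ Z : SL, (Z = mS ∨ Z = -mS) → Z ∈ Subgroup.closure {X', mS} := by
    have hm : mS ∈ Subgroup.closure {X', mS} := Subgroup.subset_closure (by simp)
    rintro Z (rfl | rfl)
    · exact hm
    · rw [← PP.S_inv]
      exact inv_mem hm
  have hXmem : X' ∈ Subgroup.closure {X', mS} := Subgroup.subset_closure (by simp)
  have hgen : Subgroup.closure {X', mS} = ⊤ := by
    have h3 : (⊤ : Subgroup SL) ≤ (Subgroup.closure {X', mS}).comap
        (MulAut.conj M₁).toMonoidHom := by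
      rw [← hg, Subgroup.closure_le]
      have hA : A = X⁻¹ * Y := by rw [hY]; group
      have hB : B = Y⁻¹ * (X * X) := by rw [← hYB]; group
      have hXc : X ∈ (Subgroup.closure {X', mS}).comap (MulAut.conj M₁).toMonoidHom := hXmem
      have hYc : Y ∈ (Subgroup.closure {X', mS}).comap (MulAut.conj M₁).toMonoidHom :=
        hSmem _ hM₁
      have hAc : A ∈ (Subgroup.closure {X', mS}).comap (MulAut.conj M₁).toMonoidHom := by
        rw [hA]
        exact mul_mem (inv_mem hXc) hYc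
      have hBc : B ∈ (Subgroup.closure {X', mS}).comap (MulAut.conj M₁).toMonoidHom := by
        rw [hB]
        exact mul_mem (inv_mem hYc) (mul_mem hXc hXc)
      rintro Z (rfl | rfl)
      · exact hAc
      · exact hBc
    rw [eq_top_iff]
    intro g _
    have h4 := h3 (Subgroup.mem_top (M₁⁻¹ * g * M₁))
    have h5 : M₁ * (M₁⁻¹ * g * M₁) * M₁⁻¹ ∈ Subgroup.closure {X', mS} := h4
    have h6 : M₁ * (M₁⁻¹ * g * M₁) * M₁⁻¹ = g := by group
    rwa [h6] at h5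
  have htX : tr X' = 1 := by rw [hX', Sl4_tr_conj, ht]
  obtain ⟨N, e, hNd, he, hXN, hSN⟩ := Sl4_find htX (ping_pong htX hgen)
  obtain ⟨η, hη, hYN⟩ : ∃ η : ℤ, (η = 1 ∨ η = -1) ∧
      ((M₁ * Y * M₁⁻¹ : SL) : Matrix (Fin 2) (Fin 2) ℤ) =
        η • (mS : Matrix (Fin 2) (Fin 2) ℤ) := by
    rcases hM₁ with h | h
    · exact ⟨1, Or.inl rfl, by rw [h, one_smul]⟩
    · refine ⟨-1, Or.inr rfl, ?_⟩
      rw [h, Matrix.SpecialLinearGroup.coe_neg]
      simp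
  have hs : η * e = 1 ∨ η * e = -1 := by
    rcases hη with rfl | rfl <;> rcases he with rfl | rfl <;> simp
  have hss : (η * e) * (η * e) = 1 := by
    rcases hs with h | h <;> rw [h] <;> norm_num
  set M : Matrix (Fin 2) (Fin 2) ℤ := ((M₁⁻¹ : SL) : Matrix (Fin 2) (Fin 2) ℤ) * N with hM
  have hXM : (X : Matrix (Fin 2) (Fin 2) ℤ) * M = M * (mU : Matrix (Fin 2) (Fin 2) ℤ) := by
    have h5 : X * M₁⁻¹ = M₁⁻¹ * X' := by rw [hX']; group
    rw [hM, ← mul_assoc, ← Matrix.SpecialLinearGroup.coe_mul, h5,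
      Matrix.SpecialLinearGroup.coe_mul, mul_assoc, hXN, mul_assoc]
  have hYM : (Y : Matrix (Fin 2) (Fin 2) ℤ) * M =
      (η * e) • (M * (mS : Matrix (Fin 2) (Fin 2) ℤ)) := by
    have h5 : Y * M₁⁻¹ = M₁⁻¹ * (M₁ * Y * M₁⁻¹) := by group
    rw [hM, ← mul_assoc, ← Matrix.SpecialLinearGroup.coe_mul, h5,
      Matrix.SpecialLinearGroup.coe_mul, mul_assoc, hYN, Matrix.smul_mul, hSN, smul_smul,
      Matrix.mul_smul, mul_assoc]
  have hcan : ∀ (Z : SL) (P Q : Matrix (Fin 2) (Fin 2) ℤ),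
      (Z : Matrix (Fin 2) (Fin 2) ℤ) * P = (Z : Matrix (Fin 2) (Fin 2) ℤ) * Q → P = Q := by
    intro Z P Q h
    have h5 := congrArg (fun R => ((Z⁻¹ : SL) : Matrix (Fin 2) (Fin 2) ℤ) * R) h
    simp only [← mul_assoc] at h5
    rwa [← Matrix.SpecialLinearGroup.coe_mul, inv_mul_cancel, Matrix.SpecialLinearGroup.coe_one,
      one_mul, one_mul] at h5
  have hdet : M.det = 1 ∨ M.det = -1 := by
    rw [hM, Matrix.det_mul, Matrix.SpecialLinearGroup.det_coe, one_mul]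
    exact hNd
  clear_value M
  refine ⟨M, η * e, hdet, hs, ?_, ?_⟩
  · apply hcan X
    rw [← mul_assoc, ← Matrix.SpecialLinearGroup.coe_mul, ← hY, hYM, Matrix.mul_smul, ← mul_assoc,
      hXM, mul_assoc, ← Matrix.SpecialLinearGroup.coe_mul, mU_mA]
  · apply hcan Y
    rw [← mul_assoc, ← Matrix.SpecialLinearGroup.coe_mul, hYB, Matrix.SpecialLinearGroup.coe_mul,
      mul_assoc, hXM, Matrix.mul_smul, ← mul_assoc, ← mul_assoc, hXM, hYM, Matrix.smul_mul,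
      smul_smul, hss, one_smul, mul_assoc, mul_assoc, ← Matrix.SpecialLinearGroup.coe_mul,
      ← Matrix.SpecialLinearGroup.coe_mul, ← mU_mA, mul_assoc mU mA mB, mA_mB]

end Pool.Agent.Helper7.AG
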