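import Pool.Agent.Helper7.AG.Sl

/-!
# Project AG, piece AG-GEN: `mA`, `mB` generate `SL(2, ℤ)`
-/

namespace Pool.Agent.Helper7.AG

private theorem sl6_T : ModularGroup.T = mA := by
  ext i j; fin_cases i <;> fin_cases j <;> simp [mA, ModularGroup.T]

private theorem sl6_S : ModularGroup.S * (mA * mB * mA) = 1 := by
  rw [mA_mB, mU_mA]
  ext i j; fin_cases i <;> fin_cases j <;> simp [mS, ModularGroup.S, Matrix.mul_apply]

/-- `AG-GEN`.  Mathlib: `Matrix.SpecialLinearGroup.SL2Z_generators` (`S`, `T`). -/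
theorem closure_AB : Subgroup.closure ({mA, mB} : Set SL) = ⊤ := by
  rw [eq_top_iff, ← SpecialLinearGroup.SL2Z_generators, Subgroup.closure_le]
  have hA : mA ∈ Subgroup.closure ({mA, mB} : Set SL) := Subgroup.subset_closure (by simp)
  have hB : mB ∈ Subgroup.closure ({mA, mB} : Set SL) := Subgroup.subset_closure (by simp)
  rintro x (rfl | rfl)
  · have h1 : ModularGroup.S = (mA * mB * mA)⁻¹ := eq_inv_of_mul_eq_one_left sl6_S
    rw [h1]
    exact Subgroup.inv_mem _ (Subgroup.mul_mem _ (Subgroup.mul_mem _ hA hB) hA)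
  · rw [sl6_T]
    exact hA

end Pool.Agent.Helper7.AG
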