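import Mathlib

/-!
# Project AG: matrices of `SL(2, ℤ)`, definitions
-/

namespace Pool.Agent.Helper7.AG

open Matrix

/-- `SL(2, ℤ)` -/
abbrev SL : Type := Matrix.SpecialLinearGroup (Fin 2) ℤ

/-- the image of `a` -/
def mA : SL := ⟨!![1, 1; 0, 1], by simp [Matrix.det_fin_two]⟩
/-- the image of `b` -/
def mB : SL := ⟨!![1, 0; -1, 1], by simp [Matrix.det_fin_two]⟩
/-- the image of `a b a` -/
def mS : SL := ⟨!![0, 1; -1, 0], by simp [Matrix.det_fin_two]⟩
/-- the image of `a b` -/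
def mU : SL := ⟨!![0, 1; -1, 1], by simp [Matrix.det_fin_two]⟩

/-- the trace -/
def tr (X : SL) : ℤ := X 0 0 + X 1 1

lemma mA_mB : mA * mB = mU := by
  ext i j; fin_cases i <;> fin_cases j <;> simp [mA, mB, mU, Matrix.mul_apply]

lemma mU_mA : mU * mA = mS := by
  ext i j; fin_cases i <;> fin_cases j <;> simp [mA, mS, mU, Matrix.mul_apply]

lemma mB_mU : mB * mU = mS := by
  ext i j; fin_cases i <;> fin_cases j <;> simp [mB, mS, mU, Matrix.mul_apply]

lemma mA_braid : mA * mB * mA = mB * mA * mB := by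
  rw [mA_mB, mU_mA, mul_assoc, mA_mB, mB_mU]

end Pool.Agent.Helper7.AG
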