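import Pool.Agent.Helper7.AG.FP

/-!
# Project AG: the free group `F` of rank 7 and the automorphisms `al`, `rho`

`F = FreeGroup (G0 ⊕ G1)`, `G0 = {z, q}`, `G1 = {t, u, v, f, g}`.
-/

namespace Pool.Agent.Helper7.AG

open FreeGroup

/-- the letters which `al` fixes (with `t`) -/
inductive G0 | z | q
  deriving DecidableEq

/-- the other letters -/
inductive G1 | t | u | v | f | g
  deriving DecidableEq

/-- the free group of rank 5 -/
abbrev K : Type := FreeGroup G1

/-- the free group of rank 7 -/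
abbrev F : Type := FreeGroup (G0 ⊕ G1)

namespace K
/-- letter -/ abbrev t : K := of .t
/-- letter -/ abbrev u : K := of .u
/-- letter -/ abbrev v : K := of .v
/-- letter -/ abbrev f : K := of .f
/-- letter -/ abbrev g : K := of .g
end K

/-- letter -/ abbrev Z : F := of (.inl .z)
/-- letter -/ abbrev Q : F := of (.inl .q)
/-- letter -/ abbrev T : F := of (.inr .t)
/-- letter -/ abbrev U : F := of (.inr .u)
/-- letter -/ abbrev V : F := of (.inr .v)
/-- letter -/ abbrev Ff : F := of (.inr .f)
/-- letter -/ abbrev Gg : F := of (.inr .g)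

/-- an automorphism of a free group from the images of the letters under it and its inverse -/
def mkAut {α : Type} (φ ψ : α → FreeGroup α) (h1 : ∀ x, lift φ (ψ x) = of x)
    (h2 : ∀ x, lift ψ (φ x) = of x) : MulAut (FreeGroup α) where
  toFun := lift φ
  invFun := lift ψ
  left_inv := by
    intro x
    have : (lift ψ).comp (lift φ) = MonoidHom.id (FreeGroup α) := by
      ext y; simp [h2]
    exact DFunLike.congr_fun this x
  right_inv := by
    intro x
    have : (lift φ).comp (lift ψ) = MonoidHom.id (FreeGroup α) := by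
      ext y; simp [h1]
    exact DFunLike.congr_fun this x
  map_mul' := map_mul _

@[simp] lemma mkAut_of {α : Type} (φ ψ : α → FreeGroup α) (h1) (h2) (x : α) :
    mkAut φ ψ h1 h2 (of x) = φ x := by
  change lift φ (of x) = _
  simp

@[simp] lemma mkAut_symm_of {α : Type} (φ ψ : α → FreeGroup α) (h1) (h2) (x : α) :
    MulEquiv.symm (mkAut φ ψ h1 h2) (of x) = ψ x := by
  change lift ψ (of x) = _
  simp

/-! ### the automorphism `al` -/

/-- images of the letters under `alK` -/
def alKf : G1 → K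
  | .t => K.t
  | .u => K.v
  | .v => K.g * K.f * K.t
  | .f => K.g
  | .g => K.t⁻¹ * K.u * K.g⁻¹

/-- images of the letters under the inverse of `alK` -/
def alKi : G1 → K
  | .t => K.t
  | .u => K.t * K.g * K.f
  | .v => K.u
  | .f => K.f⁻¹ * K.v * K.t⁻¹
  | .g => K.f

/-- `t ↦ t, u ↦ v, v ↦ g f t, f ↦ g, g ↦ t⁻¹ u g⁻¹` -/
def alK : MulAut K := mkAut alKf alKi
  (by intro x; cases x <;> simp [alKf, alKi, mul_assoc])
  (by intro x; cases x <;> simp [alKf, alKi, mul_assoc])

@[simp] lemma alK_t : alK K.t = K.t := by simp [alK, alKf]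
@[simp] lemma alK_u : alK K.u = K.v := by simp [alK, alKf]
@[simp] lemma alK_v : alK K.v = K.g * K.f * K.t := by simp [alK, alKf]
@[simp] lemma alK_f : alK K.f = K.g := by simp [alK, alKf]
@[simp] lemma alK_g : alK K.g = K.t⁻¹ * K.u * K.g⁻¹ := by simp [alK, alKf]

/-- the embeddings of the factors of `F` -/
def iA : FreeGroup G0 →* F := FreeGroup.map Sum.inl
/-- the embeddings of the factors of `F` -/
def iB : K →* F := FreeGroup.map Sum.inr

@[simp] lemma iA_z : iA (of .z) = Z := by simp [iA]
@[simp] lemma iA_q : iA (of .q) = Q := by simp [iA]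
@[simp] lemma iB_t : iB K.t = T := by simp [iB]
@[simp] lemma iB_u : iB K.u = U := by simp [iB]
@[simp] lemma iB_v : iB K.v = V := by simp [iB]
@[simp] lemma iB_f : iB K.f = Ff := by simp [iB]
@[simp] lemma iB_g : iB K.g = Gg := by simp [iB]

/-- images of the letters under `al` -/
def alf : G0 ⊕ G1 → F
  | .inl x => of (.inl x)
  | .inr .t => T
  | .inr .u => V
  | .inr .v => Gg * Ff * T
  | .inr .f => Gg
  | .inr .g => T⁻¹ * U * Gg⁻¹

/-- images of the letters under the inverse of `al` -/
def ali : G0 ⊕ G1 → F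
  | .inl x => of (.inl x)
  | .inr .t => T
  | .inr .u => T * Gg * Ff
  | .inr .v => U
  | .inr .f => Ff⁻¹ * V * T⁻¹
  | .inr .g => Ff

/-- the action of the generator `a` -/
def al : MulAut F := mkAut alf ali
  (by rintro (x | x) <;> cases x <;> simp [alf, ali, mul_assoc])
  (by rintro (x | x) <;> cases x <;> simp [alf, ali, mul_assoc])

@[simp] lemma al_Z : al Z = Z := by simp [al, alf]
@[simp] lemma al_Q : al Q = Q := by simp [al, alf]
@[simp] lemma al_T : al T = T := by simp [al, alf]
@[simp] lemma al_U : al U = V := by simp [al, alf]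
@[simp] lemma al_V : al V = Gg * Ff * T := by simp [al, alf]
@[simp] lemma al_Ff : al Ff = Gg := by simp [al, alf]
@[simp] lemma al_Gg : al Gg = T⁻¹ * U * Gg⁻¹ := by simp [al, alf]
@[simp] lemma ali_Z : MulEquiv.symm al Z = Z := by simp [al, ali]
@[simp] lemma ali_Q : MulEquiv.symm al Q = Q := by simp [al, ali]
@[simp] lemma ali_T : MulEquiv.symm al T = T := by simp [al, ali]
@[simp] lemma ali_U : MulEquiv.symm al U = T * Gg * Ff := by simp [al, ali]
@[simp] lemma ali_V : MulEquiv.symm al V = U := by simp [al, ali]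
@[simp] lemma ali_Ff : MulEquiv.symm al Ff = Ff⁻¹ * V * T⁻¹ := by simp [al, ali]
@[simp] lemma ali_Gg : MulEquiv.symm al Gg = Ff := by simp [al, ali]

lemma al_iA (x : FreeGroup G0) : al (iA x) = iA x := by
  have : al.toMonoidHom.comp iA = iA := by
    ext y
    cases y
    · change al (iA (of .z)) = _; simp
    · change al (iA (of .q)) = _; simp
  exact DFunLike.congr_fun this x

lemma al_iB (x : K) : al (iB x) = iB (alK x) := by
  have : al.toMonoidHom.comp iB = iB.comp alK.toMonoidHom := by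
    ext y
    cases y
    · change al (iB K.t) = iB (alK K.t); simp
    · change al (iB K.u) = iB (alK K.u); simp
    · change al (iB K.v) = iB (alK K.v); simp
    · change al (iB K.f) = iB (alK K.f); simp
    · change al (iB K.g) = iB (alK K.g); simp
  exact DFunLike.congr_fun this x

/-! ### the automorphism `rho` -/

/-- images of the letters under `rho` -/
def rhof : G0 ⊕ G1 → F
  | .inl .z => Z
  | .inl .q => Z * V * Z⁻¹
  | .inr .t => Gg * Z⁻¹
  | .inr .u => Q
  | .inr .v => Z * U * Z⁻¹
  | .inr .f => Z * T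
  | .inr .g => Z * Ff * Z⁻¹

/-- images of the letters under the inverse of `rho` -/
def rhoi : G0 ⊕ G1 → F
  | .inl .z => Z
  | .inl .q => U
  | .inr .t => Z⁻¹ * Ff
  | .inr .u => Z⁻¹ * V * Z
  | .inr .v => Z⁻¹ * Q * Z
  | .inr .f => Z⁻¹ * Gg * Z
  | .inr .g => T * Z

/-- the action of `r = b a³` -/
def rho : MulAut F := mkAut rhof rhoi
  (by rintro (x | x) <;> cases x <;> simp [rhof, rhoi, mul_assoc])
  (by rintro (x | x) <;> cases x <;> simp [rhof, rhoi, mul_assoc])

@[simp] lemma rho_Z : rho Z = Z := by simp [rho, rhof]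
@[simp] lemma rho_Q : rho Q = Z * V * Z⁻¹ := by simp [rho, rhof]
@[simp] lemma rho_T : rho T = Gg * Z⁻¹ := by simp [rho, rhof]
@[simp] lemma rho_U : rho U = Q := by simp [rho, rhof]
@[simp] lemma rho_V : rho V = Z * U * Z⁻¹ := by simp [rho, rhof]
@[simp] lemma rho_Ff : rho Ff = Z * T := by simp [rho, rhof]
@[simp] lemma rho_Gg : rho Gg = Z * Ff * Z⁻¹ := by simp [rho, rhof]
@[simp] lemma rhoi_Z : MulEquiv.symm rho Z = Z := by simp [rho, rhoi]
@[simp] lemma rhoi_Q : MulEquiv.symm rho Q = U := by simp [rho, rhoi]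
@[simp] lemma rhoi_T : MulEquiv.symm rho T = Z⁻¹ * Ff := by simp [rho, rhoi]
@[simp] lemma rhoi_U : MulEquiv.symm rho U = Z⁻¹ * V * Z := by simp [rho, rhoi]
@[simp] lemma rhoi_V : MulEquiv.symm rho V = Z⁻¹ * Q * Z := by simp [rho, rhoi]
@[simp] lemma rhoi_Ff : MulEquiv.symm rho Ff = Z⁻¹ * Gg * Z := by simp [rho, rhoi]
@[simp] lemma rhoi_Gg : MulEquiv.symm rho Gg = T * Z := by simp [rho, rhoi]

/-- automorphisms of `F` are equal if they agree on the letters -/
lemma autF_ext {φ ψ : MulAut F} (hz : φ Z = ψ Z) (hq : φ Q = ψ Q) (ht : φ T = ψ T)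
    (hu : φ U = ψ U) (hv : φ V = ψ V) (hf : φ Ff = ψ Ff) (hg : φ Gg = ψ Gg) : φ = ψ := by
  have : φ.toMonoidHom = ψ.toMonoidHom := by
    ext y
    rcases y with y | y <;> cases y <;> assumption
  ext x
  exact DFunLike.congr_fun this x

/-- `d = c a⁻³` -/
def Dd : F := Z * T * Z⁻¹

/-- the first relation of the action: `a r a = r a⁻² r` -/
lemma rel_ara : al * rho * al = rho * al⁻¹ * al⁻¹ * rho := by
  apply autF_ext <;> simp [MulAut.mul_apply, mul_assoc]

/-- `r³ = z²` -/
lemma rel_r3 : rho * rho * rho = MulAut.conj (Z * Z) := by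
  apply autF_ext <;> simp [MulAut.mul_apply, mul_assoc]

end Pool.Agent.Helper7.AG
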