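import Pool.Agent.Helper7.AG.Defs
import Pool.Agent.Helper7.AG.Aut

/-!
# Project AG: the action of `GA` on the free group `F` of rank 7
-/

namespace Pool.Agent.Helper7.AG

/-- conjugation of inner automorphisms -/
lemma mul_conj {G : Type*} [Group G] (φ : MulAut G) (x : G) :
    φ * MulAut.conj x = MulAut.conj (φ x) * φ := by
  ext y; simp [MulAut.mul_apply]

/-- the action of `b` -/
def be : MulAut F := rho * (al ^ 3)⁻¹

/-- the action of `c` -/
def gam : MulAut F := al ^ 3 * MulAut.conj Dd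

/-- the element `(b c)³` -/
def Q0 : F := Z * Gg * Ff * T * Z⁻¹

lemma al_braid : al * be * al = be * al * be := by
  have h := rel_ara
  unfold be
  calc al * (rho * (al ^ 3)⁻¹) * al = (al * rho * al) * (al ^ 3)⁻¹ := by group
    _ = (rho * al⁻¹ * al⁻¹ * rho) * (al ^ 3)⁻¹ := by rw [h]
    _ = rho * (al ^ 3)⁻¹ * al * (rho * (al ^ 3)⁻¹) := by group

lemma al_gam : al * gam = gam * al := by
  have h : al * MulAut.conj Dd = MulAut.conj Dd * al := by
    have h0 : al Dd = Dd := by simp [Dd]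
    rw [mul_conj, h0]
  unfold gam
  calc al * (al ^ 3 * MulAut.conj Dd) = al ^ 3 * (al * MulAut.conj Dd) := by group
    _ = al ^ 3 * (MulAut.conj Dd * al) := by rw [h]
    _ = _ := by group

lemma be_gam : be * gam = rho * MulAut.conj Dd := by
  unfold be gam; group

lemma be_gam_cube : (be * gam) ^ 3 = MulAut.conj Q0 := by
  rw [be_gam]
  apply autF_ext <;> simp [MulAut.mul_apply, mul_assoc, pow_succ, Dd, Q0]

lemma be_Q0 : be Q0 = Q0 := by
  simp [be, Q0, MulAut.mul_apply, mul_assoc, pow_succ]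

lemma gam_be_cube : (be * gam) ^ 3 = (gam * be) ^ 3 := by
  have h1 : be * MulAut.conj Q0 = MulAut.conj Q0 * be := by rw [mul_conj, be_Q0]
  have h2 : (gam * be) ^ 3 = be⁻¹ * (be * gam) ^ 3 * be := by simp [pow_succ, mul_assoc]
  rw [h2, be_gam_cube, mul_assoc, ← h1]; group

/-- the action of `GA` on `F` -/
def Phi : GA →* MulAut F := lift3 al be gam al_gam al_braid gam_be_cube

@[simp] lemma Phi_ga : Phi ga = al := by simp [Phi]
@[simp] lemma Phi_gb : Phi gb = be := by simp [Phi]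
@[simp] lemma Phi_gc : Phi gc = gam := by simp [Phi]

/-! ### elements of `GA` -/

/-- `x = a b` -/
def gx : GA := ga * gb
/-- `r = b a³` -/
def gr : GA := gb * ga ^ 3
/-- `z = (a b)³` -/
def gz : GA := (ga * gb) ^ 3
/-- `d = c a⁻³` -/
def gd : GA := gc * (ga ^ 3)⁻¹
/-- `q = x⁻¹ (b c)³ x` -/
def gq : GA := gx⁻¹ * (gb * gc) ^ 3 * gx

@[simp] lemma Phi_gr : Phi gr = rho := by simp [gr, be]

lemma Phi_gz : Phi gz = MulAut.conj Z := by
  have h : Phi gz = (al * be) ^ 3 := by simp [gz]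
  rw [h]
  apply autF_ext <;> simp [MulAut.mul_apply, mul_assoc, pow_succ, be]

lemma Phi_gd : Phi gd = MulAut.conj Dd := by
  have h : Phi gd = gam * (al ^ 3)⁻¹ := by simp [gd]
  rw [h]
  unfold gam
  have h0 : (al ^ 3) Dd = Dd := by simp [Dd, pow_succ, MulAut.mul_apply]
  rw [mul_conj, mul_assoc, mul_inv_cancel, mul_one, h0]

lemma Phi_gq : Phi gq = MulAut.conj Q := by
  have h : Phi gq = (al * be)⁻¹ * MulAut.conj Q0 * (al * be) := by
    rw [← be_gam_cube]; simp [gq, gx]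
  rw [h]
  have h2 : (al * be) Q = Q0 := by
    simp [MulAut.mul_apply, mul_assoc, pow_succ, be, Q0]
  have h3 : (al * be) * MulAut.conj Q = MulAut.conj Q0 * (al * be) := by rw [mul_conj, h2]
  rw [mul_assoc, ← h3]; group

/-- the images of the letters in `GA` -/
def jf : G0 ⊕ G1 → GA
  | .inl .z => gz
  | .inl .q => gq
  | .inr .t => gz⁻¹ * gd * gz
  | .inr .u => gr⁻¹ * gq * gr
  | .inr .v => gz * (gr⁻¹ * gr⁻¹ * gq * gr * gr) * gz⁻¹
  | .inr .f => gr⁻¹ * gd * gr * gz
  | .inr .g => gz * (gr⁻¹ * gr⁻¹ * gd * gr * gr)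

/-- the embedding of `F` into `GA` -/
def j : F →* GA := FreeGroup.lift jf

@[simp] lemma j_Z : j Z = gz := by simp [j, jf]
@[simp] lemma j_Q : j Q = gq := by simp [j, jf]
@[simp] lemma j_T : j T = gz⁻¹ * gd * gz := by simp [j, jf]
@[simp] lemma j_U : j U = gr⁻¹ * gq * gr := by simp [j, jf]
@[simp] lemma j_V : j V = gz * (gr⁻¹ * gr⁻¹ * gq * gr * gr) * gz⁻¹ := by simp [j, jf]
@[simp] lemma j_Ff : j Ff = gr⁻¹ * gd * gr * gz := by simp [j, jf]
@[simp] lemma j_Gg : j Gg = gz * (gr⁻¹ * gr⁻¹ * gd * gr * gr) := by simp [j, jf]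
@[simp] lemma j_Dd : j Dd = gd := by simp [Dd, mul_assoc]

/-- homomorphisms from `F` are equal if they agree on the letters -/
lemma homF_ext {H : Type*} [Monoid H] {φ ψ : F →* H} (hz : φ Z = ψ Z) (hq : φ Q = ψ Q)
    (ht : φ T = ψ T) (hu : φ U = ψ U) (hv : φ V = ψ V) (hf : φ Ff = ψ Ff) (hg : φ Gg = ψ Gg) :
    φ = ψ := by
  ext y
  rcases y with y | y <;> cases y <;> assumption

lemma conj_symm_rho (x : F) : rho⁻¹ * MulAut.conj x * rho = MulAut.conj (rho⁻¹ x) := by
  rw [mul_conj, mul_assoc, inv_mul_cancel, mul_one]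

/-- `j w` acts on `F` as the conjugation by `w` -/
theorem Phi_j (w : F) : Phi (j w) = MulAut.conj w := by
  have h : Phi.comp j = MulAut.conj := by
    apply homF_ext
    · simp [Phi_gz]
    · simp [Phi_gq]
    · simp only [MonoidHom.comp_apply, j_T, map_mul, map_inv, Phi_gz, Phi_gd]
      rw [← map_inv, ← map_mul, ← map_mul]; congr 1; simp [Dd, mul_assoc]
    · simp only [MonoidHom.comp_apply, j_U, map_mul, map_inv, Phi_gr, Phi_gq]
      rw [conj_symm_rho]; simp
    · simp only [MonoidHom.comp_apply, j_V, map_mul, map_inv, Phi_gr, Phi_gq, Phi_gz]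
      have e : rho⁻¹ * rho⁻¹ * MulAut.conj Q * rho * rho = MulAut.conj (rho⁻¹ (rho⁻¹ Q)) := by
        rw [← conj_symm_rho, ← conj_symm_rho]; group
      rw [e, ← map_inv, ← map_mul, ← map_mul]; congr 1; simp [mul_assoc]
    · simp only [MonoidHom.comp_apply, j_Ff, map_mul, map_inv, Phi_gr, Phi_gd, Phi_gz]
      rw [conj_symm_rho, ← map_mul]; congr 1; simp [Dd, mul_assoc]
    · simp only [MonoidHom.comp_apply, j_Gg, map_mul, map_inv, Phi_gr, Phi_gd, Phi_gz]
      have e : rho⁻¹ * rho⁻¹ * MulAut.conj Dd * rho * rho = MulAut.conj (rho⁻¹ (rho⁻¹ Dd)) := by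
        rw [← conj_symm_rho, ← conj_symm_rho]; group
      rw [e, ← map_mul]; congr 1; simp [Dd, mul_assoc]
  exact DFunLike.congr_fun h w

end Pool.Agent.Helper7.AG
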