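import Pool.Agent.Helper7.AG.Kfix
import Pool.Agent.Helper7.AG.Fcyc
import Pool.Agent.Helper7.AG.Frot
import Pool.Agent.Helper7.AG.Ffix

/-!
# Project AG, piece AG-AL: fixed elements and invariant conjugacy classes of `al`

`F` is the free product of `⟨z, q⟩` and `K` (`iA`, `iB`, `freeProd_sum`), `al` is the identity on
the first and `alK` on the second factor (`al_iA`, `al_iB`).
-/

namespace Pool.Agent.Helper7.AG

/-- the subgroup `⟨z, q, t⟩` -/
def Hh : Subgroup F := Subgroup.closure {Z, Q, T}

private lemma T_mem : T ∈ Hh := Subgroup.subset_closure (by simp)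

private lemma iA_mem (x : FreeGroup G0) : iA x ∈ Hh := by
  induction x using FreeGroup.induction_on with
  | C1 => rw [map_one]; exact one_mem _
  | of x =>
    cases x
    · rw [iA_z]; exact Subgroup.subset_closure (by simp)
    · rw [iA_q]; exact Subgroup.subset_closure (by simp)
  | inv_of x hx => rw [map_inv]; exact inv_mem hx
  | mul x y hx hy => rw [map_mul]; exact mul_mem hx hy

private lemma iB_mem {m : ℕ} (hm : 0 < m) {k : K} (h : (alK ^ m) k = k) : iB k ∈ Hh := by
  obtain ⟨n, rfl⟩ := alK_fix hm h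
  rw [map_zpow, iB_t]
  exact zpow_mem T_mem n

private lemma fp : FreeProd iA iB := freeProd_sum G0 G1

/-- Proof: `FreeProd.fix` and `alK_fix` (`m = 1`). -/
theorem al_fix {w : F} (h : al w = w) : w ∈ Hh := by
  have h1 := FreeProd.fix fp (e := al.toMonoidHom) (f := alK.toMonoidHom) al_iA al_iB
    alK.injective (x := w) h
  have h2 : Subgroup.closure (Set.range iA ∪ iB '' {b | alK.toMonoidHom b = b}) ≤ Hh := by
    rw [Subgroup.closure_le]
    rintro y (⟨a, rfl⟩ | ⟨b, hb, rfl⟩)
    · exact iA_mem a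
    · exact iB_mem (m := 1) one_pos (by rw [pow_one]; exact hb)
  exact h2 h1

/-- the action of `al` on the pairs -/
private def gm (p : FreeGroup G0 × K) : FreeGroup G0 × K := (p.1, alK p.2)

private lemma gm_iter (m : ℕ) (p : FreeGroup G0 × K) : gm^[m] p = (p.1, (alK ^ m) p.2) := by
  induction m with
  | zero => rfl
  | succ m ih =>
    rw [Function.iterate_succ_apply', ih, pow_succ', MulAut.mul_apply]
    rfl

private lemma al_pv (L : List (FreeGroup G0 × K)) : al (pv iA iB L) = pv iA iB (L.map gm) := by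
  induction L with
  | nil => simp [pv]
  | cons p L ih =>
    have e1 : pv iA iB (p :: L) = iA p.1 * iB p.2 * pv iA iB L := by simp [pv]
    have e2 : pv iA iB ((p :: L).map gm) = iA p.1 * iB (alK p.2) * pv iA iB (L.map gm) := by
      simp [pv, gm]
    rw [e1, e2, map_mul, map_mul, al_iA, al_iB, ih]

private lemma map_iter {L : List (FreeGroup G0 × K)} {n : ℕ} (h : L.map gm = L.rotate n) (m : ℕ) :
    L.map gm^[m] = L.rotate (m * n) := by
  induction m with
  | zero => simp
  | succ m ih =>
    have e : L.map gm^[m + 1] = (L.map gm).map gm^[m] := by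
      rw [List.map_map, ← Function.iterate_succ]
    rw [e, h, List.map_rotate, ih, List.rotate_rotate]
    congr 1
    ring

/-- Proof.  By `FreeProd.exists_cyc` some conjugate of `w` is in `iA.range` (`⊆ Hh`), or in
`iB.range`, or it is `w' = pv iA iB L`, `L` a list of pairs.  Then `al w' = pv iA iB L'` with
`L' = L.map (fun p => (p.1, alK p.2))`, and it is conjugate to `w'`; by `FreeProd.rotate`
`L' = L.rotate n`.  Iterating (`List.map_rotate`), `L.map (id × alKᵐ) = L.rotate (m n)`, and for
`m = L.length` the right side is `L`: so `alKᵐ p.2 = p.2` for the pairs `p` of `L`, and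
`p.2 ∈ ⟨t⟩` by `alK_fix`: `w' ∈ Hh`. -/
theorem al_conj {w y : F} (h : y * w * y⁻¹ = al w) :
    ∃ x : F, x * w * x⁻¹ ∈ Hh ∨ ∃ k : K, x * w * x⁻¹ = iB k := by
  obtain ⟨x, ⟨a, ha⟩ | ⟨b, hb⟩ | ⟨L, hL, hx⟩⟩ := fp.exists_cyc w
  · exact ⟨x, Or.inl (ha ▸ iA_mem a)⟩
  · exact ⟨x, Or.inr ⟨b, hb⟩⟩
  · refine ⟨x, Or.inl ?_⟩
    rw [hx]
    have hL' : PNt (L.map gm) := by
      refine ⟨by simpa using hL.1, ?_⟩
      intro p hp
      obtain ⟨p', hp', rfl⟩ := List.mem_map.1 hp
      refine ⟨(hL.2 p' hp').1, ?_⟩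
      intro h1
      exact (hL.2 p' hp').2 (by simpa [gm] using h1)
    have hy : (al x * y * x⁻¹) * pv iA iB L * (al x * y * x⁻¹)⁻¹ = pv iA iB (L.map gm) := by
      rw [← al_pv, ← hx, map_mul, map_mul, map_inv, ← h]
      group
    obtain ⟨n, hn⟩ := fp.rotate hL hL' hy
    have h1 := map_iter hn L.length
    rw [List.rotate_length_mul] at h1
    have h2 : ∀ p ∈ L, gm^[L.length] p = p :=
      List.map_inj_left.1 (h1.trans (List.map_id L).symm)
    have hpos : 0 < L.length := List.length_pos_of_ne_nil hL.1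
    have hmem : ∀ L' : List (FreeGroup G0 × K), (∀ p ∈ L', gm^[L.length] p = p) →
        pv iA iB L' ∈ Hh := by
      intro L'
      induction L' with
      | nil => intro _; simp [pv]
      | cons p L' ih =>
        intro h3
        have e1 : pv iA iB (p :: L') = iA p.1 * iB p.2 * pv iA iB L' := by simp [pv]
        rw [e1]
        refine mul_mem (mul_mem (iA_mem _) ?_) (ih fun q hq => h3 q (List.mem_cons_of_mem _ hq))
        have h4 := h3 p List.mem_cons_self
        rw [gm_iter] at h4
        exact iB_mem hpos (congrArg Prod.snd h4)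
    exact hmem L h2

end Pool.Agent.Helper7.AG
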