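import Pool.Agent.Helper7.AG.FP

/-!
# Project AG, piece AG-TW: twisted endomorphisms of free products
-/

namespace Pool.Agent.Helper7.AG

variable {A B Γ : Type*} [Group A] [Group B] [Group Γ] {i : A →* Γ} {j : B →* Γ}

/-- the value of a list of pairs, starting with the factor `B` -/
private def FtwV (i : A →* Γ) (j : B →* Γ) : List (B × A) → Γ
  | [] => 1
  | p :: L => j p.1 * i p.2 * FtwV i j L

/-- all entries are nontrivial, but the last element of `A` may be trivial -/
private def FtwOk : List (B × A) → Prop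
  | [] => True
  | [p] => p.1 ≠ 1
  | p :: q :: L => p.1 ≠ 1 ∧ p.2 ≠ 1 ∧ FtwOk (q :: L)

private lemma FtwOk_fst {p : B × A} {L : List (B × A)} (h : FtwOk (p :: L)) : p.1 ≠ 1 := by
  cases L with
  | nil => exact h
  | cons q L => exact h.1

private lemma FtwOk_tail {p : B × A} {L : List (B × A)} (h : FtwOk (p :: L)) : FtwOk L := by
  cases L with
  | nil => trivial
  | cons q L => exact h.2.2

private lemma FtwOk_cons {p : B × A} {L : List (B × A)} (h1 : p.1 ≠ 1) (h2 : p.2 ≠ 1 ∨ L = [])
    (h3 : FtwOk L) : FtwOk (p :: L) := by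
  cases L with
  | nil => exact h1
  | cons q L => exact ⟨h1, h2.resolve_right (by simp), h3⟩

/-- every element has such a form -/
private lemma Ftw_ex (l : List (A ⊕ B)) :
    ∃ (a : A) (L : List (B × A)), FtwOk L ∧ val i j l = i a * FtwV i j L := by
  induction l with
  | nil => exact ⟨1, [], trivial, by simp [FtwV]⟩
  | cons s l ih =>
    obtain ⟨a, L, hL, h⟩ := ih
    rw [val_cons, h]
    cases s with
    | inl c => exact ⟨c * a, L, hL, by simp [sv, mul_assoc]⟩
    | inr b =>
      by_cases hb : b = 1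
      · exact ⟨a, L, hL, by simp [sv, hb]⟩
      by_cases ha : a ≠ 1 ∨ L = []
      · exact ⟨1, (b, a) :: L, FtwOk_cons hb ha hL, by simp [sv, FtwV, mul_assoc]⟩
      push Not at ha
      obtain ⟨rfl, hL0⟩ := ha
      cases L with
      | nil => exact absurd rfl hL0
      | cons q L =>
        by_cases hq : b * q.1 = 1
        · refine ⟨q.2, L, FtwOk_tail hL, ?_⟩
          have : j b * j q.1 = 1 := by rw [← map_mul, hq, map_one]
          simp only [sv, FtwV, map_one, one_mul]
          rw [← mul_assoc, ← mul_assoc, this, one_mul]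
        · refine ⟨1, (b * q.1, q.2) :: L, ?_, by simp [sv, FtwV, mul_assoc]⟩
          cases L with
          | nil => exact hq
          | cons r L => exact ⟨hq, hL.2.1, hL.2.2⟩

open Classical in
/-- the reduced word -/
private noncomputable def FtwW : List (B × A) → List (A ⊕ B)
  | [] => []
  | p :: L => .inr p.1 :: (if p.2 = 1 then FtwW L else .inl p.2 :: FtwW L)

private lemma FtwW_head (L : List (B × A)) : ∀ s ∈ (FtwW L).head?, s.isLeft = false := by
  cases L with
  | nil => simp [FtwW]
  | cons p L => simp [FtwW]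

private lemma FtwW_val (L : List (B × A)) : val i j (FtwW L) = FtwV i j L := by
  induction L with
  | nil => rfl
  | cons p L ih =>
    by_cases h : p.2 = 1
    · simp [FtwW, FtwV, h, ih, sv]
    · simp [FtwW, FtwV, h, ih, sv, mul_assoc]

private lemma Ftw_red_cons {a : A} {l : List (A ⊕ B)} (ha : a ≠ 1) (hl : Red l)
    (hh : ∀ s ∈ l.head?, s.isLeft = false) : Red (.inl a :: l) := by
  cases l with
  | nil => exact red_single ha
  | cons s l =>
    rw [red_cons_cons]
    have := hh s (by simp)
    exact ⟨ha, by simp [this], hl⟩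

private lemma FtwW_red (L : List (B × A)) (hL : FtwOk L) : Red (FtwW L) := by
  induction L with
  | nil => exact red_nil
  | cons p L ih =>
    have h1 := ih (FtwOk_tail hL)
    have h2 := FtwOk_fst hL
    by_cases h : p.2 = 1
    · cases L with
      | nil =>
        simp only [FtwW, h, if_true]
        exact red_single h2
      | cons q L => exact absurd h hL.2.1
    · simp only [FtwW, h, if_false]
      rw [red_cons_cons]
      exact ⟨h2, by simp, Ftw_red_cons h h1 (FtwW_head L)⟩

private lemma Ftw_uniq (h : FreeProd i j) {a a' : A} {L L' : List (B × A)} (hL : FtwOk L)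
    (hL' : FtwOk L') (he : i a * FtwV i j L = i a' * FtwV i j L') : a = a' := by
  by_contra hn
  have hz : a'⁻¹ * a ≠ 1 := by
    intro h1
    exact hn (inv_mul_eq_one.1 h1).symm
  have h1 := h.uniq (.inl (a'⁻¹ * a) :: FtwW L) (FtwW L')
    (Ftw_red_cons hz (FtwW_red L hL) (FtwW_head L)) (FtwW_red L' hL') (by
      rw [val_cons, FtwW_val, FtwW_val]
      simp only [sv, map_mul, map_inv]
      rw [mul_assoc, he, inv_mul_cancel_left])
  have h2 := FtwW_head L' (.inl (a'⁻¹ * a)) (by rw [← h1]; simp)
  simp at h2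

/-- the image of the pairs under the twist -/
private def FtwC (d : A) : List (B × A) → List (B × A)
  | [] => []
  | [p] => [(p.1, d⁻¹ * p.2)]
  | p :: q :: L => (p.1, d⁻¹ * p.2 * d) :: FtwC d (q :: L)

private lemma FtwC_ok (d : A) (L : List (B × A)) (hL : FtwOk L) : FtwOk (FtwC d L) := by
  induction L with
  | nil => trivial
  | cons p L ih =>
    cases L with
    | nil => exact hL
    | cons q L =>
      refine FtwOk_cons hL.1 (Or.inl ?_) (ih hL.2.2)
      intro h
      apply hL.2.1
      change d⁻¹ * p.2 * d = 1 at h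
      calc p.2 = d * (d⁻¹ * p.2 * d) * d⁻¹ := by group
        _ = 1 := by rw [h]; group

private lemma FtwC_val {e : Γ →* Γ} {d : A} (he : ∀ a, e (i a) = i a)
    (he' : ∀ b, e (j b) = i d * j b * (i d)⁻¹) (q : B × A) (L : List (B × A)) :
    e (FtwV i j (q :: L)) = i d * FtwV i j (FtwC d (q :: L)) := by
  induction L generalizing q with
  | nil => simp [FtwV, FtwC, he, he', mul_assoc]
  | cons r L ih =>
    have h1 : FtwV i j (q :: r :: L) = j q.1 * i q.2 * FtwV i j (r :: L) := rfl
    have h2 : FtwV i j (FtwC d (q :: r :: L)) =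
        j q.1 * i (d⁻¹ * q.2 * d) * FtwV i j (FtwC d (r :: L)) := rfl
    rw [h1, h2, map_mul, map_mul, ih, he, he']
    simp only [map_mul, map_inv, mul_assoc]

/-- right multiplication by an element of `A` -/
private def FtwR (s : A) : List (B × A) → List (B × A)
  | [] => []
  | [p] => [(p.1, p.2 * s)]
  | p :: q :: L => p :: FtwR s (q :: L)

private lemma FtwR_ok (s : A) (L : List (B × A)) (hL : FtwOk L) : FtwOk (FtwR s L) := by
  induction L with
  | nil => trivial
  | cons p L ih =>
    cases L with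
    | nil => exact hL
    | cons q L => exact FtwOk_cons hL.1 (Or.inl hL.2.1) (ih hL.2.2)

private lemma FtwR_val (s : A) (q : B × A) (L : List (B × A)) :
    FtwV i j (q :: L) * i s = FtwV i j (FtwR s (q :: L)) := by
  induction L generalizing q with
  | nil => simp [FtwV, FtwR, mul_assoc]
  | cons r L ih =>
    have h1 : FtwV i j (q :: r :: L) = j q.1 * i q.2 * FtwV i j (r :: L) := rfl
    have h2 : FtwV i j (FtwR s (q :: r :: L)) =
        j q.1 * i q.2 * FtwV i j (FtwR s (r :: L)) := rfl
    rw [h1, h2, mul_assoc, ih]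

/-- AG-TW.  Proof: let `x = val l`, `l` reduced.  If `l` has no `B` syllable then `x = i a`.
Otherwise `x = i x₀ * j b₁ * i x₁ * ⋯ * j b_n * i x_n` with `n ≥ 1`, all `b_k ≠ 1` and `x_k ≠ 1`
for `0 < k < n` (`x₀`, `x_n` may be `1`).  Then
`e x = i (x₀ d) * j b₁ * i (d⁻¹ x₁ d) * j b₂ * ⋯ * j b_n * i (d⁻¹ x_n)` and
`i s * x * (i s)⁻¹ = i (s x₀) * j b₁ * i x₁ * ⋯ * j b_n * i (x_n s⁻¹)`; comparing the elements in
front of the first `B` syllable: `x₀ d = s x₀`.
(Convenient: represent such an element by `x₀` and the list of the pairs `(b_k, x_k)`, and show by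
`uniq` that `x₀` is determined; e.g. prove first: if `i x₀ * val l = i x₀' * val l'` with reduced
`l`, `l'` which start in `B` then `x₀ = x₀'`.) -/
theorem FreeProd.twist (h : FreeProd i j) {e : Γ →* Γ} {d s : A} (he : ∀ a, e (i a) = i a)
    (he' : ∀ b, e (j b) = i d * j b * (i d)⁻¹) {x : Γ} (hx : e x = i s * x * (i s)⁻¹) :
    (∃ a, x = i a) ∨ ∃ a : A, a * d = s * a := by
  obtain ⟨l, _, rfl⟩ := h.ex x
  obtain ⟨a, L, hL, hl⟩ := Ftw_ex (i := i) (j := j) l
  rw [hl] at hx ⊢
  cases L with
  | nil => exact Or.inl ⟨a, by simp [FtwV]⟩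
  | cons q L =>
    right
    refine ⟨a, Ftw_uniq h (FtwC_ok d _ hL) (FtwR_ok s⁻¹ _ hL) ?_⟩
    rw [map_mul, he, FtwC_val he he', ← map_inv, mul_assoc, mul_assoc, FtwR_val] at hx
    rw [map_mul, map_mul, mul_assoc, mul_assoc]
    exact hx

end Pool.Agent.Helper7.AG
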