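import Pool.Agent.Helper7.AG.Rel

/-!
# Project AG, piece AG-DEC: `GA = F ⟨a, b⟩`
-/

namespace Pool.Agent.Helper7.AG

/-- AG-DEC.  Proof: the set of the `x` with this property (for all `w`) is a subgroup, it contains
`ga` (`j_al`), `gr` (`j_rho`, `Phi_gr`), so `gb = gr * (ga ^ 3)⁻¹`, and `gc = gd * ga ^ 3`, where
`gd = j Dd`; `closure_gen`. -/
theorem conj_j (x : GA) (w : F) : x * j w * x⁻¹ = j (Phi x w) := by
  let H : Subgroup GA :=
    { carrier := {x | ∀ w : F, x * j w * x⁻¹ = j (Phi x w)}
      mul_mem' := by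
        intro x y hx hy w
        have h1 : x * y * j w * (x * y)⁻¹ = x * (y * j w * y⁻¹) * x⁻¹ := by group
        rw [h1, hy w, hx, map_mul, MulAut.mul_apply]
      one_mem' := by
        intro w
        simp
      inv_mem' := by
        intro x hx w
        have h1 := hx ((Phi x)⁻¹ w)
        rw [MulAut.apply_inv_self] at h1
        rw [map_inv, ← h1]
        group }
  have hga : ga ∈ H := fun w => by rw [j_al, Phi_ga]
  have hgr : gr ∈ H := fun w => by rw [j_rho, Phi_gr]
  have hgd : gd ∈ H := fun w => by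
    rw [Phi_gd, ← j_Dd, MulAut.conj_apply, map_mul, map_mul, map_inv]
  have hgb : gb ∈ H := by
    have h1 : gb = gr * (ga ^ 3)⁻¹ := by unfold gr; group
    rw [h1]
    exact H.mul_mem hgr (H.inv_mem (H.pow_mem hga 3))
  have hgc : gc ∈ H := by
    have h1 : gc = gd * ga ^ 3 := by unfold gd; group
    rw [h1]
    exact H.mul_mem hgd (H.pow_mem hga 3)
  have htop : Subgroup.closure ({ga, gb, gc} : Set GA) ≤ H := by
    rw [Subgroup.closure_le]
    intro y hy
    simp only [Set.mem_insert_iff, Set.mem_singleton_iff] at hy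
    rcases hy with rfl | rfl | rfl
    · exact hga
    · exact hgb
    · exact hgc
  rw [closure_gen] at htop
  exact htop (Subgroup.mem_top x) w

/-- AG-DEC.  Proof: the set of such products is a subgroup by `conj_j`, and it contains `ga`, `gb`
and `gc = j Dd * ga ^ 3`. -/
theorem decomp (x : GA) : ∃ (w : F) (y : GA), y ∈ Subgroup.closure {ga, gb} ∧ x = j w * y := by
  let H : Subgroup GA :=
    { carrier := {x | ∃ (w : F) (y : GA), y ∈ Subgroup.closure {ga, gb} ∧ x = j w * y}
      mul_mem' := by
        rintro x x' ⟨w, y, hy, rfl⟩ ⟨w', y', hy', rfl⟩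
        refine ⟨w * Phi y w', y * y', Subgroup.mul_mem _ hy hy', ?_⟩
        rw [map_mul, ← conj_j]
        group
      one_mem' := ⟨1, 1, Subgroup.one_mem _, by simp⟩
      inv_mem' := by
        rintro x ⟨w, y, hy, rfl⟩
        refine ⟨Phi y⁻¹ w⁻¹, y⁻¹, Subgroup.inv_mem _ hy, ?_⟩
        rw [← conj_j, map_inv]
        group }
  have hga : ga ∈ H := ⟨1, ga, Subgroup.subset_closure (by simp), by simp⟩
  have hgb : gb ∈ H := ⟨1, gb, Subgroup.subset_closure (by simp), by simp⟩
  have hgc : gc ∈ H := by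
    have h1 : gc = gd * ga ^ 3 := by unfold gd; group
    rw [h1]
    exact H.mul_mem ⟨Dd, 1, Subgroup.one_mem _, by simp⟩ (H.pow_mem hga 3)
  have htop : Subgroup.closure ({ga, gb, gc} : Set GA) ≤ H := by
    rw [Subgroup.closure_le]
    intro y hy
    simp only [Set.mem_insert_iff, Set.mem_singleton_iff] at hy
    rcases hy with rfl | rfl | rfl
    · exact hga
    · exact hgb
    · exact hgc
  rw [closure_gen] at htop
  exact htop (Subgroup.mem_top x)

end Pool.Agent.Helper7.AG
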