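import Pool.Agent.Helper7.AG.Act
import Pool.Agent.Helper7.AG.Fmal

/-!
# Project AG, piece AG-INJ: `F` embeds into `GA`
-/

namespace Pool.Agent.Helper7.AG

/-- the exponent of `Z` -/
private noncomputable def GinjE : F →* Multiplicative ℤ :=
  FreeGroup.lift (fun x => if x = .inl .z then Multiplicative.ofAdd 1 else 1)

private lemma GinjE_Z (m : ℤ) : GinjE (Z ^ m) = Multiplicative.ofAdd m := by
  rw [map_zpow]
  simp [GinjE, Z, ← ofAdd_zsmul]

private lemma GinjE_Q (m : ℤ) : GinjE (Q ^ m) = 1 := by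
  rw [map_zpow]
  simp [GinjE, Q]

/-- AG-INJ.  Proof: `j w = 1` gives `MulAut.conj w = 1` (`Phi_j`), so `w` commutes with `Z` and
with `Q`; by `commute_of_pow` `w = Z ^ m = Q ^ n`; exponents: `m = n = 0`. -/
theorem j_inj : Function.Injective j := by
  rw [injective_iff_map_eq_one]
  intro w hw
  have h1 : MulAut.conj w = 1 := by rw [← Phi_j, hw, map_one]
  have h2 : ∀ x : F, w * x = x * w := by
    intro x
    have h3 := DFunLike.congr_fun h1 x
    rw [MulAut.conj_apply, MulAut.one_apply] at h3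
    exact mul_inv_eq_iff_eq_mul.1 h3
  obtain ⟨m, hm⟩ := commute_of_pow (.inl .z : G0 ⊕ G1) one_ne_zero (x := w)
    (by rw [zpow_one]; exact h2 _)
  obtain ⟨n, hn⟩ := commute_of_pow (.inl .q : G0 ⊕ G1) one_ne_zero (x := w)
    (by rw [zpow_one]; exact h2 _)
  have h3 := GinjE_Z m
  rw [← hm, hn, GinjE_Q] at h3
  have h4 : m = 0 := (Multiplicative.ofAdd.injective (h3.symm.trans ofAdd_zero.symm))
  rw [hm, h4, zpow_zero]

/-- `gz` has infinite order -/
theorem gz_pow {n : ℤ} (h : gz ^ n = 1) : n = 0 := by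
  rw [← j_Z, ← map_zpow] at h
  have h1 := j_inj (h.trans (map_one j).symm)
  have h3 := GinjE_Z n
  rw [h1, map_one] at h3
  exact (Multiplicative.ofAdd.injective (h3.symm.trans ofAdd_zero.symm))
/- Proof: `gz = j Z`, `j_inj`, exponent of `Z` in `F`. -/

end Pool.Agent.Helper7.AG
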