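import Pool.Agent.Helper7.AG.Ginj
import Pool.Agent.Helper7.AG.Gdec

/-!
# Project AG, piece AG-CZ: the centralizer of `z`
-/

namespace Pool.Agent.Helper7.AG

/-- an element of the image of `F` which commutes with `gz` is a power of `gz` -/
theorem Grp_pow {w : F} (h : j w * gz = gz * j w) : ∃ n : ℤ, j w = gz ^ n := by
  classical
  have h1 : w * Z = Z * w := by
    apply j_inj
    rw [map_mul, map_mul, j_Z]
    exact h
  obtain ⟨m, hm⟩ := commute_of_pow (α := G0 ⊕ G1) (Sum.inl .z) (n := 1) one_ne_zero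
    (x := w) (by rw [zpow_one]; exact h1)
  refine ⟨m, ?_⟩
  have h2 : w = Z ^ m := hm
  rw [h2, map_zpow, j_Z]

/-- AG-CZ.  Proof: `x = j w * y` (`decomp`), `y` commutes with `gz = j Z` (`gz_comm`), so `w`
commutes with `Z` (`j_inj`) and `w = Z ^ n` (`commute_of_pow`, `n = 1` there), `j w = gz ^ n`, and
`gz ∈ ⟨ga, gb⟩`. -/
theorem cent_gz {x : GA} (h : x * gz = gz * x) : x ∈ Subgroup.closure {ga, gb} := by
  obtain ⟨w, y, hy, rfl⟩ := decomp x
  have hy1 := gz_comm hy
  have h1 : j w * gz = gz * j w := by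
    have h2 : j w * gz * y = gz * j w * y := by
      rw [mul_assoc, ← hy1, ← mul_assoc, h, mul_assoc]
    exact mul_right_cancel h2
  obtain ⟨n, hn⟩ := Grp_pow h1
  have hz : gz ∈ Subgroup.closure {ga, gb} := by
    unfold gz
    exact Subgroup.pow_mem _ (Subgroup.mul_mem _ (Subgroup.subset_closure (by simp))
      (Subgroup.subset_closure (by simp))) 3
  rw [hn]
  exact Subgroup.mul_mem _ (Subgroup.zpow_mem _ hz n) hy

/-- AG-CZ.  Proof: an element of `⟨ga, gb⟩` commutes with `gz`; then as above. -/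
theorem j_inter {w : F} (h : j w ∈ Subgroup.closure {ga, gb}) : ∃ n : ℤ, j w = gz ^ n :=
  Grp_pow (gz_comm h)

end Pool.Agent.Helper7.AG
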