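import Pool.Agent.Helper7.AG.Fixal

/-!
# Project AG, piece AG-IC: invariant conjugacy classes
-/

namespace Pool.Agent.Helper7.AG

/-- the exponent of a letter -/
def InvE (s : G0 ⊕ G1) : F →* Multiplicative ℤ :=
  FreeGroup.lift fun y => if y = s then Multiplicative.ofAdd 1 else 1

lemma InvE_of (s y : G0 ⊕ G1) :
    InvE s (FreeGroup.of y) = if y = s then Multiplicative.ofAdd 1 else 1 := by
  unfold InvE
  rw [FreeGroup.lift_apply_of]

/-- homomorphisms to `ℤ` in terms of the exponents -/
lemma Inv_expand (χ : F →* Multiplicative ℤ) (w : F) :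
    Multiplicative.toAdd (χ w) =
      Multiplicative.toAdd (χ Z) * Multiplicative.toAdd (InvE (.inl .z) w) +
      Multiplicative.toAdd (χ Q) * Multiplicative.toAdd (InvE (.inl .q) w) +
      Multiplicative.toAdd (χ T) * Multiplicative.toAdd (InvE (.inr .t) w) +
      Multiplicative.toAdd (χ U) * Multiplicative.toAdd (InvE (.inr .u) w) +
      Multiplicative.toAdd (χ V) * Multiplicative.toAdd (InvE (.inr .v) w) +
      Multiplicative.toAdd (χ Ff) * Multiplicative.toAdd (InvE (.inr .f) w) +
      Multiplicative.toAdd (χ Gg) * Multiplicative.toAdd (InvE (.inr .g) w) := by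
  have h : χ = (InvE (.inl .z)) ^ (Multiplicative.toAdd (χ Z)) *
      (InvE (.inl .q)) ^ (Multiplicative.toAdd (χ Q)) *
      (InvE (.inr .t)) ^ (Multiplicative.toAdd (χ T)) *
      (InvE (.inr .u)) ^ (Multiplicative.toAdd (χ U)) *
      (InvE (.inr .v)) ^ (Multiplicative.toAdd (χ V)) *
      (InvE (.inr .f)) ^ (Multiplicative.toAdd (χ Ff)) *
      (InvE (.inr .g)) ^ (Multiplicative.toAdd (χ Gg)) := by
    apply FreeGroup.ext_hom
    intro y
    simp only [MonoidHom.mul_apply, MonoidHom.zpow_apply, InvE_of]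
    apply Multiplicative.toAdd.injective
    rcases y with y | y <;> cases y <;> simp
  conv_lhs => rw [h]
  simp only [MonoidHom.mul_apply, MonoidHom.zpow_apply, toAdd_mul, toAdd_zpow, smul_eq_mul]

/-- the retraction on `⟨z, q, t⟩` -/
def InvR : F →* F := FreeGroup.lift fun y => match y with
  | .inl .z => Z
  | .inl .q => Q
  | .inr .t => T
  | .inr .u => 1
  | .inr .v => 1
  | .inr .f => 1
  | .inr .g => 1

lemma InvR_Hh {w : F} (h : w ∈ Hh) : InvR w = w := by
  unfold Hh at h
  induction h using Subgroup.closure_induction with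
  | mem x hx =>
    rcases hx with rfl | rfl | rfl <;> simp [InvR]
  | one => exact map_one _
  | mul x y _ _ hx hy => rw [map_mul, hx, hy]
  | inv x _ hx => rw [map_inv, hx]

lemma InvR_rho {w : F} (h : w ∈ Hh) : ∃ n : ℤ, InvR (rho w) = Z ^ n := by
  unfold Hh at h
  induction h using Subgroup.closure_induction with
  | mem x hx =>
    rcases hx with rfl | rfl | rfl
    · exact ⟨1, by simp [InvR]⟩
    · exact ⟨0, by simp [InvR]⟩
    · exact ⟨-1, by simp [InvR]⟩
  | one => exact ⟨0, by simp⟩
  | mul x y _ _ hx hy =>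
    obtain ⟨n, hn⟩ := hx
    obtain ⟨m, hm⟩ := hy
    exact ⟨n + m, by rw [map_mul, map_mul, hn, hm, zpow_add]⟩
  | inv x _ hx =>
    obtain ⟨n, hn⟩ := hx
    exact ⟨-n, by rw [map_inv, map_inv, hn, zpow_neg]⟩

lemma Inv_conj {φ : MulAut F} {w x y : F} (h : y * w * y⁻¹ = φ w) :
    (φ x * y * x⁻¹) * (x * w * x⁻¹) * (φ x * y * x⁻¹)⁻¹ = φ (x * w * x⁻¹) := by
  rw [map_mul, map_mul, map_inv, ← h]
  group

lemma Inv_char {φ : MulAut F} {w y : F} (h : y * w * y⁻¹ = φ w) (χ : F →* Multiplicative ℤ) :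
    χ (φ w) = χ w := by
  rw [← h, map_mul, map_mul, map_inv, mul_inv_cancel_comm]

/-- Proof.  `al_conj`.
* If `w' = x w x⁻¹ ∈ Hh`, then `rho w' ∈ closure {Z, Z V Z⁻¹, Gg Z⁻¹} = closure {Z, V, Gg}` and
`rho w'` is conjugate to `w'`: `w' = g v g⁻¹`, `v ∈ closure {Z, V, Gg}`.  Let `R : F →* F` kill
`U, V, Ff, Gg` and fix `Z, Q, T`.  `R w' = w'`, and `R v` is a power of `Z`.
* If `w' = iB k`: let `χ : F →* ℤ`.  The exponents `n_s` of the letters in `w'` (those of `w`)
satisfy `n_z = n_q = 0`; invariance under `al` (exponents of `al w'` equal to those of `w'`):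
`n_g = n_u`, `n_u = n_v`, `n_v = n_f`; invariance under `rho`, exponent of `Q`: `n_u = 0`; exponent
of `Z`: `n_f - n_t = 0` (`rho T = Gg Z⁻¹`, `rho Ff = Z T`).  So all are `0`, and `χ w = 0`.
(To use exponents: `FreeGroup.lift (fun y => if y = s then ofAdd 1 else 1)`, and every `χ` to a
commutative group is determined on `w` by them; or use the abelianization.) -/
theorem inv_class {w : F} (h1 : ∃ y, y * w * y⁻¹ = al w) (h2 : ∃ y, y * w * y⁻¹ = rho w) :
    (∃ (x : F) (n : ℤ), x * w * x⁻¹ = Z ^ n) ∨ ∀ χ : F →* Multiplicative ℤ, χ w = 1 := by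
  obtain ⟨y1, hy1⟩ := h1
  obtain ⟨y2, hy2⟩ := h2
  obtain ⟨x, hx⟩ := al_conj hy1
  rcases hx with hx | ⟨k, hk⟩
  · left
    set w' := x * w * x⁻¹ with hw'
    have e := Inv_conj (x := x) hy2
    rw [← hw'] at e
    set g := rho x * y2 * x⁻¹ with hg
    obtain ⟨n, hn⟩ := InvR_rho hx
    refine ⟨InvR g * x, n, ?_⟩
    have e2 := congrArg InvR e
    rw [map_mul, map_mul, map_inv, InvR_Hh hx, hn] at e2
    rw [← e2, hw']
    group
  · right
    intro χ
    have hal : ∀ χ : F →* Multiplicative ℤ, χ (al (iB k)) = χ (iB k) := fun χ => by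
      rw [← hk]
      exact Inv_char (Inv_conj hy1) χ
    have hrho : ∀ χ : F →* Multiplicative ℤ, χ (rho (iB k)) = χ (iB k) := fun χ => by
      rw [← hk]
      exact Inv_char (Inv_conj hy2) χ
    -- the exponents of `z` and `q`
    have hz : Multiplicative.toAdd (InvE (.inl .z) (iB k)) = 0 := by
      have : (InvE (.inl .z)).comp iB = 1 := by
        apply FreeGroup.ext_hom
        intro y
        simp [iB, InvE_of]
      have h3 := DFunLike.congr_fun this k
      rw [MonoidHom.comp_apply] at h3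
      rw [h3]
      rfl
    have hq : Multiplicative.toAdd (InvE (.inl .q) (iB k)) = 0 := by
      have : (InvE (.inl .q)).comp iB = 1 := by
        apply FreeGroup.ext_hom
        intro y
        simp [iB, InvE_of]
      have h3 := DFunLike.congr_fun this k
      rw [MonoidHom.comp_apply] at h3
      rw [h3]
      rfl
    have key : ∀ (φ : MulAut F) (s : G0 ⊕ G1), InvE s (φ (iB k)) = InvE s (iB k) →
        Multiplicative.toAdd (InvE s (iB k)) =
        Multiplicative.toAdd (InvE s (φ T)) * Multiplicative.toAdd (InvE (.inr .t) (iB k)) +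
        Multiplicative.toAdd (InvE s (φ U)) * Multiplicative.toAdd (InvE (.inr .u) (iB k)) +
        Multiplicative.toAdd (InvE s (φ V)) * Multiplicative.toAdd (InvE (.inr .v) (iB k)) +
        Multiplicative.toAdd (InvE s (φ Ff)) * Multiplicative.toAdd (InvE (.inr .f) (iB k)) +
        Multiplicative.toAdd (InvE s (φ Gg)) * Multiplicative.toAdd (InvE (.inr .g) (iB k)) := by
      intro φ s h
      have h3 := Inv_expand ((InvE s).comp φ.toMonoidHom) (iB k)
      simp only [MonoidHom.comp_apply, MulEquiv.coe_toMonoidHom] at h3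
      rw [hz, hq] at h3
      rw [← h, h3]
      ring
    have a1 := key al (.inr .u) (hal _)
    have a2 := key al (.inr .v) (hal _)
    have a3 := key al (.inr .f) (hal _)
    have b1 := key rho (.inl .q) (hrho _)
    have b2 := key rho (.inr .t) (hrho _)
    simp only [al_T, al_U, al_V, al_Ff, al_Gg, map_mul, map_inv, InvE_of] at a1 a2 a3
    simp only [rho_T, rho_U, rho_V, rho_Ff, rho_Gg, map_mul, map_inv, InvE_of] at b1 b2
    rw [hq] at b1
    simp at a1 a2 a3 b1 b2
    have c := Inv_expand χ (iB k)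
    rw [hz, hq] at c
    have hu : Multiplicative.toAdd (InvE (.inr .u) (iB k)) = 0 := by rw [b1]
    have hwk : χ w = χ (iB k) := by
      rw [← hk, map_mul, map_mul, map_inv, mul_inv_cancel_comm]
    rw [hwk]
    apply Multiplicative.toAdd.injective
    rw [c]
    rw [b2, a3, a2, ← a1, hu]
    simp

end Pool.Agent.Helper7.AG
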