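import Pool.Agent.Helper7.AG.Aut
import Pool.Agent.Helper7.AG.Fsum
import Pool.Agent.Helper7.AG.Fmal
import Pool.Agent.Helper7.AG.Ftw

/-!
# Project AG, piece AG-KF: the elements of `K` which a power of `alK` fixes

Proof.  `K = ⟨t, u, v, f, g⟩` is also free on `t, u, v, w, p` with `w = g f t`, `p = (g v)⁻¹`
(`g = p⁻¹ v⁻¹`, `f = v p w t⁻¹`), so `K` is the free product of `L = ⟨t, u, v, w⟩` and `⟨p⟩`
(`freeProd_sum`, `FreeProd.equiv`; e.g. with letters `Fin 4 ⊕ Unit`).  `α = alK` maps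
`t ↦ t`, `u ↦ v ↦ w ↦ t⁻¹ u t`, `p ↦ w⁻¹ p⁻¹ v⁻¹ u⁻¹ t`, so `α² p = t⁻¹ v p v⁻¹ t` and
`D = α⁶` satisfies `D l = t⁻² l t²` for `l ∈ L`, `D p = t⁻² c p c⁻¹ t²`, `c = w t⁻¹ u v ∈ L`.
Hence (as `D t = t` and `D c = t⁻² c t²`) `Dᵐ l = t⁻²ᵐ l t²ᵐ`, `Dᵐ p = t⁻²ᵐ cᵐ p c⁻ᵐ t²ᵐ`.
Let `αᵐ k = k`, `m ≥ 1`.  Then `Dᵐ k = k`, i.e. `τ k = t²ᵐ k t⁻²ᵐ` for
`τ x = t²ᵐ Dᵐ(x) t⁻²ᵐ`, which is the identity on `L` and `p ↦ cᵐ p c⁻ᵐ`.  By `FreeProd.twist`
(`d = cᵐ`, `s = t²ᵐ`) `k ∈ L`, or `a cᵐ = t²ᵐ a` for some `a ∈ L`; the latter is impossible: count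
the exponents of `u`.  So `k ∈ L`, and `k` commutes with `t²ᵐ`: `commute_of_pow`.
-/

namespace Pool.Agent.Helper7.AG

open FreeGroup

/-- the letters of the factor `L` -/
private inductive G4 | t | u | v | w

/-- images of the new letters -/
private def kfixf : G4 ⊕ Unit → K
  | .inl .t => K.t
  | .inl .u => K.u
  | .inl .v => K.v
  | .inl .w => K.g * K.f * K.t
  | .inr () => (K.g * K.v)⁻¹

/-- the old letters in terms of the new ones -/
private def kfixi : G1 → FreeGroup (G4 ⊕ Unit)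
  | .t => of (.inl .t)
  | .u => of (.inl .u)
  | .v => of (.inl .v)
  | .f => of (.inl .v) * of (.inr ()) * of (.inl .w) * (of (.inl .t))⁻¹
  | .g => (of (.inr ()))⁻¹ * (of (.inl .v))⁻¹

/-- the change of letters -/
private def kfixE : FreeGroup (G4 ⊕ Unit) ≃* K where
  toFun := lift kfixf
  invFun := lift kfixi
  left_inv := by
    intro x
    have : (lift kfixi).comp (lift kfixf) = MonoidHom.id (FreeGroup (G4 ⊕ Unit)) := by
      ext y
      rcases y with y | y
      · cases y <;> simp [kfixf, kfixi, mul_assoc]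
      · simp [kfixf, kfixi]
    exact DFunLike.congr_fun this x
  right_inv := by
    intro x
    have : (lift kfixf).comp (lift kfixi) = MonoidHom.id K := by
      ext y
      cases y <;> simp [kfixf, kfixi, mul_assoc]
    exact DFunLike.congr_fun this x
  map_mul' := _root_.map_mul _

private def kfixI : FreeGroup G4 →* K := kfixE.toMonoidHom.comp (FreeGroup.map Sum.inl)

private def kfixJ : FreeGroup Unit →* K := kfixE.toMonoidHom.comp (FreeGroup.map Sum.inr)

private lemma kfixI_of (x : G4) : kfixI (of x) = kfixf (.inl x) := by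
  change lift kfixf (FreeGroup.map Sum.inl (of x)) = _
  simp

private lemma kfixJ_of (x : Unit) : kfixJ (of x) = kfixf (.inr x) := by
  change lift kfixf (FreeGroup.map Sum.inr (of x)) = _
  simp

private lemma kfix_prod : FreeProd kfixI kfixJ := (freeProd_sum G4 Unit).equiv kfixE

/-- the element `c` -/
private def kfixc : FreeGroup G4 := of .w * (of .t)⁻¹ * of .u * of .v

private lemma kfixI_c : kfixI kfixc = K.g * K.f * K.u * K.v := by
  simp [kfixc, kfixI_of, kfixf, mul_assoc]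

/-- `x ↦ t² α⁶(x) t⁻²` -/
private def kfixT : MulAut K := MulAut.conj (K.t ^ 2) * alK ^ 6

private lemma alK_six (x : K) : (alK ^ 6) x = alK (alK (alK (alK (alK (alK x))))) := rfl

private lemma kfixT_apply (x : K) :
    kfixT x = K.t ^ 2 * alK (alK (alK (alK (alK (alK x))))) * (K.t ^ 2)⁻¹ := rfl

private lemma kfixT_I (l : FreeGroup G4) : kfixT (kfixI l) = kfixI l := by
  have : kfixT.toMonoidHom.comp kfixI = kfixI := by
    ext y
    change kfixT (kfixI (of y)) = kfixI (of y)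
    rw [kfixI_of, kfixT_apply]
    cases y <;> simp [kfixf, mul_assoc, pow_two]
  exact DFunLike.congr_fun this l

private lemma kfixT_J (b : FreeGroup Unit) :
    kfixT (kfixJ b) = kfixI kfixc * kfixJ b * (kfixI kfixc)⁻¹ := by
  have : kfixT.toMonoidHom.comp kfixJ = (MulAut.conj (kfixI kfixc)).toMonoidHom.comp kfixJ := by
    ext y
    change kfixT (kfixJ (of y)) = kfixI kfixc * kfixJ (of y) * (kfixI kfixc)⁻¹
    rw [kfixJ_of, kfixT_apply, kfixI_c]
    cases y
    simp [kfixf, mul_assoc, pow_two]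
  exact DFunLike.congr_fun this b

private lemma kfixT_pow_I (m : ℕ) (l : FreeGroup G4) : (kfixT ^ m) (kfixI l) = kfixI l := by
  induction m with
  | zero => rfl
  | succ m ih => rw [pow_succ, MulAut.mul_apply, kfixT_I, ih]

private lemma kfixT_pow_J (m : ℕ) (b : FreeGroup Unit) :
    (kfixT ^ m) (kfixJ b) = kfixI (kfixc ^ m) * kfixJ b * (kfixI (kfixc ^ m))⁻¹ := by
  induction m with
  | zero => simp
  | succ m ih =>
    rw [pow_succ', MulAut.mul_apply, ih, _root_.map_mul, _root_.map_mul, _root_.map_inv, kfixT_I,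
      kfixT_J, pow_succ, _root_.map_mul]
    group

private lemma kfix_comm : Commute (MulAut.conj (K.t ^ 2)) (alK ^ 6) := by
  have h : ∀ x, alK (alK (alK (alK (alK (alK (K.t ^ 2 * x * (K.t ^ 2)⁻¹)))))) =
      K.t ^ 2 * alK (alK (alK (alK (alK (alK x))))) * (K.t ^ 2)⁻¹ := by
    intro x
    simp
  refine MulEquiv.ext fun x => ?_
  exact (h x).symm

/-- AG-KF -/
theorem alK_fix {m : ℕ} (hm : 0 < m) {k : K} (h : (alK ^ m) k = k) : ∃ n : ℤ, k = K.t ^ n := by
  have h1 : ((alK ^ 6) ^ m) k = k := by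
    rw [← pow_mul, Nat.mul_comm, pow_mul]
    have h2 : ∀ n : ℕ, ((alK ^ m) ^ n) k = k := by
      intro n
      induction n with
      | zero => rfl
      | succ n ih => rw [pow_succ, MulAut.mul_apply, h, ih]
    exact h2 6
  have h2 : (kfixT ^ m) k = kfixI (of .t ^ (2 * m)) * k * (kfixI (of .t ^ (2 * m)))⁻¹ := by
    have h3 : kfixT ^ m = MulAut.conj ((K.t ^ 2) ^ m) * (alK ^ 6) ^ m := by
      rw [kfixT, kfix_comm.mul_pow, ← map_pow MulAut.conj (K.t ^ 2) m]
    rw [h3, MulAut.mul_apply, h1, MulAut.conj_apply, map_pow, kfixI_of, ← pow_mul]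
    rfl
  rcases kfix_prod.twist (e := (kfixT ^ m).toMonoidHom) (d := kfixc ^ m) (s := of .t ^ (2 * m))
    (kfixT_pow_I m) (kfixT_pow_J m) h2 with ⟨a, rfl⟩ | ⟨a, ha⟩
  · have h4 : (kfixT ^ m) (kfixI a) = kfixI a := kfixT_pow_I m a
    rw [h4] at h2
    have h5 : kfixI (of .t ^ (2 * m)) = K.t ^ ((2 * m : ℕ) : ℤ) := by
      rw [map_pow, kfixI_of, zpow_natCast]
      rfl
    rw [h5] at h2
    refine commute_of_pow G1.t (n := ((2 * m : ℕ) : ℤ)) (by omega) ?_
    exact eq_mul_inv_iff_mul_eq.1 h2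
  · exfalso
    let φ : FreeGroup G4 →* Multiplicative ℤ :=
      lift fun x => match x with
        | .t => 1
        | .u => Multiplicative.ofAdd 1
        | .v => 1
        | .w => 1
    have h3 := congrArg φ ha
    have h4 : φ kfixc = Multiplicative.ofAdd 1 := by
      simp [φ, kfixc]
    have h5 : φ (of .t) = 1 := by simp [φ]
    rw [_root_.map_mul, _root_.map_mul, map_pow, map_pow, h4, h5, one_pow, one_mul] at h3
    have h6 : (Multiplicative.ofAdd (1 : ℤ)) ^ m = 1 := mul_eq_left.1 h3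
    rw [← ofAdd_nsmul, ofAdd_eq_one] at h6
    simp at h6
    omega

end Pool.Agent.Helper7.AG
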