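import Pool.Agent.Helper7.AG.Pi

/-!
# Project AG, piece AG-B: automorphisms which fix `z`
-/

namespace Pool.Agent.Helper7.AG

open Matrix

private lemma fixgz_surj (X : SL) : ∃ y ∈ Subgroup.closure ({ga, gb} : Set GA), pp 2 y = X := by
  have h : (Subgroup.closure ({ga, gb} : Set GA)).map (pp 2) = ⊤ := by
    rw [MonoidHom.map_closure, Set.image_pair, pp_ga, pp_gb, closure_AB]
  have hX : X ∈ (Subgroup.closure ({ga, gb} : Set GA)).map (pp 2) := by
    rw [h]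
    exact Subgroup.mem_top X
  exact Subgroup.mem_map.mp hX

private lemma fixgz_key {φ : MulAut GA} (hz : φ gz = gz) {y x0 y0 : GA}
    (hy : y ∈ Subgroup.closure ({ga, gb} : Set GA))
    (hx0 : x0 ∈ Subgroup.closure ({ga, gb} : Set GA))
    (hy0 : y0 ∈ Subgroup.closure ({ga, gb} : Set GA)) {s : ℤ} (hs : s = 1 ∨ s = -1)
    (hm : ((pp 2 (φ x0) : SL) : Matrix (Fin 2) (Fin 2) ℤ) * ((pp 2 y : SL) :
      Matrix (Fin 2) (Fin 2) ℤ) = s • (((pp 2 y : SL) : Matrix (Fin 2) (Fin 2) ℤ) *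
        ((pp 2 y0 : SL) : Matrix (Fin 2) (Fin 2) ℤ))) :
    ∃ i : ℤ, (MulAut.conj y⁻¹ * φ) x0 = gz ^ i * y0 := by
  have e0 : (MulAut.conj y⁻¹ * φ) x0 = y⁻¹ * φ x0 * y := by
    rw [MulAut.mul_apply, MulAut.conj_apply, inv_inv]
  have hφx : φ x0 ∈ Subgroup.closure ({ga, gb} : Set GA) := by
    apply cent_gz
    conv_lhs => rw [← hz]
    conv_rhs => rw [← hz]
    rw [← map_mul, ← map_mul, gz_comm hx0]
  have hw : y⁻¹ * φ x0 * y * y0⁻¹ ∈ Subgroup.closure ({ga, gb} : Set GA) :=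
    Subgroup.mul_mem _ (Subgroup.mul_mem _ (Subgroup.mul_mem _ (Subgroup.inv_mem _ hy) hφx) hy)
      (Subgroup.inv_mem _ hy0)
  have hpm : pp 2 (y⁻¹ * φ x0 * y * y0⁻¹) = 1 ∨ pp 2 (y⁻¹ * φ x0 * y * y0⁻¹) = -1 := by
    rcases hs with rfl | rfl
    · left
      have h1 : pp 2 (φ x0) * pp 2 y = pp 2 y * pp 2 y0 := by
        apply Subtype.ext
        rw [one_smul] at hm
        exact hm
      rw [map_mul, map_mul, map_mul, map_inv, map_inv, mul_assoc (pp 2 y)⁻¹, h1]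
      group
    · right
      have h1 : pp 2 (φ x0) * pp 2 y = -(pp 2 y * pp 2 y0) := by
        apply Subtype.ext
        rw [neg_one_smul] at hm
        exact hm
      rw [map_mul, map_mul, map_mul, map_inv, map_inv, mul_assoc (pp 2 y)⁻¹, h1, mul_neg,
        neg_mul]
      congr 1
      group
  obtain ⟨w, hw1⟩ := mem_range_j.mp hpm
  rw [hw1] at hw
  obtain ⟨n, hn⟩ := j_inter hw
  refine ⟨n, ?_⟩
  rw [e0, ← hn, ← hw1]
  group

private lemma fixgz_zpow_comm {x : GA} (hx : x ∈ Subgroup.closure ({ga, gb} : Set GA)) (i : ℤ) :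
    gz ^ i * x = x * gz ^ i := by
  have h : Commute x gz := gz_comm hx
  exact (h.zpow_right i).eq.symm

private lemma fixgz_ga : ga ∈ Subgroup.closure ({ga, gb} : Set GA) :=
  Subgroup.subset_closure (Set.mem_insert _ _)

private lemma fixgz_gb : gb ∈ Subgroup.closure ({ga, gb} : Set GA) :=
  Subgroup.subset_closure (Set.mem_insert_of_mem _ rfl)

private lemma fixgz_sq : (ga * gb * ga) ^ 2 = gz := by
  unfold gz
  have h := ga_gb
  calc (ga * gb * ga) ^ 2 = ga * gb * ga * (ga * gb * ga) := pow_two _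
    _ = ga * gb * ga * (gb * ga * gb) := by rw [h]
    _ = (ga * gb) ^ 3 := by simp only [pow_succ, pow_zero, one_mul]; group

private lemma fixgz_inv : (ga⁻¹ * gb⁻¹) ^ 3 = gz⁻¹ := by
  have h1 : gb * gz = gz * gb := gz_comm fixgz_gb
  have h2 : (ga⁻¹ * gb⁻¹) ^ 3 = (gb * gz * gb⁻¹)⁻¹ := by
    unfold gz
    simp only [pow_succ, pow_zero, one_mul]
    group
  rw [h2, h1]
  group

/-- AG-B.  Proof.  Let `M` be as in `char_pp`.  `M` or `M * !![1, 0; 0, -1]` is in `SL`, so (since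
`mA`, `mB` generate `SL`) there is `h ∈ ⟨ga, gb⟩` with `pp 2 h = M` or `pp 2 h = M * !![1, 0; 0, -1]`.
Replace `φ` by `φ' = (MulAut.conj h)⁻¹ * φ`; still `φ' gz = gz` (`gz_comm`), and
`pp 2 (φ' x) = ± pp 2 x` for all `x` in the first case, `= ± J pp 2 x J`, `J = !![1, 0; 0, -1]`, in
the second case.  By `cent_gz`, `φ'` maps `⟨ga, gb⟩` to itself.  Second case: `J mU J = mA⁻¹ mB⁻¹`,
so `pp 2 (φ' (ga gb)) = ± pp 2 (ga⁻¹ gb⁻¹)` and, by `mem_range_j` and `j_inter`,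
`φ' (ga gb) = ga⁻¹ gb⁻¹ gz ^ i`; cubes: `gz = gz ^ (-1 + 3 i)` (`(ga⁻¹ gb⁻¹)³ = gz⁻¹`),
contradiction (`gz_pow`).  First case: `φ' (ga gb) = ga gb gz ^ i`, cubes: `3 i = 0`;
`φ' (ga gb ga) = ga gb ga gz ^ l`, squares (`(ga gb ga)² = gz`): `l = 0`.  So `φ' ga = ga`,
`φ' gb = gb`. -/
theorem fix_gz {φ : MulAut GA} (h : φ gz = gz) :
    ∃ y : GA, (MulAut.conj y * φ) ga = ga ∧ (MulAut.conj y * φ) gb = gb := by
  obtain ⟨M, hM, hs⟩ := char_pp φ
  have hab : ga * gb ∈ Subgroup.closure ({ga, gb} : Set GA) :=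
    Subgroup.mul_mem _ fixgz_ga fixgz_gb
  have haba : ga * gb * ga ∈ Subgroup.closure ({ga, gb} : Set GA) :=
    Subgroup.mul_mem _ hab fixgz_ga
  have hψz : ∀ y : GA, y ∈ Subgroup.closure ({ga, gb} : Set GA) →
      (MulAut.conj y⁻¹ * φ) gz = gz := by
    intro y hy
    rw [MulAut.mul_apply, MulAut.conj_apply, inv_inv, h, mul_assoc, ← gz_comm hy, ← mul_assoc,
      inv_mul_cancel, one_mul]
  rcases hM with hM | hM
  · obtain ⟨y, hy, hyM⟩ := fixgz_surj ⟨M, hM⟩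
    have hyM' : ((pp 2 y : SL) : Matrix (Fin 2) (Fin 2) ℤ) = M := by rw [hyM]
    have hk : ∀ x0 ∈ Subgroup.closure ({ga, gb} : Set GA),
        ∃ i : ℤ, (MulAut.conj y⁻¹ * φ) x0 = gz ^ i * x0 := by
      intro x0 hx0
      obtain ⟨s, hs1, hs2⟩ := hs x0
      refine fixgz_key h hy hx0 hx0 hs1 ?_
      rw [hyM']
      exact hs2
    have hz := hψz y hy
    set ψ := MulAut.conj y⁻¹ * φ with hψ
    obtain ⟨i, hi⟩ := hk _ hab
    obtain ⟨l, hl⟩ := hk _ haba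
    have hi0 : i = 0 := by
      have h1 : ψ ((ga * gb) ^ 3) = (gz ^ i * (ga * gb)) ^ 3 := by rw [map_pow, hi]
      have h2 : Commute (gz ^ i) (ga * gb) := fixgz_zpow_comm hab i
      rw [h2.mul_pow] at h1
      change ψ gz = (gz ^ i) ^ 3 * gz at h1
      rw [hz] at h1
      have h3 : gz ^ (i * 3) = 1 := by
        rw [_root_.zpow_mul]
        have h4 : (1 : GA) * gz = (gz ^ i) ^ 3 * gz := by rw [one_mul]; exact h1
        exact_mod_cast (mul_right_cancel h4).symm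
      have := gz_pow h3
      omega
    have hl0 : l = 0 := by
      have h1 : ψ ((ga * gb * ga) ^ 2) = (gz ^ l * (ga * gb * ga)) ^ 2 := by rw [map_pow, hl]
      have h2 : Commute (gz ^ l) (ga * gb * ga) := fixgz_zpow_comm haba l
      rw [h2.mul_pow, fixgz_sq, hz] at h1
      have h3 : gz ^ (l * 2) = 1 := by
        rw [_root_.zpow_mul]
        have h4 : (1 : GA) * gz = (gz ^ l) ^ 2 * gz := by rw [one_mul]; exact h1
        exact_mod_cast (mul_right_cancel h4).symm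
      have := gz_pow h3
      omega
    rw [hi0, zpow_zero, one_mul] at hi
    rw [hl0, zpow_zero, one_mul, map_mul, hi] at hl
    have ha : ψ ga = ga := mul_left_cancel hl
    rw [map_mul, ha] at hi
    exact ⟨y⁻¹, ha, mul_left_cancel hi⟩
  · exfalso
    have hMJ : (M * !![1, 0; 0, -1]).det = 1 := by
      rw [Matrix.det_mul, hM, Matrix.det_fin_two]
      simp
    obtain ⟨y, hy, hyM⟩ := fixgz_surj ⟨M * !![1, 0; 0, -1], hMJ⟩
    have hyM' : ((pp 2 y : SL) : Matrix (Fin 2) (Fin 2) ℤ) = M * !![1, 0; 0, -1] := by rw [hyM]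
    have hz := hψz y hy
    have hk : ∃ i : ℤ, (MulAut.conj y⁻¹ * φ) (ga * gb) = gz ^ i * (ga⁻¹ * gb⁻¹) := by
      obtain ⟨s, hs1, hs2⟩ := hs (ga * gb)
      refine fixgz_key h hy hab (Subgroup.mul_mem _ (Subgroup.inv_mem _ fixgz_ga)
        (Subgroup.inv_mem _ fixgz_gb)) hs1 ?_
      have hJ : ((pp 2 (ga * gb) : SL) : Matrix (Fin 2) (Fin 2) ℤ) * !![1, 0; 0, -1] =
          !![1, 0; 0, -1] * ((pp 2 (ga⁻¹ * gb⁻¹) : SL) : Matrix (Fin 2) (Fin 2) ℤ) := by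
        rw [map_mul, map_mul, map_inv, map_inv, pp_ga, pp_gb]
        ext a b
        fin_cases a <;> fin_cases b <;>
          simp [mA, mB, Matrix.mul_apply, Fin.sum_univ_two, Matrix.SpecialLinearGroup.coe_inv,
            Matrix.adjugate_fin_two]
      rw [hyM', ← Matrix.mul_assoc, hs2, Matrix.smul_mul, Matrix.mul_assoc, hJ,
        ← Matrix.mul_assoc]
    obtain ⟨i, hi⟩ := hk
    set ψ := MulAut.conj y⁻¹ * φ with hψ
    have h1 : ψ ((ga * gb) ^ 3) = (gz ^ i * (ga⁻¹ * gb⁻¹)) ^ 3 := by rw [map_pow, hi]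
    have h2 : Commute (gz ^ i) (ga⁻¹ * gb⁻¹) := fixgz_zpow_comm (Subgroup.mul_mem _
      (Subgroup.inv_mem _ fixgz_ga) (Subgroup.inv_mem _ fixgz_gb)) i
    rw [h2.mul_pow, fixgz_inv] at h1
    change ψ gz = (gz ^ i) ^ 3 * gz⁻¹ at h1
    rw [hz] at h1
    have h3 : gz ^ (i * 3 - 2) = 1 := by
      rw [_root_.zpow_sub, _root_.zpow_mul]
      have h4 : gz ^ (3 : ℕ) = gz ^ (3 : ℤ) := by norm_cast
      have h5 : (gz ^ i) ^ (3 : ℤ) = gz * gz := by
        have h6 : (gz ^ i) ^ (3 : ℤ) = (gz ^ i) ^ (3 : ℕ) := by norm_cast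
        rw [h6]
        exact (eq_mul_inv_iff_mul_eq.mp h1).symm
      rw [h5]
      group
    have := gz_pow h3
    omega

end Pool.Agent.Helper7.AG
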