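import Pool.Agent.Helper7.AG.Fixal
import Pool.Agent.Helper7.AG.Fv

/-!
# Project AG, piece AG-W: the image of `d`

Proof of `word_step`.  `F` is also free on `Z, P0 := Gg Ff T, D0 := T⁻¹ U Gg⁻¹, Q, T, V, Gg`
(`Ff = Gg⁻¹ P0 T⁻¹`, `U = T D0 Gg`).  `W = W(Z, Q, T)` is a word in `Z, Q, T`, and
`rho⁻¹ W = W(Z, U, Z⁻¹ Ff)`, `rho⁻¹ (rho⁻¹ W) = W(Z, Z⁻¹ V Z, Z⁻² Gg Z)`.
For a group `Γ` and `z, p, d, q, t : Γ` let `κ : F →* Γ` be the homomorphism with
`Z ↦ z, Q ↦ q, T ↦ t, V ↦ 1, Gg ↦ 1, Ff ↦ p t⁻¹, U ↦ t d`; it maps `P0 ↦ p`, `D0 ↦ d`.  As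
`E = Z Z (rho⁻¹ (rho⁻¹ W)) (rho⁻¹ W) W ∈ closure {Z, P0, D0}`, the value `κ E` does not depend on
`q`, `t`.  So (cancel the common factor `z² W(z, 1, z⁻¹)`; here `W(x, y, w)` is the image of `W`
under `Z ↦ x, Q ↦ y, T ↦ w`)
  (E1)  `W(z, t d, z⁻¹ p t⁻¹) W(z, q, t) = W(z, d, z⁻¹ p) W(z, 1, 1)` for all `z, p, d, q, t`.
`q = 1`: `W(z, q, t) = W(z, 1, t)` in every group, so (free group) `W = V(Z, T)` is a word in `Z, T`
only, `V(z, t) := W(z, 1, t)`.  (E1) with `p = z y`:
  (E2)  `V(z, y t⁻¹) V(z, t) = V(z, y) V(z, 1)`.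
`y = t`: `V(z, 1)` commutes with `V(z, t)`.  `V(z, 1) = z ^ n`; if `n ≠ 0` then `W` is a power of
`Z` (`commute_of_pow`), excluded.  So `V(z, 1) = 1` and, with `y = y' t`, `V(z, y' t) =
V(z, y') V(z, t)`.  Now `mult_word` with `A = ⟨z⟩`, `B = ⟨y⟩`, `B' = ⟨y', t⟩` free,
`f₀ y = y' t`, `f₁ y = y'`, `f₂ y = t` gives `V = 1` (excluded) or `V(z, y) = z^m y^e z^-m` with
`(y' t)^e = y'^e t^e`, `e ≠ 0`; so `e = 1` (e.g. compare in a suitable group, or reduced words).
-/

namespace Pool.Agent.Helper7.AG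

open FreeGroup

/-- Proof: `be = (al * rho) * al * (al * rho)⁻¹` (from `rel_ara`), so `(al * rho)⁻¹ E` is fixed by
`al`, use `al_fix`; `al (rho Z) = Z`, `al (rho Q) = Z (Gg Ff T) Z⁻¹`,
`al (rho T) = T⁻¹ U Gg⁻¹ Z⁻¹`.  (`be = rho * (al ^ 3)⁻¹` is defined in `Act`, stated here without
it.) -/
theorem be_fix {E : F} (h : (rho * (al ^ 3)⁻¹) E = E) :
    E ∈ Subgroup.closure ({Z, Gg * Ff * T, T⁻¹ * U * Gg⁻¹} : Set F) := by
  have h0 : rho * (al ^ 3)⁻¹ = (al * rho) * al * (al * rho)⁻¹ := by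
    have h1 := rel_ara
    calc rho * (al ^ 3)⁻¹ = (rho * al⁻¹ * al⁻¹ * rho) * rho⁻¹ * al⁻¹ := by group
      _ = (al * rho * al) * rho⁻¹ * al⁻¹ := by rw [h1]
      _ = (al * rho) * al * (al * rho)⁻¹ := by group
  have h1 : al ((al * rho)⁻¹ E) = (al * rho)⁻¹ E := by
    rw [h0, MulAut.mul_apply, MulAut.mul_apply] at h
    apply (al * rho).injective
    rw [MulAut.apply_inv_self]
    exact h
  have h2 := al_fix h1
  have h3 : E = (al * rho) ((al * rho)⁻¹ E) := by
    rw [← MulAut.mul_apply, mul_inv_cancel, MulAut.one_apply]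
  rw [h3]
  set C := Subgroup.closure ({Z, Gg * Ff * T, T⁻¹ * U * Gg⁻¹} : Set F) with hC
  have hZ : Z ∈ C := Subgroup.subset_closure (by simp)
  have hP : Gg * Ff * T ∈ C := Subgroup.subset_closure (by simp)
  have hD : T⁻¹ * U * Gg⁻¹ ∈ C := Subgroup.subset_closure (by simp)
  have h4 : Hh ≤ C.comap (al * rho).toMonoidHom := by
    rw [Hh, Subgroup.closure_le]
    rintro x (rfl | rfl | rfl)
    · change al (rho Z) ∈ C
      rw [rho_Z, al_Z]
      exact hZ
    · change al (rho Q) ∈ C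
      have : al (rho Q) = Z * (Gg * Ff * T) * Z⁻¹ := by
        rw [rho_Q, _root_.map_mul, _root_.map_mul, _root_.map_inv, al_Z, al_V]
      rw [this]
      exact C.mul_mem (C.mul_mem hZ hP) (C.inv_mem hZ)
    · change al (rho T) ∈ C
      have : al (rho T) = T⁻¹ * U * Gg⁻¹ * Z⁻¹ := by
        rw [rho_T, _root_.map_mul, _root_.map_inv, al_Z, al_Gg]
      rw [this]
      exact C.mul_mem hD (C.inv_mem hZ)
  exact h4 h2

/-- evaluation of words in three letters -/
private def wev {Γ : Type} [Group Γ] (x y w : Γ) : FreeGroup (Fin 3) →* Γ := lift ![x, y, w]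

private lemma map_wev {Γ Γ' : Type} [Group Γ] [Group Γ'] (φ : Γ →* Γ') (x y w : Γ)
    (a : FreeGroup (Fin 3)) : φ (wev x y w a) = wev (φ x) (φ y) (φ w) a := by
  have : φ.comp (wev x y w) = wev (φ x) (φ y) (φ w) := by
    ext i
    fin_cases i <;> simp [wev]
  exact DFunLike.congr_fun this a

/-- evaluation of words in two letters -/
private def wev2 {Γ : Type} [Group Γ] (x w : Γ) : FreeGroup (Unit ⊕ Unit) →* Γ :=
  lift fun s => s.elim (fun _ => x) (fun _ => w)

private lemma map_wev2 {Γ Γ' : Type} [Group Γ] [Group Γ'] (φ : Γ →* Γ') (x w : Γ)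
    (a : FreeGroup (Unit ⊕ Unit)) : φ (wev2 x w a) = wev2 (φ x) (φ w) a := by
  have : φ.comp (wev2 x w) = wev2 (φ x) (φ w) := by
    ext i
    rcases i with i | i <;> simp [wev2]
  exact DFunLike.congr_fun this a

/-- the homomorphisms `κ` -/
private def kap {Γ : Type} [Group Γ] (z p d q t : Γ) : F →* Γ :=
  lift fun s => match s with
    | .inl .z => z
    | .inl .q => q
    | .inr .t => t
    | .inr .u => t * d
    | .inr .v => 1
    | .inr .f => p * t⁻¹
    | .inr .g => 1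

section
variable {Γ : Type} [Group Γ] (z p d q t : Γ)

private lemma kap_Z : kap z p d q t Z = z := by simp [kap]
private lemma kap_Q : kap z p d q t Q = q := by simp [kap]
private lemma kap_T : kap z p d q t T = t := by simp [kap]
private lemma kap_U : kap z p d q t U = t * d := by simp [kap]
private lemma kap_V : kap z p d q t V = 1 := by simp [kap]
private lemma kap_Ff : kap z p d q t Ff = p * t⁻¹ := by simp [kap]
private lemma kap_Gg : kap z p d q t Gg = 1 := by simp [kap]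
end

private lemma kap_indep {Γ : Type} [Group Γ] (z p d q t q' t' : Γ) {E : F}
    (hE : E ∈ Subgroup.closure ({Z, Gg * Ff * T, T⁻¹ * U * Gg⁻¹} : Set F)) :
    kap z p d q t E = kap z p d q' t' E := by
  refine MonoidHom.eqOn_closure (f := kap z p d q t) (g := kap z p d q' t') ?_ hE
  rintro x (rfl | rfl | rfl)
  · rw [kap_Z, kap_Z]
  · simp only [_root_.map_mul, kap_Gg, kap_Ff, kap_T]
    group
  · simp only [_root_.map_mul, _root_.map_inv, kap_Gg, kap_U, kap_T]
    group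

private lemma kap_E {Γ : Type} [Group Γ] (z p d q t : Γ) (W₀ : FreeGroup (Fin 3)) :
    kap z p d q t (Z * Z * (rho⁻¹ (rho⁻¹ (wev Z Q T W₀))) * (rho⁻¹ (wev Z Q T W₀)) *
      (wev Z Q T W₀)) =
    z * z * wev z 1 z⁻¹ W₀ * wev z (t * d) (z⁻¹ * (p * t⁻¹)) W₀ * wev z q t W₀ := by
  have h1 : rho⁻¹ (wev Z Q T W₀) = wev Z U (Z⁻¹ * Ff) W₀ := by
    have := map_wev (MulEquiv.symm rho).toMonoidHom Z Q T W₀
    change rho⁻¹ (wev Z Q T W₀) =
      wev (MulEquiv.symm rho Z) (MulEquiv.symm rho Q) (MulEquiv.symm rho T) W₀ at this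
    rw [this, rhoi_Z, rhoi_Q, rhoi_T]
  have h2 : rho⁻¹ (wev Z U (Z⁻¹ * Ff) W₀) = wev Z (Z⁻¹ * V * Z) (Z⁻¹ * (Z⁻¹ * Gg * Z)) W₀ := by
    have := map_wev (MulEquiv.symm rho).toMonoidHom Z U (Z⁻¹ * Ff) W₀
    change rho⁻¹ (wev Z U (Z⁻¹ * Ff) W₀) =
      wev (MulEquiv.symm rho Z) (MulEquiv.symm rho U) (MulEquiv.symm rho (Z⁻¹ * Ff)) W₀ at this
    rw [this, rhoi_Z, rhoi_U, _root_.map_mul, _root_.map_inv, rhoi_Z, rhoi_Ff]
  rw [h1, h2]
  simp only [_root_.map_mul, map_wev, _root_.map_inv, kap_Z, kap_Q, kap_T, kap_U, kap_V, kap_Ff,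
    kap_Gg, mul_one, inv_mul_cancel]

/-- the free group with one generator -/
private lemma unit_pow (a : FreeGroup Unit) : ∃ n : ℤ, a = of () ^ n := by
  have h2 : a ∈ Subgroup.closure (Set.range (of : Unit → FreeGroup Unit)) := by
    rw [FreeGroup.closure_range_of]
    exact Subgroup.mem_top a
  rw [Set.range_unique] at h2
  obtain ⟨n, hn⟩ := Subgroup.mem_closure_singleton.1 h2
  exact ⟨n, hn.symm⟩

/-- powers in the affine group -/
private lemma exp_eq_one {e : ℤ} (he : e ≠ 0)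
    (h : ∀ (Γ : Type) [Group Γ] (y t : Γ), (y * t) ^ e = y ^ e * t ^ e) : e = 1 := by
  let u : ℚˣ := Units.mk0 2 (by norm_num)
  let y : Equiv.Perm ℚ := MulAction.toPermHom ℚˣ ℚ u
  let t : Equiv.Perm ℚ := Equiv.addRight 1
  let c : Equiv.Perm ℚ := Equiv.addRight (-2)
  have hy : ∀ (n : ℤ) (x : ℚ), (y ^ n) x = 2 ^ n * x := by
    intro n x
    have h1 : y ^ n = MulAction.toPermHom ℚˣ ℚ (u ^ n) := (map_zpow _ _ _).symm
    rw [h1]
    change ((u ^ n : ℚˣ) : ℚ) * x = _
    rw [Units.val_zpow_eq_zpow_val]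
    rfl
  have ht : ∀ (n : ℤ) (x : ℚ), (t ^ n) x = x + n := by
    intro n x
    rw [Equiv.zsmul_addRight]
    simp
  have hci : c⁻¹ = Equiv.addRight (2 : ℚ) := by
    rw [Equiv.neg_addRight, neg_neg]
  have hyt : y * t = c * y * c⁻¹ := by
    rw [hci]
    ext x
    change (2 : ℚ) * (x + 1) = 2 * (x + 2) + -2
    ring
  have h1 := h _ y t
  rw [hyt, conj_zpow] at h1
  have h2 := congrArg (fun s : Equiv.Perm ℚ => s 0) h1
  simp only [Equiv.Perm.mul_apply, ht, hy] at h2
  have h3 : c⁻¹ (0 : ℚ) = 2 := by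
    rw [hci]
    change (0 : ℚ) + 2 = 2
    norm_num
  have h4 : ∀ x : ℚ, c x = x - 2 := by
    intro x
    change x + -2 = x - 2
    ring
  rw [h3, h4, zero_add] at h2
  -- `2 ^ e * (2 - e) = 2`
  have h5 : (2 : ℚ) ^ e * (2 - e) = 2 := by linear_combination h2
  have h6 : (0 : ℚ) < 2 ^ e := by positivity
  by_contra hne
  rcases lt_or_gt_of_ne he with hlt | hgt
  · obtain ⟨n, rfl⟩ : ∃ n : ℕ, e = -((n : ℤ) + 1) := ⟨(-e - 1).toNat, by omega⟩
    have h7 : (2 : ℚ) ^ (-((n : ℤ) + 1)) = ((2 : ℚ) ^ (n + 1))⁻¹ := by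
      rw [zpow_neg]
      norm_cast
    rw [h7] at h5
    have h8 : (0 : ℚ) < 2 ^ (n + 1) := by positivity
    have h9 : (2 : ℚ) - ((-((n : ℤ) + 1) : ℤ) : ℚ) = 2 * 2 ^ (n + 1) := by
      field_simp at h5
      linarith
    push_cast at h9
    have h10 : ((n : ℕ) + 3 : ℕ) = 2 * 2 ^ (n + 1) := by
      have : ((n : ℚ) + 3) = 2 * 2 ^ (n + 1) := by linarith
      exact_mod_cast this
    have h11 : n + 2 ≤ 2 ^ (n + 1) := Nat.lt_pow_self (n := n + 1) (by norm_num : 1 < 2)
    omega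
  · have h7 : (2 : ℤ) ≤ e := by omega
    have h8 : (2 : ℚ) ≤ e := by exact_mod_cast h7
    nlinarith

/-- AG-W -/
theorem word_step {W : F} (hW : W ∈ Hh) (hz : ∀ n : ℤ, W ≠ Z ^ n)
    (hE : Z * Z * (rho⁻¹ (rho⁻¹ W)) * (rho⁻¹ W) * W ∈
      Subgroup.closure ({Z, Gg * Ff * T, T⁻¹ * U * Gg⁻¹} : Set F)) :
    ∃ n : ℤ, W = Z ^ n * T * Z ^ (-n) := by
  -- `W` is a word
  obtain ⟨W₀, rfl⟩ : ∃ W₀, wev Z Q T W₀ = W := by
    have h1 : Hh ≤ (wev Z Q T).range := by
      rw [Hh, Subgroup.closure_le]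
      rintro x (rfl | rfl | rfl)
      · exact ⟨of 0, by simp [wev]⟩
      · exact ⟨of 1, by simp [wev]⟩
      · exact ⟨of 2, by simp [wev]⟩
    exact h1 hW
  -- (E1)
  have E1 : ∀ (Γ : Type) [Group Γ] (z p d q t : Γ),
      wev z (t * d) (z⁻¹ * (p * t⁻¹)) W₀ * wev z q t W₀ =
        wev z d (z⁻¹ * p) W₀ * wev z 1 1 W₀ := by
    intro Γ _ z p d q t
    have h1 := kap_indep z p d q t 1 1 hE
    rw [kap_E, kap_E, mul_assoc, mul_assoc (z * z * wev z 1 z⁻¹ W₀)] at h1
    have h2 := mul_left_cancel h1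
    rw [h2, one_mul, inv_one, mul_one]
  -- independence of `q`
  have hq : ∀ (Γ : Type) [Group Γ] (z q t : Γ), wev z q t W₀ = wev z 1 t W₀ := by
    intro Γ _ z q t
    have h1 := E1 Γ z 1 1 q t
    have h2 := E1 Γ z 1 1 1 t
    exact mul_left_cancel (h1.trans h2.symm)
  -- the word in two letters
  set V₀ : FreeGroup (Unit ⊕ Unit) := wev (of (.inl ())) 1 (of (.inr ())) W₀ with hV₀
  have hV : ∀ (Γ : Type) [Group Γ] (z q t : Γ), wev z q t W₀ = wev2 z t V₀ := by
    intro Γ _ z q t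
    rw [hq, hV₀, map_wev]
    simp [wev2]
  have hWV : wev Z Q T W₀ = wev2 Z T V₀ := hV _ _ _ _
  have E2 : ∀ (Γ : Type) [Group Γ] (z y t : Γ),
      wev2 z (y * t⁻¹) V₀ * wev2 z t V₀ = wev2 z y V₀ * wev2 z 1 V₀ := by
    intro Γ _ z y t
    have h1 := E1 Γ z (z * y) 1 1 t
    rw [hV, hV, hV, hV] at h1
    have h2 : z⁻¹ * (z * y * t⁻¹) = y * t⁻¹ := by group
    have h3 : z⁻¹ * (z * y) = y := by group
    rwa [h2, h3] at h1
  -- `V(z, 1) = 1`
  have hone : ∀ (Γ : Type) [Group Γ] (z : Γ), wev2 z 1 V₀ = 1 := by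
    have h1 : ∃ n : ℤ, wev2 (of (Sum.inl ()) : FreeGroup (Unit ⊕ Unit)) 1 V₀ =
        of (Sum.inl ()) ^ n := by
      have h2 : ∀ x : FreeGroup (Unit ⊕ Unit), wev2 (of (Sum.inl ()) : FreeGroup (Unit ⊕ Unit)) 1 x
          ∈ Subgroup.zpowers (of (Sum.inl ()) : FreeGroup (Unit ⊕ Unit)) := by
        intro x
        have h3 : (⊤ : Subgroup (FreeGroup (Unit ⊕ Unit))) ≤
            (Subgroup.zpowers (of (Sum.inl ()) : FreeGroup (Unit ⊕ Unit))).comap
              (wev2 (of (Sum.inl ()) : FreeGroup (Unit ⊕ Unit)) 1) := by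
          rw [← FreeGroup.closure_range_of, Subgroup.closure_le]
          rintro _ ⟨i, rfl⟩
          rcases i with i | i
          · change wev2 (of (Sum.inl ()) : FreeGroup (Unit ⊕ Unit)) 1 (of (Sum.inl i)) ∈
              Subgroup.zpowers (of (Sum.inl ()) : FreeGroup (Unit ⊕ Unit))
            have : wev2 (of (Sum.inl ()) : FreeGroup (Unit ⊕ Unit)) 1 (of (Sum.inl i)) =
              of (Sum.inl ()) := by simp [wev2]
            rw [this]
            exact Subgroup.mem_zpowers _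
          · change wev2 (of (Sum.inl ()) : FreeGroup (Unit ⊕ Unit)) 1 (of (Sum.inr i)) ∈
              Subgroup.zpowers (of (Sum.inl ()) : FreeGroup (Unit ⊕ Unit))
            have : wev2 (of (Sum.inl ()) : FreeGroup (Unit ⊕ Unit)) 1 (of (Sum.inr i)) = 1 := by
              simp [wev2]
            rw [this]
            exact Subgroup.one_mem _
        exact h3 (Subgroup.mem_top x)
      obtain ⟨n, hn⟩ := Subgroup.mem_zpowers_iff.1 (h2 V₀)
      exact ⟨n, hn.symm⟩
    obtain ⟨n, hn⟩ := h1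
    have hid : wev2 (of (Sum.inl ())) (of (Sum.inr ())) V₀ = V₀ := by
      have : wev2 (of (Sum.inl ())) (of (Sum.inr ())) = MonoidHom.id (FreeGroup (Unit ⊕ Unit)) := by
        ext i
        rcases i with i | i <;> simp [wev2]
      rw [this]
      rfl
    rcases eq_or_ne n 0 with rfl | hn0
    · intro Γ _ z
      have h2 := congrArg (wev2 z (1 : Γ)) hn
      rw [map_wev2, zpow_zero, _root_.map_one] at h2
      have h3 : wev2 z (1 : Γ) (of (Sum.inl ())) = z := by simp [wev2]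
      rw [h3] at h2
      exact h2
    · exfalso
      have h2 := E2 (FreeGroup (Unit ⊕ Unit)) (of (Sum.inl ())) (of (Sum.inr ())) (of (Sum.inr ()))
      rw [mul_inv_cancel, hid, hn] at h2
      obtain ⟨m, hm⟩ := commute_of_pow (Sum.inl () : Unit ⊕ Unit) hn0 h2.symm
      apply hz m
      rw [hWV, hm, map_zpow]
      simp [wev2]
  have E3 : ∀ (Γ : Type) [Group Γ] (z y t : Γ),
      wev2 z (y * t) V₀ = wev2 z y V₀ * wev2 z t V₀ := by
    intro Γ _ z y t
    have h1 := E2 Γ z (y * t) t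
    rw [mul_inv_cancel_right, hone, mul_one] at h1
    exact h1.symm
  -- the normal form
  let fy : FreeGroup Unit →* FreeGroup Bool := lift fun _ => of false * of true
  have hret : ∀ b : Bool, ∃ r : FreeGroup Bool →* FreeGroup Unit,
      (∀ x : FreeGroup Unit, r (FreeGroup.map (fun _ => b) x) = x) ∧
      (∀ x : FreeGroup Unit, r (FreeGroup.map (fun _ => !b) x) = 1) ∧ ∀ x, r (fy x) = x := by
    intro b
    let r : FreeGroup Bool →* FreeGroup Unit := lift fun c => if c = b then of () else 1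
    refine ⟨r, fun x => ?_, fun x => ?_, fun x => ?_⟩
    · have : r.comp (FreeGroup.map (fun _ : Unit => b)) = MonoidHom.id (FreeGroup Unit) := by
        ext i
        simp [r]
      exact DFunLike.congr_fun this x
    · have : r.comp (FreeGroup.map (fun _ : Unit => !b)) = 1 := by
        ext i
        simp [r]
      exact DFunLike.congr_fun this x
    · have : r.comp fy = MonoidHom.id (FreeGroup Unit) := by
        ext i
        cases b <;> simp [r, fy]
      exact DFunLike.congr_fun this x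
  obtain ⟨r₀, hr₀, hr₀', hr₀''⟩ := hret false
  obtain ⟨r₁, hr₁, -, -⟩ := hret true
  have key := mult_word (freeProd_sum Unit Unit) (freeProd_sum Unit Bool)
    (e₀ := wev2 (of (.inl ())) (of (.inr false) * of (.inr true)))
    (e₁ := wev2 (of (.inl ())) (of (.inr false)))
    (e₂ := wev2 (of (.inl ())) (of (.inr true)))
    (f₀ := fy) (f₁ := FreeGroup.map (fun _ => false)) (f₂ := FreeGroup.map (fun _ => true))
    (by
      intro a
      have : (wev2 (of (Sum.inl ())) (of (Sum.inr false) * of (Sum.inr true))).comp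
          (FreeGroup.map Sum.inl) = (FreeGroup.map (Sum.inl : Unit → Unit ⊕ Bool)) := by
        ext i
        simp [wev2]
      exact DFunLike.congr_fun this a)
    (by
      intro a
      have : (wev2 (of (Sum.inl ())) (of (Sum.inr false))).comp
          (FreeGroup.map Sum.inl) = (FreeGroup.map (Sum.inl : Unit → Unit ⊕ Bool)) := by
        ext i
        simp [wev2]
      exact DFunLike.congr_fun this a)
    (by
      intro a
      have : (wev2 (of (Sum.inl ())) (of (Sum.inr true))).comp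
          (FreeGroup.map Sum.inl) = (FreeGroup.map (Sum.inl : Unit → Unit ⊕ Bool)) := by
        ext i
        simp [wev2]
      exact DFunLike.congr_fun this a)
    (by
      intro b
      have : (wev2 (of (Sum.inl ())) (of (Sum.inr false) * of (Sum.inr true))).comp
          (FreeGroup.map Sum.inr) = (FreeGroup.map (Sum.inr : Bool → Unit ⊕ Bool)).comp fy := by
        ext i
        simp [wev2, fy]
      exact DFunLike.congr_fun this b)
    (by
      intro b
      have : (wev2 (of (Sum.inl ())) (of (Sum.inr false))).comp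
          (FreeGroup.map Sum.inr) = (FreeGroup.map (Sum.inr : Bool → Unit ⊕ Bool)).comp
            (FreeGroup.map (fun _ => false)) := by
        ext i
        simp [wev2]
      exact DFunLike.congr_fun this b)
    (by
      intro b
      have : (wev2 (of (Sum.inl ())) (of (Sum.inr true))).comp
          (FreeGroup.map Sum.inr) = (FreeGroup.map (Sum.inr : Bool → Unit ⊕ Bool)).comp
            (FreeGroup.map (fun _ => true)) := by
        ext i
        simp [wev2]
      exact DFunLike.congr_fun this b)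
    (Function.LeftInverse.injective hr₀'')
    (Function.LeftInverse.injective hr₀)
    (Function.LeftInverse.injective hr₁)
    (by
      intro b b' hb _ h
      apply hb
      have h2 := congrArg r₀ h
      rw [_root_.map_mul, _root_.map_one, hr₀] at h2
      have h3 := hr₀' b'
      simp only [Bool.not_false] at h3
      rw [h3, mul_one] at h2
      exact h2) (x := V₀) (E3 _ _ _ _)
  rcases key with h1 | ⟨a, b, hb, hab, hf⟩
  · exfalso
    apply hz 0
    rw [hWV, h1, _root_.map_one, zpow_zero]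
  · obtain ⟨n, rfl⟩ : ∃ n : ℤ, a = of () ^ n := unit_pow a
    obtain ⟨e, rfl⟩ : ∃ e : ℤ, b = of () ^ e := unit_pow b
    have he : e ≠ 0 := by
      rintro rfl
      exact hb (zpow_zero _)
    have he1 : e = 1 := by
      refine exp_eq_one he fun Γ _ y t => ?_
      let s : FreeGroup Bool →* Γ := lift fun c => if c then t else y
      have h2 := congrArg s hf
      rw [_root_.map_mul, map_zpow, map_zpow, map_zpow, map_zpow, map_zpow, map_zpow] at h2
      simpa [s, fy] using h2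
    refine ⟨n, ?_⟩
    rw [hWV, hab, he1]
    simp [wev2]

end Pool.Agent.Helper7.AG
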