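import Pool.Agent.Helper7.AG.Pi
import Pool.Agent.Helper7.AG.Word

/-!
# Project AG, piece AG-C: automorphisms which fix `a` and `b`
-/

namespace Pool.Agent.Helper7.AG

private lemma fix_ab_ne (n : ℤ) : Dd ≠ Z ^ n := by
  intro h
  have h1 := congrArg (FreeGroup.lift (fun x : G0 ⊕ G1 =>
    if x = Sum.inr G1.t then Multiplicative.ofAdd (1 : ℤ) else 1)) h
  have h2 : FreeGroup.lift (fun x : G0 ⊕ G1 =>
      if x = Sum.inr G1.t then Multiplicative.ofAdd (1 : ℤ) else 1) Z = 1 := by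
    simp
  have h3 : FreeGroup.lift (fun x : G0 ⊕ G1 =>
      if x = Sum.inr G1.t then Multiplicative.ofAdd (1 : ℤ) else 1) T =
      Multiplicative.ofAdd (1 : ℤ) := by
    simp
  rw [map_zpow, h2, one_zpow] at h1
  unfold Dd at h1
  rw [map_mul, map_mul, map_inv, h2, h3, inv_one, mul_one, one_mul] at h1
  have h4 : (1 : ℤ) = 0 := congrArg Multiplicative.toAdd h1
  exact one_ne_zero h4

/-- AG-C.  Proof.  `gd = j Dd`, so `φ gd = j W` (`char_j`).  `φ gc = φ gd * ga ^ 3`.  `ga` commutes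
with `φ gd`, so `al W = W` (`conj_j`, `j_inj`) and `W ∈ Hh` (`al_fix`).  `W` is not a power of `Z`:
otherwise `φ gd = gz ^ n = φ (gz ^ n)`, `Dd = Z ^ n`.  `φ` applied to `gb (gb gc)³ = (gb gc)³ gb`:
`gb` commutes with `(gb φ(gc))³`; `ga` commutes with `φ gd`, so `gb φ(gc) = gr * φ gd`, and
`(gr * j W)³ = gr³ * (gr⁻² j W gr²) * (gr⁻¹ j W gr) * j W = j (Z Z (rho⁻¹ rho⁻¹ W) (rho⁻¹ W) W)`
(`conj_j`, `gr_cube`).  Then `be_fix` and `word_step`:
`W = Z ^ n * T * Z ^ (-n)`, so `φ gd = gz ^ n * (gz⁻¹ gd gz) * gz ^ (-n)`. -/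
theorem fix_ab {φ : MulAut GA} (h1 : φ ga = ga) (h2 : φ gb = gb) :
    ∃ n : ℤ, φ gc = gz ^ n * gc * gz ^ (-n) := by
  have hz : φ gz = gz := by
    unfold gz
    rw [map_pow, map_mul, h1, h2]
  obtain ⟨W, hW⟩ := char_j φ Dd
  rw [j_Dd] at hW
  have hc : gd * ga ^ 3 = gc := by
    unfold gd
    rw [inv_mul_cancel_right]
  have hφc : φ gc = j W * ga ^ 3 := by rw [← hc, map_mul, map_pow, hW, h1]
  have had : ga * gd = gd * ga := by
    unfold gd
    calc ga * (gc * (ga ^ 3)⁻¹) = (ga * gc) * (ga ^ 3)⁻¹ := by group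
      _ = (gc * ga) * (ga ^ 3)⁻¹ := by rw [ga_gc]
      _ = _ := by group
  have haW : ga * j W = j W * ga := by
    have h3 := congrArg φ had
    rwa [map_mul, map_mul, hW, h1] at h3
  have hal : al W = W := by
    apply j_inj
    rw [← Phi_ga, ← conj_j, haW, mul_inv_cancel_right]
  have hH := al_fix hal
  have hne : ∀ n : ℤ, W ≠ Z ^ n := by
    intro n hn
    have h3 : φ gd = φ (gz ^ n) := by
      rw [hW, hn, map_zpow, map_zpow, j_Z, hz]
    have h4 : gd = gz ^ n := φ.injective h3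
    have h5 : Dd = Z ^ n := by
      apply j_inj
      rw [j_Dd, map_zpow, j_Z, h4]
    exact fix_ab_ne n h5
  -- the relation
  have hrel : gb * (gb * gc) ^ 3 = (gb * gc) ^ 3 * gb := by
    calc gb * (gb * gc) ^ 3 = gb * (gc * gb) ^ 3 := by rw [gb_gc]
      _ = (gb * gc) ^ 3 * gb := by simp only [pow_succ, pow_zero, one_mul, mul_assoc]
  have hrel2 : gb * (gb * φ gc) ^ 3 = (gb * φ gc) ^ 3 * gb := by
    have h3 := congrArg φ hrel
    rwa [map_mul, map_mul, map_pow, map_mul, h2] at h3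
  have ha3 : ga ^ 3 * j W = j W * ga ^ 3 := (Commute.pow_left (show Commute ga (j W) from haW) 3)
  have hbc : gb * φ gc = gr * j W := by
    rw [hφc, ← ha3, ← mul_assoc]
    rfl
  have hr1 : j (rho⁻¹ W) = gr⁻¹ * j W * gr := by
    have h3 := conj_j gr⁻¹ W
    rw [map_inv, Phi_gr, inv_inv] at h3
    exact h3.symm
  have hr2 : j (rho⁻¹ (rho⁻¹ W)) = gr⁻¹ * (gr⁻¹ * j W * gr) * gr := by
    have h3 := conj_j gr⁻¹ (rho⁻¹ W)
    rw [map_inv, Phi_gr, inv_inv, hr1] at h3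
    exact h3.symm
  set E : F := Z * Z * (rho⁻¹ (rho⁻¹ W)) * (rho⁻¹ W) * W with hE
  have hjE : (gr * j W) ^ 3 = j E := by
    rw [hE, map_mul, map_mul, map_mul, map_mul, j_Z, hr1, hr2]
    have h3 := gr_cube
    have h4 : gz * gz = gr * gr * gr := by
      simpa [pow_succ] using h3.symm
    rw [h4]
    simp only [pow_succ, pow_zero, one_mul]
    group
  rw [hbc, hjE] at hrel2
  have hbe : (rho * (al ^ 3)⁻¹) E = E := by
    apply j_inj
    have h3 := conj_j gb E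
    rw [Phi_gb, hrel2, mul_inv_cancel_right] at h3
    exact h3.symm
  obtain ⟨n, hn⟩ := word_step hH hne (be_fix hbe)
  refine ⟨n - 1, ?_⟩
  have hza : gz * ga = ga * gz := by
    have h3 := gz_comm (y := ga) (Subgroup.subset_closure (by simp))
    exact h3.symm
  have hza3 : gz ^ (-(n - 1)) * ga ^ 3 = ga ^ 3 * gz ^ (-(n - 1)) :=
    ((show Commute gz ga from hza).zpow_left _).pow_right 3
  rw [hφc, hn, map_mul, map_mul, map_zpow, map_zpow, j_Z, j_T, ← hc]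
  calc gz ^ n * (gz⁻¹ * gd * gz) * gz ^ (-n) * ga ^ 3 =
      gz ^ (n - 1) * gd * (gz ^ (-(n - 1)) * ga ^ 3) := by group
    _ = gz ^ (n - 1) * gd * (ga ^ 3 * gz ^ (-(n - 1))) := by rw [hza3]
    _ = _ := by group

end Pool.Agent.Helper7.AG
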