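import Pool.Agent.Helper7.AG.Main1
import Pool.Agent.Helper7.AG.Main2
import Pool.Agent.Helper7.AG.Main3

/-!
# Project AG: the automorphism group of the Artin group of type `G̃_2`
-/

namespace Pool.Agent.Helper7.AG

lemma ga_gz : ga * gz = gz * ga :=
  gz_comm (Subgroup.subset_closure (by simp))

lemma gb_gz : gb * gz = gz * gb :=
  gz_comm (Subgroup.subset_closure (by simp))

lemma eps_gz : eps gz = gz⁻¹ := by
  have h1 : (gb * ga) ^ 3 = gz := by
    have : (gb * ga) ^ 3 = ga⁻¹ * gz * ga := by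
      unfold gz; simp [pow_succ, mul_assoc]
    rw [this, mul_assoc, ← ga_gz]; group
  have h2 : eps gz = (ga⁻¹ * gb⁻¹) ^ 3 := by simp [gz]
  rw [h2, ← mul_inv_rev, inv_pow, h1]

/-- homomorphisms from `GA`: automorphisms are equal if they agree on the generators -/
lemma aut_ext3 {φ ψ : MulAut GA} (h1 : φ ga = ψ ga) (h2 : φ gb = ψ gb) (h3 : φ gc = ψ gc) :
    φ = ψ := by
  have : φ.toMonoidHom = ψ.toMonoidHom := hom_ext3 h1 h2 h3
  ext x
  exact DFunLike.congr_fun this x

/-- automorphisms which fix `gz` are inner -/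
theorem inner_of_fix {φ : MulAut GA} (h : φ gz = gz) : ∃ x : GA, φ = MulAut.conj x := by
  obtain ⟨y, h1, h2⟩ := fix_gz h
  obtain ⟨n, h3⟩ := fix_ab h1 h2
  have c1 : ga * gz ^ n = gz ^ n * ga := (Commute.zpow_right (show Commute ga gz from ga_gz) n)
  have c2 : gb * gz ^ n = gz ^ n * gb := (Commute.zpow_right (show Commute gb gz from gb_gz) n)
  have h4 : MulAut.conj y * φ = MulAut.conj (gz ^ n) := by
    apply aut_ext3
    · rw [h1, MulAut.conj_apply, ← c1, mul_inv_cancel_right]
    · rw [h2, MulAut.conj_apply, ← c2, mul_inv_cancel_right]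
    · rw [h3, MulAut.conj_apply, zpow_neg]
  refine ⟨y⁻¹ * gz ^ n, ?_⟩
  rw [map_mul, ← h4, map_inv, inv_mul_cancel_left]

/-- every automorphism is inner or inner times `eps` -/
theorem aut_eq (φ : MulAut GA) : ∃ x : GA, φ = MulAut.conj x ∨ φ = MulAut.conj x * eps := by
  have he : eps * eps = 1 := by
    ext x; exact epsHom_epsHom x
  obtain ⟨x, h | h⟩ := image_gz φ
  · have h1 : (MulAut.conj x⁻¹ * φ) gz = gz := by
      rw [MulAut.mul_apply, h, MulAut.conj_apply]; group
    obtain ⟨y, hy⟩ := inner_of_fix h1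
    refine ⟨x * y, Or.inl ?_⟩
    rw [map_mul, ← hy, map_inv, mul_inv_cancel_left]
  · have h1 : (MulAut.conj x⁻¹ * φ * eps) gz = gz := by
      rw [MulAut.mul_apply, eps_gz, map_inv, MulAut.mul_apply, h, MulAut.conj_apply]; group
    obtain ⟨y, hy⟩ := inner_of_fix h1
    refine ⟨x * y, Or.inr ?_⟩
    rw [map_mul, ← hy, map_inv]
    have : MulAut.conj x * ((MulAut.conj x)⁻¹ * φ * eps) * eps = φ * (eps * eps) := by group
    rw [this, he, mul_one]

/-- the center of `GA` is trivial -/
theorem center_eq_bot : Subgroup.center GA = ⊥ := by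
  rw [eq_bot_iff]
  intro x hx
  rw [Subgroup.mem_center_iff] at hx
  have h1 : Phi x = 1 := by
    ext w
    apply j_inj
    rw [← conj_j, ← hx]; simp
  have h2 : x ∈ Subgroup.closure {ga, gb} := cent_gz (hx gz).symm
  have h3 : pp 2 x = 1 ∨ pp 2 x = -1 := by
    have ha : mA * pp 2 x = pp 2 x * mA := by
      have := congrArg (pp 2) (hx ga); simpa using this
    have hb : mB * pp 2 x = pp 2 x * mB := by
      have := congrArg (pp 2) (hx gb); simpa using this
    generalize pp 2 x = X at ha hb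
    have hd : X 0 0 * X 1 1 - X 0 1 * X 1 0 = 1 := by
      have := X.det_coe; rwa [Matrix.det_fin_two] at this
    have e1 := congrArg (fun Y : SL => Y 0 0) ha
    have e2 := congrArg (fun Y : SL => Y 0 1) ha
    have e3 := congrArg (fun Y : SL => Y 0 0) hb
    simp only [mA, mB, Matrix.SpecialLinearGroup.coe_mul, Matrix.mul_apply, Fin.sum_univ_two] at e1 e2 e3
    simp at e1 e2 e3
    have e4 : X 1 0 = 0 := by linarith
    have e5 : X 0 1 = 0 := by linarith
    have e6 : X 0 0 = X 1 1 := by linarith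
    rw [e4, e5, ← e6] at hd
    have e7 : X 0 0 = 1 ∨ X 0 0 = -1 := by
      have : (X 0 0 - 1) * (X 0 0 + 1) = 0 := by linarith
      rcases mul_eq_zero.mp this with h | h
      · left; linarith
      · right; linarith
    rcases e7 with h | h
    · left
      ext a b
      fin_cases a <;> fin_cases b <;> simp [e4, e5, ← e6, h]
    · right
      ext a b
      fin_cases a <;> fin_cases b <;> simp [e4, e5, ← e6, h]
  obtain ⟨n, hn⟩ := ker_B3 ga_gb (f := pp 2) (by simp) (by simp) h2 h3
  have hn' : x = j (Z ^ n) := by rw [hn, map_zpow, j_Z]; rfl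
  have h4 : MulAut.conj (Z ^ n) = (1 : MulAut F) := by rw [← Phi_j, ← hn', h1]
  have h5 := congrArg (fun φ : MulAut F => φ Q) h4
  simp only [MulAut.conj_apply, MulAut.one_apply] at h5
  have h6 : Z ^ n * FreeGroup.of (Sum.inl G0.q) ^ (1 : ℤ) =
      FreeGroup.of (Sum.inl G0.q) ^ (1 : ℤ) * Z ^ n := by
    rw [zpow_one]
    exact mul_inv_eq_iff_eq_mul.mp h5
  obtain ⟨m, hm⟩ := commute_of_pow (Sum.inl G0.q) one_ne_zero h6
  have h7 : n = 0 := by
    have := congrArg (FreeGroup.lift (fun s : G0 ⊕ G1 =>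
      if s = .inl .z then Multiplicative.ofAdd (1 : ℤ) else 1)) hm
    simp only [map_zpow, FreeGroup.lift_apply_of] at this
    simp at this
    simpa [← ofAdd_zsmul] using this
  rw [hn, h7, zpow_zero]
  exact Subgroup.mem_bot.mpr rfl

/-- `eps` is not inner -/
theorem eps_not_inner (x : GA) : eps ≠ MulAut.conj x := by
  intro h
  let χ : GA →* Multiplicative ℤ := lift3 (Multiplicative.ofAdd 1) (Multiplicative.ofAdd 1)
    (Multiplicative.ofAdd 1) rfl rfl rfl
  have h1 := congrArg (fun φ : MulAut GA => χ (φ ga)) h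
  simp only [eps_ga, MulAut.conj_apply, map_mul, map_inv] at h1
  rw [mul_right_comm, mul_inv_cancel, one_mul] at h1
  simp only [χ, lift3_ga] at h1
  have h2 := congrArg Multiplicative.toAdd h1
  simp at h2

end Pool.Agent.Helper7.AG
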