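import Pool.Agent.Helper7.AG.Pi
import Pool.Agent.Helper7.AG.Inv

/-!
# Project AG, piece AG-Z: the image of `z`

Proof.  `φ gz = j u₀` (`char_j`).  For every `g : GA` and `n : F` the elements `g` with
`g gz g⁻¹ = j (n Z n⁻¹)` for some `n`: all `g` (`decomp`: `g = j w * y`, `y` commutes with `gz`).
So `ga * φ gz * ga⁻¹ = φ (g gz g⁻¹)` (`g = φ⁻¹ ga`) `= φ (j n) * φ gz * φ (j n)⁻¹`, and `φ (j n) =
j n'` (`char_j`); by `conj_j` `al u₀ = n' u₀ n'⁻¹`.  The same with `gr`: `rho u₀ = n'' u₀ n''⁻¹`.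
`inv_class`: `u₀` is conjugate to `Z ^ k`, or all `χ u₀ = 1`.  In the second case let
`ψ : F →* F`, `φ⁻¹ (j w) = j (ψ w)` (`char_j` for `φ⁻¹`, `j_inj`; `ψ` is a homomorphism), then
`χ := (exponent of Z) ∘ ψ` maps `u₀` to the exponent of `Z` in `Z`, which is `1`: contradiction.
So `φ gz = x gz ^ k x⁻¹`; similarly `φ⁻¹ gz = y gz ^ l y⁻¹` with `x, y ∈ range j`, so
`gz = φ (y) x gz ^ (k l) x⁻¹ φ(y)⁻¹`, where `φ y ∈ range j`; exponents of `Z`: `k l = 1`.
-/

namespace Pool.Agent.Helper7.AG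

/-- an automorphism of `GA` acts on the image of `F` -/
private theorem Main1_hom (φ : MulAut GA) : ∃ f : F →* F, ∀ w, φ (j w) = j (f w) := by
  choose f hf using char_j φ
  refine ⟨MonoidHom.mk' f fun a b => ?_, hf⟩
  apply j_inj
  rw [← hf, map_mul, map_mul, hf, hf, map_mul]

/-- the exponent of `Z` -/
private def Main1_ez : F →* Multiplicative ℤ :=
  FreeGroup.lift fun y => if y = .inl .z then Multiplicative.ofAdd 1 else 1

private theorem Main1_ez_Z : Main1_ez Z = Multiplicative.ofAdd 1 := by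
  simp [Main1_ez]

/-- every conjugate of `gz` is a conjugate by an element of the image of `F` -/
private theorem Main1_conj (g : GA) : ∃ n : F, g * gz * g⁻¹ = j (n * Z * n⁻¹) := by
  obtain ⟨w, y, hy, rfl⟩ := decomp g
  refine ⟨w, ?_⟩
  have h := gz_comm hy
  rw [map_mul, map_mul, map_inv, j_Z, mul_inv_rev]
  calc j w * y * gz * (y⁻¹ * (j w)⁻¹) = j w * (y * gz) * y⁻¹ * (j w)⁻¹ := by group
    _ = j w * (gz * y) * y⁻¹ * (j w)⁻¹ := by rw [h]
    _ = j w * gz * (j w)⁻¹ := by group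

/-- the class of the image of `gz` is invariant -/
private theorem Main1_inv (φ : MulAut GA) (f : F →* F) (hf : ∀ w, φ (j w) = j (f w)) (h : GA) :
    ∃ y, y * f Z * y⁻¹ = Phi h (f Z) := by
  obtain ⟨n, hn⟩ := Main1_conj (φ⁻¹ h)
  refine ⟨f n, ?_⟩
  apply j_inj
  rw [← conj_j, ← hf Z, j_Z]
  have h1 := congrArg φ hn
  rw [map_mul, map_mul, map_inv, MulAut.apply_inv_self, hf] at h1
  rw [h1]
  simp only [map_mul, map_inv]

/-- the image of `gz` is a conjugate of a power of `gz` -/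
private theorem Main1_pow (φ : MulAut GA) : ∃ (x : F) (k : ℤ), φ gz = j (x * Z ^ k * x⁻¹) := by
  obtain ⟨f, hf⟩ := Main1_hom φ
  obtain ⟨ψ, hψ⟩ := Main1_hom φ⁻¹
  have hZ : φ gz = j (f Z) := by
    rw [← hf, j_Z]
  have h1 : ∃ y, y * f Z * y⁻¹ = al (f Z) := by
    have := Main1_inv φ f hf ga
    rwa [Phi_ga] at this
  have h2 : ∃ y, y * f Z * y⁻¹ = rho (f Z) := by
    have := Main1_inv φ f hf gr
    rwa [Phi_gr] at this
  rcases inv_class h1 h2 with ⟨x, n, hx⟩ | hχ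
  · refine ⟨x⁻¹, n, ?_⟩
    rw [hZ, ← hx]
    congr 1
    group
  · exfalso
    have h3 : ψ (f Z) = Z := by
      apply j_inj
      rw [← hψ, ← hf, MulAut.inv_apply_self]
    have h4 := hχ (Main1_ez.comp ψ)
    rw [MonoidHom.comp_apply, h3, Main1_ez_Z] at h4
    have h5 : (1 : ℤ) = 0 := Multiplicative.ofAdd.injective h4
    exact one_ne_zero h5

/-- AG-Z -/
theorem image_gz (φ : MulAut GA) :
    ∃ x : GA, φ gz = x * gz * x⁻¹ ∨ φ gz = x * gz⁻¹ * x⁻¹ := by
  obtain ⟨f, hf⟩ := Main1_hom φ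
  obtain ⟨x, k, hx⟩ := Main1_pow φ
  obtain ⟨y, l, hy⟩ := Main1_pow φ⁻¹
  have h1 : gz = j (f y * (x * Z ^ k * x⁻¹) ^ l * (f y)⁻¹) := by
    have h2 := congrArg φ hy
    rw [MulAut.apply_inv_self, map_mul, map_mul, map_inv, map_mul, map_mul, map_inv, map_zpow,
      map_zpow, j_Z, hx, hf] at h2
    rw [map_mul, map_mul, map_inv, map_zpow]
    exact h2
  have h3 : Z = f y * (x * Z ^ k * x⁻¹) ^ l * (f y)⁻¹ := by
    apply j_inj
    rw [← h1, j_Z]
  have h4 : Main1_ez Z = Main1_ez Z ^ (k * l) := by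
    conv_lhs => rw [h3]
    rw [map_mul, map_mul, map_inv, map_zpow, map_mul, map_mul, map_inv, map_zpow, zpow_mul,
      mul_inv_cancel_comm, mul_inv_cancel_comm]
  rw [Main1_ez_Z] at h4
  have h5 : (1 : ℤ) = (k * l) • (1 : ℤ) := Multiplicative.ofAdd.injective h4
  rw [smul_eq_mul, mul_one] at h5
  refine ⟨j x, ?_⟩
  rw [hx, map_mul, map_mul, map_inv, map_zpow, j_Z]
  rcases Int.eq_one_or_neg_one_of_mul_eq_one h5.symm with h6 | h6
  · left
    rw [h6, zpow_one]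
  · right
    rw [h6, zpow_neg_one]

end Pool.Agent.Helper7.AG
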