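import Pool.Agent.Helper7.AG.Main

/-!
# Project AG: `Aut`, `Out` and the splitting
-/

namespace Pool.Agent.Helper7.AG

/-- the group of inner automorphisms -/
def Inn (G : Type*) [Group G] : Subgroup (MulAut G) := (MulAut.conj : G →* MulAut G).range

instance Inn_normal (G : Type*) [Group G] : (Inn G).Normal := by
  refine ⟨?_⟩
  rintro _ ⟨x, rfl⟩ φ
  refine ⟨φ x, ?_⟩
  ext y
  simp [MulAut.mul_apply]

/-- the group of outer automorphisms -/
abbrev Out (G : Type*) [Group G] : Type _ := MulAut G ⧸ Inn G

lemma eps_eps : eps * eps = 1 := by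
  ext x; exact epsHom_epsHom x

/-- the action of `ℤˣ = {1, -1}` on `GA`: `-1` acts by `eps` -/
def theta : ℤˣ →* MulAut GA where
  toFun u := if u = 1 then 1 else eps
  map_one' := by simp
  map_mul' := by
    intro u v
    rcases Int.units_eq_one_or u with rfl | rfl <;> rcases Int.units_eq_one_or v with rfl | rfl <;>
      simp [eps_eps]

/-- the semidirect product maps to the automorphism group -/
def toAut : GA ⋊[theta] ℤˣ →* MulAut GA :=
  SemidirectProduct.lift MulAut.conj theta (by
    intro u
    ext x y
    simp [MulAut.mul_apply])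

lemma toAut_apply (p : GA ⋊[theta] ℤˣ) : toAut p = MulAut.conj p.left * theta p.right := rfl

lemma conj_inj : Function.Injective (MulAut.conj : GA →* MulAut GA) := by
  rw [injective_iff_map_eq_one]
  intro x hx
  have : x ∈ Subgroup.center GA := by
    rw [Subgroup.mem_center_iff]
    intro y
    have h := congrArg (fun φ : MulAut GA => φ y) hx
    simp only [MulAut.conj_apply, MulAut.one_apply] at h
    exact (mul_inv_eq_iff_eq_mul.mp h).symm
  rw [center_eq_bot] at this
  exact Subgroup.mem_bot.mp this

lemma toAut_bij : Function.Bijective toAut := by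
  constructor
  · rw [injective_iff_map_eq_one]
    intro p hp
    rw [toAut_apply] at hp
    rcases Int.units_eq_one_or p.right with h | h
    · rw [h, map_one, mul_one] at hp
      ext
      · exact conj_inj (by rw [hp, SemidirectProduct.one_left, map_one])
      · simp [h]
    · exfalso
      have h1 : theta p.right = eps := by rw [h]; rfl
      rw [h1] at hp
      refine eps_not_inner p.left⁻¹ ?_
      rw [map_inv]
      exact eq_inv_of_mul_eq_one_right hp
  · intro φ
    obtain ⟨x, h | h⟩ := aut_eq φ
    · exact ⟨⟨x, 1⟩, by rw [toAut_apply, h]; simp⟩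
    · exact ⟨⟨x, -1⟩, by rw [toAut_apply, h]; rfl⟩

/-- the automorphism group as a semidirect product -/
noncomputable def autEquiv : GA ⋊[theta] ℤˣ ≃* MulAut GA := MulEquiv.ofBijective toAut toAut_bij

/-- the sign of an automorphism -/
noncomputable def sgn : MulAut GA →* ℤˣ :=
  SemidirectProduct.rightHom.comp autEquiv.symm.toMonoidHom

lemma sgn_toAut (p : GA ⋊[theta] ℤˣ) : sgn (toAut p) = p.right := by
  have : autEquiv.symm (toAut p) = p := autEquiv.symm_apply_apply p
  change SemidirectProduct.rightHom (autEquiv.symm (toAut p)) = _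
  rw [this]; rfl

lemma sgn_ker : sgn.ker = Inn GA := by
  ext φ
  rw [MonoidHom.mem_ker]
  obtain ⟨p, rfl⟩ := toAut_bij.2 φ
  rw [sgn_toAut]
  constructor
  · intro h
    exact ⟨p.left, by rw [toAut_apply, h, map_one, mul_one]⟩
  · rintro ⟨x, hx⟩
    have : toAut p = toAut ⟨x, 1⟩ := by rw [← hx, toAut_apply]; simp
    rw [toAut_bij.1 this]

lemma sgn_surj : Function.Surjective sgn := fun u => ⟨toAut ⟨1, u⟩, sgn_toAut _⟩

/-- the outer automorphism group -/
noncomputable def outEquiv : Out GA ≃* ℤˣ :=
  (QuotientGroup.quotientMulEquivOfEq sgn_ker.symm).trans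
    (QuotientGroup.quotientKerEquivOfSurjective sgn sgn_surj)

lemma outEquiv_mk (φ : MulAut GA) : outEquiv (QuotientGroup.mk φ) = sgn φ := rfl

lemma outEquiv_eps : outEquiv (QuotientGroup.mk eps) = -1 := by
  have : eps = toAut ⟨1, -1⟩ := by rw [toAut_apply]; simp; rfl
  rw [outEquiv_mk, this, sgn_toAut]

/-- the extension splits -/
noncomputable def section_ : Out GA →* MulAut GA := theta.comp outEquiv.toMonoidHom

lemma section_spec (o : Out GA) : QuotientGroup.mk (section_ o) = o := by
  apply outEquiv.injective
  rw [outEquiv_mk]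
  have : section_ o = toAut ⟨1, outEquiv o⟩ := by rw [toAut_apply]; simp [section_]
  rw [this, sgn_toAut]

end Pool.Agent.Helper7.AG
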