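import Pool.Agent.Helper7.AG.Pcls

/-!
# Project AG, piece AG-CHAR
-/

namespace Pool.Agent.Helper7.AG

open Matrix

/-- the reduction modulo `m` -/
private def pchar_red (m : ℕ) (i : Fin 3) : GA →* SpecialLinearGroup (Fin 2) (ZMod m) :=
  (SpecialLinearGroup.map (Int.castRingHom (ZMod m))).comp (pp i)

private def pchar_R (m : ℕ) (i : Fin 3) (x : GA) : Prop :=
  ∃ s : ZMod m, (s = 1 ∨ s = -1) ∧
    (pchar_red m i x : Matrix (Fin 2) (Fin 2) (ZMod m)) = s • 1

private theorem pchar_transfer (m : ℕ) (i i' : Fin 3) (x y : GA) (M : Matrix (Fin 2) (Fin 2) ℤ)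
    (hM : M.det = 1 ∨ M.det = -1) (s : ℤ) (hs : s = 1 ∨ s = -1)
    (h : ((pp i y : SL) : Matrix (Fin 2) (Fin 2) ℤ) * M =
          s • (M * ((pp i' x : SL) : Matrix (Fin 2) (Fin 2) ℤ))) :
    pchar_R m i y ↔ pchar_R m i' x := by
  set f := Int.castRingHom (ZMod m) with hf
  set N : Matrix (Fin 2) (Fin 2) (ZMod m) := M.map f with hN
  have hdet : IsUnit N.det := by
    have h1 : N.det = f M.det := by
      rw [hN, ← RingHom.mapMatrix_apply, ← RingHom.map_det]
    rw [h1]
    rcases hM with h2 | h2 <;> rw [h2] <;> simp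
  have hu : IsUnit N := (Matrix.isUnit_iff_isUnit_det N).2 hdet
  have hP : (pchar_red m i y : Matrix (Fin 2) (Fin 2) (ZMod m)) =
      ((pp i y : SL) : Matrix (Fin 2) (Fin 2) ℤ).map f := rfl
  have hQ : (pchar_red m i' x : Matrix (Fin 2) (Fin 2) (ZMod m)) =
      ((pp i' x : SL) : Matrix (Fin 2) (Fin 2) ℤ).map f := rfl
  have hred : (pchar_red m i y : Matrix (Fin 2) (Fin 2) (ZMod m)) * N =
      (f s) • (N * (pchar_red m i' x : Matrix (Fin 2) (Fin 2) (ZMod m))) := by
    have h3 := congrArg f.mapMatrix h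
    rw [map_mul, smul_eq_diagonal_mul, map_mul, map_mul] at h3
    rw [hP, hQ, hN, Matrix.smul_eq_diagonal_mul]
    have h4 : f.mapMatrix (Matrix.diagonal fun _ : Fin 2 => s) = Matrix.diagonal fun _ => f s := by
      rw [RingHom.mapMatrix_apply, Matrix.diagonal_map (map_zero f)]
    rw [h4] at h3
    exact h3
  have hfs : f s * f s = 1 := by
    rcases hs with h2 | h2 <;> rw [h2] <;> simp
  unfold pchar_R
  constructor
  · rintro ⟨t, ht, h4⟩
    rw [h4] at hred
    refine ⟨f s * t, ?_, ?_⟩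
    · rcases hs with h2 | h2 <;> rcases ht with h5 | h5 <;> rw [h2, h5] <;> simp
    · apply hu.mul_left_cancel
      have h6 := congrArg (fun X => f s • X) hred
      simp only [smul_smul, hfs, one_smul, Matrix.smul_mul, Matrix.one_mul] at h6
      rw [← h6, Matrix.mul_smul, Matrix.mul_one]
  · rintro ⟨t, ht, h4⟩
    rw [h4] at hred
    refine ⟨f s * t, ?_, ?_⟩
    · rcases hs with h2 | h2 <;> rcases ht with h5 | h5 <;> rw [h2, h5] <;> simp
    · apply hu.mul_right_cancel
      rw [hred, Matrix.mul_smul, Matrix.mul_one, smul_smul, Matrix.smul_mul, Matrix.one_mul]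

private def pchar_E (m : ℕ) (i i' : Fin 3) : Prop := ∀ x, pchar_R m i x ↔ pchar_R m i' x

private theorem pchar_mA3 (a b : Fin 2) :
    ((mA ^ 3 : SL) : Matrix (Fin 2) (Fin 2) ℤ) a b = (!![1, 3; 0, 1] : Matrix _ _ ℤ) a b := by
  have h : ((mA ^ 3 : SL) : Matrix (Fin 2) (Fin 2) ℤ) =
      (mA : Matrix (Fin 2) (Fin 2) ℤ) * (mA : Matrix (Fin 2) (Fin 2) ℤ) *
        (mA : Matrix (Fin 2) (Fin 2) ℤ) := by
    rw [pow_succ, pow_two]
    rfl
  rw [h]
  fin_cases a <;> fin_cases b <;> simp [mA, Matrix.mul_apply, Fin.sum_univ_two]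

private theorem pchar_E212 : pchar_E 2 1 2 := by
  have h : pchar_red 2 1 = pchar_red 2 2 := by
    apply hom_ext3
    · simp [pchar_red]
    · simp [pchar_red]
    · simp only [pchar_red, MonoidHom.comp_apply, pp_gc]
      rw [show ek 1 = 1 from rfl, show ek 2 = 3 from rfl, pow_one]
      ext a b
      rw [SpecialLinearGroup.map_apply_coe, SpecialLinearGroup.map_apply_coe,
        RingHom.mapMatrix_apply, RingHom.mapMatrix_apply, Matrix.map_apply, Matrix.map_apply,
        pchar_mA3]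
      fin_cases a <;> fin_cases b <;> simp [mA]
      decide
  intro x
  unfold pchar_R
  rw [h]

private theorem pchar_E302 : pchar_E 3 0 2 := by
  have h : pchar_red 3 0 = pchar_red 3 2 := by
    apply hom_ext3
    · simp [pchar_red]
    · simp [pchar_red]
    · simp only [pchar_red, MonoidHom.comp_apply, pp_gc]
      rw [show ek 0 = 0 from rfl, show ek 2 = 3 from rfl, pow_zero]
      ext a b
      rw [SpecialLinearGroup.map_apply_coe, SpecialLinearGroup.map_apply_coe,
        RingHom.mapMatrix_apply, RingHom.mapMatrix_apply, Matrix.map_apply, Matrix.map_apply,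
        pchar_mA3]
      fin_cases a <;> fin_cases b <;> simp
      decide
  intro x
  unfold pchar_R
  rw [h]

private theorem pchar_gc0 (m : ℕ) : pchar_R m 0 gc := by
  refine ⟨1, Or.inl rfl, ?_⟩
  simp [pchar_red, ek]

private theorem pchar_gc1 (m : ℕ) (hm : m = 2 ∨ m = 3) : ¬ pchar_R m 1 gc := by
  rintro ⟨s, -, h⟩
  have h1 := congrFun (congrFun h 0) 1
  have h2 : (pchar_red m 1 gc : Matrix (Fin 2) (Fin 2) (ZMod m)) 0 1 = 1 := by
    simp only [pchar_red, MonoidHom.comp_apply, pp_gc]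
    rw [show ek 1 = 1 from rfl, pow_one, SpecialLinearGroup.map_apply_coe,
      RingHom.mapMatrix_apply, Matrix.map_apply]
    simp [mA]
  rw [h2] at h1
  rcases hm with rfl | rfl
  · revert h1
    simp
  · revert h1
    simp

/-- `AG-CHAR`: `class_pp` for `i = 2` (`k = 3`) with `i' = 2`.  Proof: let `σ i = i'` from
`class_pp` (choice).  For `m = 2, 3` let `R m i x` mean: all entries of `pp i x - 1` are divisible
by `m`, or all entries of `pp i x + 1` are.  From `class_pp` (`M` is invertible, determinant `±1`)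
`R m i (φ x) ↔ R m (σ i) x`.  Let `E m i i'` mean `∀ x, R m i x ↔ R m i' x`.  Then
`E m i i' ↔ E m (σ i) (σ i')` (`φ` is surjective).  `E 2 1 2` holds (`mA ≡ mA³ mod 2`, so
`pp 1 ≡ pp 2 mod 2`), `E 3 0 2` holds (`mA³ ≡ 1 mod 3`); `E 2 0 1`, `E 2 0 2` fail (`x = gc`), and
`E 3 0 1`, `E 3 1 2` fail (`x = gc`).  So `σ` preserves the partitions `{0}, {1, 2}` and
`{0, 2}, {1}`: `σ = id`. -/
theorem char_pp (φ : MulAut GA) :
    ∃ M : Matrix (Fin 2) (Fin 2) ℤ, (M.det = 1 ∨ M.det = -1) ∧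
      ∀ x : GA, ∃ s : ℤ, (s = 1 ∨ s = -1) ∧
        ((pp 2 (φ x) : SL) : Matrix (Fin 2) (Fin 2) ℤ) * M =
          s • (M * ((pp 2 x : SL) : Matrix (Fin 2) (Fin 2) ℤ)) := by
  choose σ M hM hx using fun i => class_pp i φ
  have hR : ∀ m i x, pchar_R m i (φ x) ↔ pchar_R m (σ i) x := by
    intro m i x
    obtain ⟨s, hs, h⟩ := hx i x
    exact pchar_transfer m i (σ i) x (φ x) (M i) (hM i) s hs h
  have hE : ∀ m i i', pchar_E m i i' ↔ pchar_E m (σ i) (σ i') := by
    intro m i i'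
    constructor
    · intro h x
      rw [← hR, ← hR]
      exact h _
    · intro h y
      have := h (φ.symm y)
      rw [← hR, ← hR, MulEquiv.apply_symm_apply] at this
      exact this
  have hrefl : ∀ m i, pchar_E m i i := fun m i x => Iff.rfl
  have hsymm : ∀ m i i', pchar_E m i i' → pchar_E m i' i := fun m i i' h x => (h x).symm
  have n201 : ¬ pchar_E 2 0 1 := fun h => pchar_gc1 2 (Or.inl rfl) ((h gc).1 (pchar_gc0 2))
  have n202 : ¬ pchar_E 2 0 2 := fun h =>
    pchar_gc1 2 (Or.inl rfl) ((pchar_E212 gc).2 ((h gc).1 (pchar_gc0 2)))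
  have n301 : ¬ pchar_E 3 0 1 := fun h => pchar_gc1 3 (Or.inr rfl) ((h gc).1 (pchar_gc0 3))
  have n312 : ¬ pchar_E 3 1 2 := fun h =>
    pchar_gc1 3 (Or.inr rfl) ((h gc).2 ((pchar_E302 gc).1 (pchar_gc0 3)))
  have h2 : σ 2 = 2 := by
    have a := (hE 2 1 2).1 pchar_E212
    have b := (hE 3 0 2).1 pchar_E302
    have c : ¬ pchar_E 2 (σ 0) (σ 2) := fun h => n202 ((hE 2 0 2).2 h)
    have d : ¬ pchar_E 3 (σ 1) (σ 2) := fun h => n312 ((hE 3 1 2).2 h)
    generalize σ 0 = s0 at *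
    generalize σ 1 = s1 at *
    generalize σ 2 = s2 at *
    fin_cases s2
    · exfalso
      fin_cases s1
      · exact d (hrefl _ _)
      · exact n201 (hsymm _ _ _ a)
      · exact n202 (hsymm _ _ _ a)
    · exfalso
      fin_cases s0
      · exact n301 b
      · exact c (hrefl _ _)
      · exact n312 (hsymm _ _ _ b)
    · rfl
  have h3 := hx 2
  rw [h2] at h3
  exact ⟨M 2, hM 2, h3⟩

end Pool.Agent.Helper7.AG
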