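import Pool.Agent.Helper7.AG.Pp
import Pool.Agent.Helper7.AG.Sl1
import Pool.Agent.Helper7.AG.Sl4
import Pool.Agent.Helper7.AG.Sl6

/-!
# Project AG, piece AG-CLS: classification of the homomorphisms `GA → SL(2, ℤ)` onto
-/

namespace Pool.Agent.Helper7.AG

open Matrix

private lemma Pcls_comm_aux {A B C : SL} (h1 : A * C = C * A) (h2 : A * B * A = B * A * B)
    (hc : A * B = B * A) (hg : Subgroup.closure ({A, B, C} : Set SL) = ⊤) : False := by
  have hAB : A = B := by
    have h : B * A * A = B * A * B := by rw [← h2, hc]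
    exact mul_left_cancel h
  subst hAB
  have hA : ∀ x : SL, A * x = x * A := by
    intro x
    have hx : x ∈ Subgroup.closure ({A, A, C} : Set SL) := by rw [hg]; trivial
    have hle : Subgroup.closure ({A, A, C} : Set SL) ≤ Subgroup.centralizer {A} := by
      rw [Subgroup.closure_le]
      intro y hy
      rw [SetLike.mem_coe, Subgroup.mem_centralizer_singleton_iff]
      simp only [Set.mem_insert_iff, Set.mem_singleton_iff] at hy
      rcases hy with rfl | rfl | rfl
      · rfl
      · rfl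
      · exact h1.symm
    exact ((Subgroup.mem_centralizer_singleton_iff).1 (hle hx)).symm
  have hC : ∀ x : SL, C * x = x * C := by
    intro x
    have hx : x ∈ Subgroup.closure ({A, A, C} : Set SL) := by rw [hg]; trivial
    have hle : Subgroup.closure ({A, A, C} : Set SL) ≤ Subgroup.centralizer {C} := by
      rw [Subgroup.closure_le]
      intro y hy
      rw [SetLike.mem_coe, Subgroup.mem_centralizer_singleton_iff]
      simp only [Set.mem_insert_iff, Set.mem_singleton_iff] at hy
      rcases hy with rfl | rfl | rfl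
      · exact h1
      · exact h1
      · rfl
    exact ((Subgroup.mem_centralizer_singleton_iff).1 (hle hx)).symm
  have hle : Subgroup.closure ({A, A, C} : Set SL) ≤ Subgroup.center SL := by
    rw [Subgroup.closure_le]
    intro y hy
    rw [SetLike.mem_coe, Subgroup.mem_center_iff]
    simp only [Set.mem_insert_iff, Set.mem_singleton_iff] at hy
    intro g
    rcases hy with rfl | rfl | rfl
    · exact (hA g).symm
    · exact (hA g).symm
    · exact (hC g).symm
  have hm : mA ∈ Subgroup.center SL := by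
    apply hle
    rw [hg]
    trivial
  have h3 := (Subgroup.mem_center_iff).1 hm mB
  have h4 := congrArg (fun X : SL => (X : Matrix (Fin 2) (Fin 2) ℤ) 0 0) h3
  simp [mA, mB, Matrix.mul_apply, Fin.sum_univ_two] at h4

private lemma Pcls_pow {A : SL} {M : Matrix (Fin 2) (Fin 2) ℤ} {s : ℤ}
    (h : (A : Matrix (Fin 2) (Fin 2) ℤ) * M = s • (M * (mA : Matrix (Fin 2) (Fin 2) ℤ))) (k : ℕ) :
    ((A ^ k : SL) : Matrix (Fin 2) (Fin 2) ℤ) * M =
      s ^ k • (M * ((mA ^ k : SL) : Matrix (Fin 2) (Fin 2) ℤ)) := by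
  induction k with
  | zero => simp
  | succ k ih =>
    rw [pow_succ, pow_succ' mA, Matrix.SpecialLinearGroup.coe_mul,
      Matrix.SpecialLinearGroup.coe_mul, Matrix.mul_assoc, h, Matrix.mul_smul,
      ← Matrix.mul_assoc, ih, Matrix.smul_mul, smul_smul, Matrix.mul_assoc,
      ← Matrix.SpecialLinearGroup.coe_mul, ← Matrix.SpecialLinearGroup.coe_mul,
      ← pow_succ, ← pow_succ', pow_succ' s, pow_succ' mA]

private lemma Pcls_sign_pow {s : ℤ} (h : s = 1 ∨ s = -1) (k : ℕ) : s ^ k = 1 ∨ s ^ k = -1 := by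
  rcases h with rfl | rfl
  · left; simp
  · exact neg_one_pow_eq_or ℤ k

/-- `AG-CLS`.  Proof: let `A, B, C` be the images of `ga, gb, gc` under `(pp i) ∘ φ`.  They satisfy
the relations of `GA` and generate `SL` (`closure_gen`, `closure_AB`: the image of `pp i` contains
`mA` and `mB`).  If `A B = B A`, then `A = B` (braid relation), and `C` commutes with `A = B`: the
group would be commutative, but `mA mB ≠ mB mA`.  `class_C`: `C = ± A ^ k`, `k = ek i'`.
`tr_AB`, `class_AB` (`closure {A, B} = ⊤` since `-1 = (A B)³`) give `M`, `s`.  The set of the `x`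
for which the conclusion holds is closed under products and inverses and contains the
generators (for `gc`: `A ^ k * M = s ^ k • (M * mA ^ k)`). -/
theorem class_pp (i : Fin 3) (φ : MulAut GA) :
    ∃ (i' : Fin 3) (M : Matrix (Fin 2) (Fin 2) ℤ), (M.det = 1 ∨ M.det = -1) ∧
      ∀ x : GA, ∃ s : ℤ, (s = 1 ∨ s = -1) ∧
        ((pp i (φ x) : SL) : Matrix (Fin 2) (Fin 2) ℤ) * M =
          s • (M * ((pp i' x : SL) : Matrix (Fin 2) (Fin 2) ℤ)) := by
  obtain ⟨f, hf⟩ : ∃ f : GA →* SL, ∀ x, f x = pp i (φ x) :=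
    ⟨(pp i).comp φ.toMonoidHom, fun x => rfl⟩
  have hA : f ga * f gc = f gc * f ga := by rw [← map_mul, ga_gc, map_mul]
  have hB : f ga * f gb * f ga = f gb * f ga * f gb := by
    rw [← map_mul, ← map_mul, ga_gb, map_mul, map_mul]
  have hC : (f gb * f gc) ^ 3 = (f gc * f gb) ^ 3 := by
    rw [← map_mul, ← map_pow, gb_gc, map_pow, map_mul]
  have hsurj : Function.Surjective f := by
    have h1 : (pp i).range = ⊤ := by
      rw [eq_top_iff, ← closure_AB, Subgroup.closure_le]
      intro y hy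
      simp only [Set.mem_insert_iff, Set.mem_singleton_iff] at hy
      rcases hy with rfl | rfl
      · exact ⟨ga, pp_ga i⟩
      · exact ⟨gb, pp_gb i⟩
    intro y
    obtain ⟨x, hx⟩ := MonoidHom.range_eq_top.1 h1 y
    obtain ⟨z, hz⟩ := φ.surjective x
    exact ⟨z, by rw [hf, hz, hx]⟩
  have hgen : Subgroup.closure ({f ga, f gb, f gc} : Set SL) = ⊤ := by
    have h1 : f '' ({ga, gb, gc} : Set GA) = {f ga, f gb, f gc} := by
      rw [Set.image_insert_eq, Set.image_insert_eq, Set.image_singleton]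
    rw [← h1, ← MonoidHom.map_closure, closure_gen]
    exact Subgroup.map_top_of_surjective f hsurj
  have hn : f ga * f gb ≠ f gb * f ga := fun h => Pcls_comm_aux hA hB h hgen
  obtain ⟨k, hk, hCk⟩ := class_C hA hB hC hn
  obtain ⟨ht, ht', hcube⟩ := tr_AB hB hn
  have hgen2 : Subgroup.closure ({f ga, f gb} : Set SL) = ⊤ := by
    rw [eq_top_iff, ← hgen, Subgroup.closure_le]
    have ha : f ga ∈ Subgroup.closure ({f ga, f gb} : Set SL) :=
      Subgroup.subset_closure (by simp)
    have hb : f gb ∈ Subgroup.closure ({f ga, f gb} : Set SL) :=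
      Subgroup.subset_closure (by simp)
    intro y hy
    simp only [Set.mem_insert_iff, Set.mem_singleton_iff] at hy
    rcases hy with rfl | rfl | rfl
    · exact ha
    · exact hb
    · rcases hCk with h | h
      · rw [h]
        exact Subgroup.pow_mem _ ha k
      · rw [h]
        have h1 : -(f ga) ^ k = (f ga * f gb) ^ 3 * (f ga) ^ k := by rw [hcube, neg_one_mul]
        rw [h1]
        exact Subgroup.mul_mem _ (Subgroup.pow_mem _ (Subgroup.mul_mem _ ha hb) 3)
          (Subgroup.pow_mem _ ha k)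
  obtain ⟨M, s, hM, hs, hAM, hBM⟩ := class_AB hB ht ht' hgen2
  obtain ⟨i', hi'⟩ : ∃ i' : Fin 3, ek i' = k := by
    rcases hk with rfl | rfl | rfl
    · exact ⟨0, rfl⟩
    · exact ⟨1, rfl⟩
    · exact ⟨2, rfl⟩
  refine ⟨i', M, hM, ?_⟩
  intro x
  rw [← hf]
  have hx : x ∈ Subgroup.closure ({ga, gb, gc} : Set GA) := by rw [closure_gen]; trivial
  induction hx using Subgroup.closure_induction with
  | mem y hy =>
    simp only [Set.mem_insert_iff, Set.mem_singleton_iff] at hy
    rcases hy with rfl | rfl | rfl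
    · exact ⟨s, hs, by rw [hAM, pp_ga]⟩
    · exact ⟨s, hs, by rw [hBM, pp_gb]⟩
    · have h1 := Pcls_pow hAM k
      rcases hCk with h | h
      · exact ⟨s ^ k, Pcls_sign_pow hs k, by rw [h, h1, pp_gc, hi']⟩
      · refine ⟨-s ^ k, ?_, ?_⟩
        · rcases Pcls_sign_pow hs k with h2 | h2
          · right; rw [h2]
          · left; rw [h2, neg_neg]
        · rw [h, Matrix.SpecialLinearGroup.coe_neg, neg_mul, h1, pp_gc, hi', neg_smul]
  | one => exact ⟨1, Or.inl rfl, by simp⟩
  | mul y z _ _ hy hz =>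
    obtain ⟨s1, hs1, h1⟩ := hy
    obtain ⟨s2, hs2, h2⟩ := hz
    refine ⟨s2 * s1, ?_, ?_⟩
    · rcases hs1 with rfl | rfl <;> rcases hs2 with rfl | rfl <;> simp
    · rw [map_mul, map_mul, Matrix.SpecialLinearGroup.coe_mul, Matrix.SpecialLinearGroup.coe_mul,
        Matrix.mul_assoc, h2, Matrix.mul_smul, ← Matrix.mul_assoc, h1, Matrix.smul_mul, smul_smul,
        Matrix.mul_assoc]
  | inv y _ hy =>
    obtain ⟨s1, hs1, h1⟩ := hy
    refine ⟨s1, hs1, ?_⟩
    have h2 : ((f y⁻¹ : SL) : Matrix (Fin 2) (Fin 2) ℤ) * (f y : Matrix (Fin 2) (Fin 2) ℤ) = 1 := by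
      rw [← Matrix.SpecialLinearGroup.coe_mul, map_inv, inv_mul_cancel,
        Matrix.SpecialLinearGroup.coe_one]
    have h3 : ((pp i' y : SL) : Matrix (Fin 2) (Fin 2) ℤ) *
        ((pp i' y⁻¹ : SL) : Matrix (Fin 2) (Fin 2) ℤ) = 1 := by
      rw [← Matrix.SpecialLinearGroup.coe_mul, map_inv, mul_inv_cancel,
        Matrix.SpecialLinearGroup.coe_one]
    have hss : s1 * s1 = 1 := by rcases hs1 with rfl | rfl <;> simp
    calc ((f y⁻¹ : SL) : Matrix (Fin 2) (Fin 2) ℤ) * M
        = ((f y⁻¹ : SL) : Matrix (Fin 2) (Fin 2) ℤ) * ((s1 * s1) • (M *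
            (((pp i' y : SL) : Matrix (Fin 2) (Fin 2) ℤ) *
              ((pp i' y⁻¹ : SL) : Matrix (Fin 2) (Fin 2) ℤ)))) := by
          rw [h3, Matrix.mul_one, hss, one_smul]
      _ = s1 • (((f y⁻¹ : SL) : Matrix (Fin 2) (Fin 2) ℤ) * ((s1 • (M *
            ((pp i' y : SL) : Matrix (Fin 2) (Fin 2) ℤ))) *
              ((pp i' y⁻¹ : SL) : Matrix (Fin 2) (Fin 2) ℤ))) := by
          rw [← Matrix.mul_assoc M, Matrix.smul_mul, ← smul_smul, Matrix.mul_smul]
      _ = s1 • (M * ((pp i' y⁻¹ : SL) : Matrix (Fin 2) (Fin 2) ℤ)) := by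
          rw [← h1, ← Matrix.mul_assoc, ← Matrix.mul_assoc, h2, Matrix.one_mul]

end Pool.Agent.Helper7.AG
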