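import Pool.Agent.Helper7.AG.Pp
import Pool.Agent.Helper7.AG.Grp
import Pool.Agent.Helper7.AG.Sl5

/-!
# Project AG, piece AG-RNG: the kernel of `GA → PSL(2, ℤ)` is `F`
-/

namespace Pool.Agent.Helper7.AG

/-- `AG-RNG`.  Proof: `←`: `pp 2` maps `gz` to `-1` and `gd` to `1`, `gq` to `(mU⁻¹ (mB mA³)³ mU)
= 1` or `-1`; so all letters to `±1`.  `→`: `x = j w * y` (`decomp`), `pp 2 y = ±1`, `ker_B3`:
`y` is a power of `gz = j Z`. -/
theorem mem_range_j {x : GA} : (pp 2 x = 1 ∨ pp 2 x = -1) ↔ ∃ w : F, x = j w := by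
  have hz : pp 2 gz = -1 := by
    unfold gz
    rw [map_pow, map_mul, pp_ga, pp_gb]
    ext a b; fin_cases a <;> fin_cases b <;>
      simp [mA, mB, pow_succ, Matrix.mul_apply, Fin.sum_univ_two]
  have hd : pp 2 gd = 1 := by
    unfold gd
    rw [map_mul, map_inv, map_pow, pp_ga, pp_gc]
    simp [ek]
  have hbc : (mB * mA ^ 3) ^ 3 = (1 : SL) := by
    ext a b; fin_cases a <;> fin_cases b <;>
      simp [mA, mB, pow_succ, Matrix.mul_apply, Fin.sum_univ_two]
  have hq : pp 2 gq = 1 := by
    unfold gq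
    rw [map_mul, map_mul, map_inv, map_pow, map_mul, pp_gb, pp_gc]
    have h1 : ek 2 = 3 := rfl
    rw [h1, hbc, mul_one, inv_mul_cancel]
  let N : Subgroup SL :=
    { carrier := {y | y = 1 ∨ y = -1}
      mul_mem' := by
        rintro a b (rfl | rfl) (rfl | rfl) <;> simp
      one_mem' := Or.inl rfl
      inv_mem' := by
        rintro a (rfl | rfl)
        · simp
        · right
          rw [inv_eq_iff_mul_eq_one]
          simp }
  have hN1 : (1 : SL) ∈ N := Or.inl rfl
  have hN2 : (-1 : SL) ∈ N := Or.inr rfl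
  have hj : ∀ w : F, pp 2 (j w) ∈ N := by
    intro w
    have htop : Subgroup.closure (Set.range (FreeGroup.of : G0 ⊕ G1 → F)) ≤
        N.comap ((pp 2).comp j) := by
      rw [Subgroup.closure_le]
      rintro _ ⟨y, rfl⟩
      show pp 2 (j (FreeGroup.of y)) ∈ N
      rcases y with y | y <;> cases y
      · rw [j_Z, hz]; exact hN2
      · rw [j_Q, hq]; exact hN1
      · rw [j_T]
        simp only [map_mul, map_inv, hz, hd, mul_one, inv_mul_cancel]
        exact hN1
      · rw [j_U]
        simp only [map_mul, map_inv, hq, mul_one, inv_mul_cancel]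
        exact hN1
      · rw [j_V]
        simp only [map_mul, map_inv, hq, mul_one, inv_mul_cancel, mul_inv_cancel, inv_mul_cancel_right]
        exact hN1
      · rw [j_Ff]
        simp only [map_mul, map_inv, hd, hz, mul_one, inv_mul_cancel, one_mul]
        exact hN2
      · rw [j_Gg]
        simp only [map_mul, map_inv, hd, hz, mul_one, inv_mul_cancel, inv_mul_cancel_right]
        exact hN2
    rw [FreeGroup.closure_range_of] at htop
    exact htop (Subgroup.mem_top w)
  constructor
  · intro h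
    obtain ⟨w, y, hy, rfl⟩ := decomp x
    have h1 : pp 2 y ∈ N := by
      have h2 : pp 2 y = (pp 2 (j w))⁻¹ * pp 2 (j w * y) := by
        rw [map_mul, inv_mul_cancel_left]
      rw [h2]
      exact N.mul_mem (N.inv_mem (hj w)) h
    obtain ⟨n, hn⟩ := ker_B3 ga_gb (pp_ga 2) (pp_gb 2) hy h1
    refine ⟨w * Z ^ n, ?_⟩
    rw [map_mul, map_zpow, j_Z, hn]
    rfl
  · rintro ⟨w, rfl⟩
    exact hj w

end Pool.Agent.Helper7.AG
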