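import Pool.Agent.Helper7.AG.Pchar
import Pool.Agent.Helper7.AG.Prng

/-!
# Project AG, piece AG-CHJ: the image of `F` is characteristic
-/

namespace Pool.Agent.Helper7.AG

open Matrix

/-- the image of `F` is characteristic.  Proof: `mem_range_j`, `char_pp`. -/
theorem char_j (φ : MulAut GA) (w : F) : ∃ w' : F, φ (j w) = j w' := by
  rw [← mem_range_j]
  have h1 : pp 2 (j w) = 1 ∨ pp 2 (j w) = -1 := mem_range_j.2 ⟨w, rfl⟩
  obtain ⟨M, hM, h⟩ := char_pp φ
  obtain ⟨s, hs, hx⟩ := h (j w)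
  have hu : IsUnit M := by
    rw [Matrix.isUnit_iff_isUnit_det]
    rcases hM with h | h <;> rw [h]
    · exact isUnit_one
    · exact isUnit_one.neg
  have h2 : ((pp 2 (j w) : SL) : Matrix (Fin 2) (Fin 2) ℤ) = 1 ∨
      ((pp 2 (j w) : SL) : Matrix (Fin 2) (Fin 2) ℤ) = -1 := by
    rcases h1 with h | h <;> rw [h]
    · exact Or.inl rfl
    · exact Or.inr (by simp)
  have h3 : ((pp 2 (φ (j w)) : SL) : Matrix (Fin 2) (Fin 2) ℤ) * M = 1 * M ∨
      ((pp 2 (φ (j w)) : SL) : Matrix (Fin 2) (Fin 2) ℤ) * M = -1 * M := by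
    rw [hx]
    rcases h2 with h | h <;> rw [h] <;> rcases hs with rfl | rfl <;> simp
  rcases h3 with h | h
  · left
    exact Subtype.ext (hu.mul_right_cancel h)
  · right
    refine Subtype.ext ?_
    rw [hu.mul_right_cancel h]
    simp

end Pool.Agent.Helper7.AG
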