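import Pool.Agent.Helper7.AG.Defs
import Pool.Agent.Helper7.AG.Sl

/-!
# Project AG: the homomorphisms to `SL(2, ℤ)`
-/

namespace Pool.Agent.Helper7.AG

open Matrix

/-- the exponents `0, 1, 3` -/
def ek : Fin 3 → ℕ := ![0, 1, 3]

lemma pp_aux (i : Fin 3) : (mB * mA ^ ek i) ^ 3 = (mA ^ ek i * mB) ^ 3 := by
  fin_cases i
  · simp [ek]
  · ext a b; fin_cases a <;> fin_cases b <;>
      simp [ek, mA, mB, pow_succ, Matrix.mul_apply, Fin.sum_univ_two]
  · ext a b; fin_cases a <;> fin_cases b <;>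
      simp [ek, mA, mB, pow_succ, Matrix.mul_apply, Fin.sum_univ_two]

/-- the homomorphisms `a ↦ mA, b ↦ mB, c ↦ mA ^ k`, `k = 0, 1, 3` -/
def pp (i : Fin 3) : GA →* SL :=
  lift3 mA mB (mA ^ ek i) (by rw [← pow_succ', ← pow_succ]) mA_braid (pp_aux i)

@[simp] lemma pp_ga (i : Fin 3) : pp i ga = mA := by simp [pp]
@[simp] lemma pp_gb (i : Fin 3) : pp i gb = mB := by simp [pp]
@[simp] lemma pp_gc (i : Fin 3) : pp i gc = mA ^ ek i := by simp [pp]

end Pool.Agent.Helper7.AG
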