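import Pool.Agent.Helper7.AG.Rel0

/-!
# Project AG, piece AG-REL: conjugation by `a` and `r` on the image of `F` in `GA`

Proof.  Write `a, b, c, x, r, z, d, q` for `ga, gb, gc, gx, gr, gz, gd, gq`.  In `⟨a, b⟩`:
* `z` commutes with `a` and `b`, so with `x`, `r`; `r³ = z²`
  (`r = b a³ = z h x⁻¹ h⁻¹` with `h = y⁻¹ x y`, `y = a b a`, `x³ = y² = z`);
* (i) `a r⁻¹ = r⁻² z a⁻¹`;  (ii) `a r⁻² = z⁻² x a³`;  (iii) `r⁻² a⁻¹ = z⁻¹ a r⁻¹`, so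
  `r⁻² a⁻¹ r⁻¹ = z⁻¹ a r⁻² = z⁻³ x a³` and `r⁻² a⁻¹ r⁻² = z⁻³ x a³ r⁻¹ = z⁻³ a`.
`a` commutes with `d` (`c` commutes with `a`), and with `q = x⁻¹ (b c)³ x` (`a = x⁻¹ b x`, and `b`
commutes with `(b c)³` by the relation `gb_gc`).  `b c = r d`, so
* (iv) `(b c)³ = z² (r⁻² d r²) (r⁻¹ d r) d`, i.e. `x q x⁻¹ = z² (r⁻² d r²) (r⁻¹ d r) d`.
Conjugating (iv) by `r⁻² a⁻¹` (left side: `r⁻² a⁻¹ x = r⁻² b = r⁻¹ a⁻³`, so it becomes `r⁻¹ q r`;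
right side by (iii)): `r⁻¹ q r = z² · z⁻³ d z³ · z⁻³ x d x⁻¹ z³ · r⁻² d r²`, i.e.
* (v) `x d x⁻¹ = d⁻¹ z (r⁻¹ q r) (r⁻² d⁻¹ r²) z⁻³`.
Both statements are checked on the seven letters (`homF_ext`, for the homomorphisms
`(MulAut.conj ga).toMonoidHom.comp j` and `j.comp al.toMonoidHom`).
`rho`: only `r³ = z²` and `z` central in `⟨a, b⟩` are needed.
`al`: `Z, Q, T` clear; `U`: `a r⁻¹ q r a⁻¹ = r⁻² z q z⁻¹ r²` by (i); `Ff`: the same with `d`;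
`V`: `a z r⁻² q r² z⁻¹ a⁻¹ = z⁻¹ x q x⁻¹ z` by (ii), equal to `j (Gg Ff T) = z (r⁻² d r²)(r⁻¹ d r) d z`
by (iv); `Gg`: `a z r⁻² d r² a⁻¹ = z⁻¹ x d x⁻¹ z²` by (ii), equal to `j (T⁻¹ U Gg⁻¹) =
z⁻¹ d⁻¹ z r⁻¹ q r r⁻² d⁻¹ r² z⁻¹` by (v).
-/

namespace Pool.Agent.Helper7.AG

private lemma rel_za : ga * gz = gz * ga :=
  gz_comm (Subgroup.subset_closure (by simp))

private lemma rel_zb : gb * gz = gz * gb :=
  gz_comm (Subgroup.subset_closure (by simp))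

private lemma rel_zx : gx * gz = gz * gx := by
  unfold gx
  rw [mul_assoc, rel_zb, ← mul_assoc, rel_za, mul_assoc]

private lemma rel_zr : gr * gz = gz * gr :=
  gz_comm (by
    unfold gr
    exact mul_mem (Subgroup.subset_closure (by simp))
      (pow_mem (Subgroup.subset_closure (by simp)) 3))

private lemma rel_ad : ga * gd = gd * ga := by
  unfold gd
  calc ga * (gc * (ga ^ 3)⁻¹) = (ga * gc) * (ga ^ 3)⁻¹ := by group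
    _ = (gc * ga) * (ga ^ 3)⁻¹ := by rw [ga_gc]
    _ = _ := by group

private lemma rel_aq : ga * gq = gq * ga := by
  have h1 : gx * ga = gb * gx := by
    unfold gx
    rw [← mul_assoc, ga_gb]
  have h2 : gb * (gb * gc) ^ 3 = (gb * gc) ^ 3 * gb := by
    calc gb * (gb * gc) ^ 3 = gb * (gc * gb) ^ 3 := by rw [gb_gc]
      _ = _ := by simp [pow_succ, mul_assoc]
  have h3 : ga = gx⁻¹ * gb * gx := by
    rw [mul_assoc, ← h1]; group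
  unfold gq
  calc ga * (gx⁻¹ * (gb * gc) ^ 3 * gx) = (gx⁻¹ * gb * gx) * (gx⁻¹ * (gb * gc) ^ 3 * gx) := by
        rw [← h3]
    _ = gx⁻¹ * (gb * (gb * gc) ^ 3) * gx := by group
    _ = gx⁻¹ * ((gb * gc) ^ 3 * gb) * gx := by rw [h2]
    _ = (gx⁻¹ * (gb * gc) ^ 3 * gx) * (gx⁻¹ * gb * gx) := by group
    _ = _ := by rw [← h3]

/-- a general computation for `rho` -/
private lemma rel_rho {G : Type*} [Group G] {r z : G} (h : r * z = z * r) (h3 : r ^ 3 = z ^ 2)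
    (q : G) :
    r * (z * (r⁻¹ * r⁻¹ * q * r * r) * z⁻¹) * r⁻¹ = z * (r⁻¹ * q * r) * z⁻¹ ∧
    r * q * r⁻¹ = z * (z * (r⁻¹ * r⁻¹ * q * r * r) * z⁻¹) * z⁻¹ := by
  constructor
  · have e : r * z * r⁻¹ = z := by rw [h]; group
    calc r * (z * (r⁻¹ * r⁻¹ * q * r * r) * z⁻¹) * r⁻¹
        = (r * z * r⁻¹) * (r⁻¹ * q * r) * (r * z * r⁻¹)⁻¹ := by group
      _ = _ := by rw [e]
  · have e : z * z * r⁻¹ * r⁻¹ = r := by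
      have : z * z = r * r * r := by
        rw [← pow_two, ← h3]; simp [pow_succ]
      rw [this]; simp [mul_assoc]
    calc r * q * r⁻¹ = (z * z * r⁻¹ * r⁻¹) * q * (z * z * r⁻¹ * r⁻¹)⁻¹ := by rw [e]
      _ = _ := by simp [mul_assoc]

/-- AG-REL, easy half -/
theorem j_rho (w : F) : gr * j w * gr⁻¹ = j (rho w) := by
  have e : (MulAut.conj gr).toMonoidHom.comp j = j.comp rho.toMonoidHom := by
    apply homF_ext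
    · change gr * j Z * gr⁻¹ = j (rho Z)
      rw [rho_Z, j_Z, rel_zr]; group
    · change gr * j Q * gr⁻¹ = j (rho Q)
      rw [rho_Q, map_mul, map_mul, map_inv, j_Q, j_Z, j_V]
      exact (rel_rho rel_zr gr_cube gq).2
    · change gr * j T * gr⁻¹ = j (rho T)
      rw [rho_T, map_mul, map_inv, j_T, j_Z, j_Gg]
      have h1 := (rel_rho rel_zr gr_cube (gz⁻¹ * gd * gz)).2
      rw [h1]
      have e1 : gr * gr * gz⁻¹ = gz⁻¹ * (gr * gr) := by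
        have := rel_zr
        rw [← eq_inv_mul_iff_mul_eq] at this
        have h2 : gr * gz⁻¹ = gz⁻¹ * gr := by
          rw [mul_inv_eq_iff_eq_mul, mul_assoc, rel_zr]; group
        rw [mul_assoc, h2, ← mul_assoc, h2, mul_assoc]
      have e2 : gz * gr⁻¹ * gr⁻¹ = gr⁻¹ * gr⁻¹ * gz := by
        have := congrArg (·⁻¹) e1
        simpa [mul_inv_rev, mul_assoc] using this
      calc gz * (gz * (gr⁻¹ * gr⁻¹ * (gz⁻¹ * gd * gz) * gr * gr) * gz⁻¹) * gz⁻¹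
          = gz * (gz * (gr⁻¹ * gr⁻¹ * gz⁻¹)) * gd * (gz * gr * gr * gz⁻¹ * gz⁻¹) := by group
        _ = gz * (gr⁻¹ * gr⁻¹) * gd * (gr * gr * gz⁻¹) := by
            have e3 : gr⁻¹ * gr⁻¹ * gz⁻¹ = gz⁻¹ * (gr⁻¹ * gr⁻¹) := by
              rw [mul_inv_eq_iff_eq_mul, mul_assoc, ← e2]; group
            have e4 : gz * gr * gr = gr * gr * gz := by
              rw [← rel_zr, mul_assoc, ← rel_zr]; group
            rw [e3, e4]; group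
        _ = _ := by group
    · change gr * j U * gr⁻¹ = j (rho U)
      rw [rho_U, j_U, j_Q]; group
    · change gr * j V * gr⁻¹ = j (rho V)
      rw [rho_V, map_mul, map_mul, map_inv, j_V, j_Z, j_U]
      exact (rel_rho rel_zr gr_cube gq).1
    · change gr * j Ff * gr⁻¹ = j (rho Ff)
      rw [rho_Ff, map_mul, j_Ff, j_Z, j_T]
      calc gr * (gr⁻¹ * gd * gr * gz) * gr⁻¹ = gd * (gr * gz) * gr⁻¹ := by group
        _ = gd * (gz * gr) * gr⁻¹ := by rw [rel_zr]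
        _ = _ := by group
    · change gr * j Gg * gr⁻¹ = j (rho Gg)
      rw [rho_Gg, map_mul, map_mul, map_inv, j_Gg, j_Z, j_Ff]
      calc gr * (gz * (gr⁻¹ * gr⁻¹ * gd * gr * gr)) * gr⁻¹
          = (gr * gz) * gr⁻¹ * (gr⁻¹ * gd * gr) := by group
        _ = (gz * gr) * gr⁻¹ * (gr⁻¹ * gd * gr) := by rw [rel_zr]
        _ = _ := by group
  exact DFunLike.congr_fun e w

private lemma rel_bc : gb * gc = gr * gd := by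
  have h : gc * (ga ^ 3)⁻¹ = (ga ^ 3)⁻¹ * gc := by
    have h1 : Commute ga gc := ga_gc
    exact ((h1.pow_left 3).inv_left).symm
  unfold gr gd
  rw [h]; group

private lemma rel_iv : gx * gq * gx⁻¹ =
    gz ^ 2 * (gr⁻¹ * gr⁻¹ * gd * gr * gr) * (gr⁻¹ * gd * gr) * gd := by
  have h1 : gx * gq * gx⁻¹ = (gb * gc) ^ 3 := by unfold gq; group
  rw [h1, rel_bc, ← gr_cube]
  simp [pow_succ, mul_assoc]

private lemma rel_v : gx * gd * gx⁻¹ =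
    gd⁻¹ * gz * (gr⁻¹ * gq * gr) * (gr⁻¹ * gr⁻¹ * gd⁻¹ * gr * gr) * (gz ^ 3)⁻¹ := by
  have hzg : ∀ {y : GA}, y * gz = gz * y → ∀ n : ℤ, y * gz ^ n = gz ^ n * y := by
    intro y hy n
    exact (Commute.zpow_right hy n)
  have ha3q : ga ^ 3 * gq * (ga ^ 3)⁻¹ = gq := by
    have h1 : Commute ga gq := rel_aq
    rw [(h1.pow_left 3).eq]; group
  have ha3d : ga ^ 3 * gd * (ga ^ 3)⁻¹ = gd := by
    have h1 : Commute ga gd := rel_ad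
    rw [(h1.pow_left 3).eq]; group
  have had : ga⁻¹ * gd * ga = gd := by
    rw [mul_assoc, ← rel_ad]; group
  have had' : ga * gd * ga⁻¹ = gd := by
    rw [rel_ad]; group
  have hzr := rel_zr
  have hza := rel_za
  -- the conjugating element
  have g1 : gr⁻¹ * gr⁻¹ * ga⁻¹ * gx = gr⁻¹ * (ga ^ 3)⁻¹ := by
    unfold gx gr; group
  have g2 : gr⁻¹ * gr⁻¹ * ga⁻¹ * (gr⁻¹ * gr⁻¹) = (gz ^ 3)⁻¹ * ga := by
    rw [id3]
    have h1 : gr⁻¹ * (gr⁻¹ * gr⁻¹) = (gz ^ 2)⁻¹ := by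
      rw [← gr_cube]; group
    calc gz⁻¹ * ga * gr⁻¹ * (gr⁻¹ * gr⁻¹) = gz⁻¹ * (ga * (gr⁻¹ * (gr⁻¹ * gr⁻¹))) := by group
      _ = gz⁻¹ * (ga * gz ^ (-2 : ℤ)) := by rw [h1]; rfl
      _ = gz⁻¹ * (gz ^ (-2 : ℤ) * ga) := by rw [hzg rel_za]
      _ = _ := by group
  have g3 : gr⁻¹ * gr⁻¹ * ga⁻¹ * gr⁻¹ = (gz ^ 3)⁻¹ * gx * ga ^ 3 := by
    rw [id3]
    calc gz⁻¹ * ga * gr⁻¹ * gr⁻¹ = gz⁻¹ * (ga * gr⁻¹ * gr⁻¹) := by group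
      _ = gz⁻¹ * (gz⁻¹ * gz⁻¹ * gx * ga ^ 3) := by rw [id2]
      _ = _ := by group
  have g4 : gr⁻¹ * gr⁻¹ * ga⁻¹ * gz ^ 2 = gz ^ 2 * (gr⁻¹ * gr⁻¹ * ga⁻¹) := by
    have h1 : Commute gr gz := rel_zr
    have h2 : Commute ga gz := rel_za
    have h3 : Commute (gr⁻¹ * gr⁻¹ * ga⁻¹) gz :=
      ((h1.inv_left.mul_left h1.inv_left).mul_left h2.inv_left)
    exact (h3.pow_right 2).eq
  have key : gr⁻¹ * gq * gr =
      gz ^ 2 * ((gz ^ 3)⁻¹ * gd * gz ^ 3) * ((gz ^ 3)⁻¹ * (gx * gd * gx⁻¹) * gz ^ 3) *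
        (gr⁻¹ * gr⁻¹ * gd * gr * gr) := by
    calc gr⁻¹ * gq * gr = gr⁻¹ * (ga ^ 3)⁻¹ * (ga ^ 3 * gq * (ga ^ 3)⁻¹) * (ga ^ 3 * gr) := by
          group
      _ = gr⁻¹ * (ga ^ 3)⁻¹ * gq * (gr⁻¹ * (ga ^ 3)⁻¹)⁻¹ := by rw [ha3q]; group
      _ = (gr⁻¹ * gr⁻¹ * ga⁻¹ * gx) * gq * (gr⁻¹ * gr⁻¹ * ga⁻¹ * gx)⁻¹ := by rw [g1]
      _ = (gr⁻¹ * gr⁻¹ * ga⁻¹) * (gx * gq * gx⁻¹) * (gr⁻¹ * gr⁻¹ * ga⁻¹)⁻¹ := by group
      _ = (gr⁻¹ * gr⁻¹ * ga⁻¹) *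
            (gz ^ 2 * (gr⁻¹ * gr⁻¹ * gd * gr * gr) * (gr⁻¹ * gd * gr) * gd) *
              (gr⁻¹ * gr⁻¹ * ga⁻¹)⁻¹ := by rw [rel_iv]
      _ = ((gr⁻¹ * gr⁻¹ * ga⁻¹) * gz ^ 2 * (gr⁻¹ * gr⁻¹ * ga⁻¹)⁻¹) *
          ((gr⁻¹ * gr⁻¹ * ga⁻¹ * (gr⁻¹ * gr⁻¹)) * gd *
            (gr⁻¹ * gr⁻¹ * ga⁻¹ * (gr⁻¹ * gr⁻¹))⁻¹) *
          ((gr⁻¹ * gr⁻¹ * ga⁻¹ * gr⁻¹) * gd * (gr⁻¹ * gr⁻¹ * ga⁻¹ * gr⁻¹)⁻¹) *
          (gr⁻¹ * gr⁻¹ * (ga⁻¹ * gd * ga) * gr * gr) := by simp [pow_succ, mul_assoc]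
      _ = (gz ^ 2 * (gr⁻¹ * gr⁻¹ * ga⁻¹) * (gr⁻¹ * gr⁻¹ * ga⁻¹)⁻¹) *
          (((gz ^ 3)⁻¹ * ga) * gd * ((gz ^ 3)⁻¹ * ga)⁻¹) *
          (((gz ^ 3)⁻¹ * gx * ga ^ 3) * gd * ((gz ^ 3)⁻¹ * gx * ga ^ 3)⁻¹) *
          (gr⁻¹ * gr⁻¹ * gd * gr * gr) := by rw [g4, g2, g3, had]
      _ = gz ^ 2 * ((gz ^ 3)⁻¹ * (ga * gd * ga⁻¹) * gz ^ 3) *
          ((gz ^ 3)⁻¹ * (gx * (ga ^ 3 * gd * (ga ^ 3)⁻¹) * gx⁻¹) * gz ^ 3) *
          (gr⁻¹ * gr⁻¹ * gd * gr * gr) := by group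
      _ = _ := by rw [had', ha3d]
  rw [key]
  group

/-- AG-REL -/
theorem j_al (w : F) : ga * j w * ga⁻¹ = j (al w) := by
  have ha3q : ga ^ 3 * gq * (ga ^ 3)⁻¹ = gq := by
    have h1 : Commute ga gq := rel_aq
    rw [(h1.pow_left 3).eq]; group
  have ha3d : ga ^ 3 * gd * (ga ^ 3)⁻¹ = gd := by
    have h1 : Commute ga gd := rel_ad
    rw [(h1.pow_left 3).eq]; group
  have had : ga⁻¹ * gd * ga = gd := by
    rw [mul_assoc, ← rel_ad]; group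
  have haq : ga⁻¹ * gq * ga = gq := by
    rw [mul_assoc, ← rel_aq]; group
  have hrz : gr⁻¹ * gr⁻¹ * gz = gz * (gr⁻¹ * gr⁻¹) := by
    have h1 : Commute gr gz := rel_zr
    exact (h1.inv_left.mul_left h1.inv_left).eq
  have haz : ga * gz * gr⁻¹ * gr⁻¹ = gz⁻¹ * gx * ga ^ 3 := by
    calc ga * gz * gr⁻¹ * gr⁻¹ = gz * (ga * gr⁻¹ * gr⁻¹) := by rw [rel_za]; group
      _ = gz * (gz⁻¹ * gz⁻¹ * gx * ga ^ 3) := by rw [id2]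
      _ = _ := by group
  -- conjugation of `r⁻¹ y r`
  have hU : ∀ y : GA, ga⁻¹ * y * ga = y →
      ga * (gr⁻¹ * y * gr) * ga⁻¹ = gz * (gr⁻¹ * gr⁻¹ * y * gr * gr) * gz⁻¹ := by
    intro y hy
    calc ga * (gr⁻¹ * y * gr) * ga⁻¹ = (ga * gr⁻¹) * y * (ga * gr⁻¹)⁻¹ := by group
      _ = (gr⁻¹ * gr⁻¹ * gz * ga⁻¹) * y * (gr⁻¹ * gr⁻¹ * gz * ga⁻¹)⁻¹ := by rw [id1]
      _ = (gr⁻¹ * gr⁻¹ * gz) * (ga⁻¹ * y * ga) * (gr⁻¹ * gr⁻¹ * gz)⁻¹ := by group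
      _ = (gz * (gr⁻¹ * gr⁻¹)) * y * (gz * (gr⁻¹ * gr⁻¹))⁻¹ := by rw [hy, hrz]
      _ = _ := by simp [mul_assoc]
  have hV : ∀ y : GA, ga ^ 3 * y * (ga ^ 3)⁻¹ = y →
      ga * (gz * (gr⁻¹ * gr⁻¹ * y * gr * gr) * gz⁻¹) * ga⁻¹ = gz⁻¹ * (gx * y * gx⁻¹) * gz := by
    intro y hy
    calc ga * (gz * (gr⁻¹ * gr⁻¹ * y * gr * gr) * gz⁻¹) * ga⁻¹
        = (ga * gz * gr⁻¹ * gr⁻¹) * y * (ga * gz * gr⁻¹ * gr⁻¹)⁻¹ := by simp [mul_assoc]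
      _ = (gz⁻¹ * gx * ga ^ 3) * y * (gz⁻¹ * gx * ga ^ 3)⁻¹ := by rw [haz]
      _ = gz⁻¹ * (gx * (ga ^ 3 * y * (ga ^ 3)⁻¹) * gx⁻¹) * gz := by group
      _ = _ := by rw [hy]
  have e : (MulAut.conj ga).toMonoidHom.comp j = j.comp al.toMonoidHom := by
    apply homF_ext
    · change ga * j Z * ga⁻¹ = j (al Z)
      rw [al_Z, j_Z, rel_za]; group
    · change ga * j Q * ga⁻¹ = j (al Q)
      rw [al_Q, j_Q, rel_aq]; group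
    · change ga * j T * ga⁻¹ = j (al T)
      rw [al_T, j_T]
      have h1 : Commute ga gz := rel_za
      have h2 : Commute ga gd := rel_ad
      have h3 : Commute ga (gz⁻¹ * gd * gz) := (h1.inv_right.mul_right h2).mul_right h1
      rw [h3.eq]; group
    · change ga * j U * ga⁻¹ = j (al U)
      rw [al_U, j_U, j_V]
      exact hU gq haq
    · change ga * j V * ga⁻¹ = j (al V)
      rw [al_V, map_mul, map_mul, j_V, j_Gg, j_Ff, j_T, hV gq ha3q, rel_iv]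
      group
    · change ga * j Ff * ga⁻¹ = j (al Ff)
      rw [al_Ff, j_Ff, j_Gg]
      have h2 : gz * ga⁻¹ = ga⁻¹ * gz := by
        rw [mul_inv_eq_iff_eq_mul, mul_assoc, ← rel_za]; group
      calc ga * (gr⁻¹ * gd * gr * gz) * ga⁻¹ = ga * (gr⁻¹ * gd * gr) * (gz * ga⁻¹) := by group
        _ = (ga * (gr⁻¹ * gd * gr) * ga⁻¹) * gz := by rw [h2]; group
        _ = _ := by rw [hU gd had]; group
    · change ga * j Gg * ga⁻¹ = j (al Gg)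
      rw [al_Gg, map_mul, map_mul, map_inv, map_inv, j_T, j_U, j_Gg]
      have h2 : gz * ga⁻¹ = ga⁻¹ * gz := by
        rw [mul_inv_eq_iff_eq_mul, mul_assoc, ← rel_za]; group
      calc ga * (gz * (gr⁻¹ * gr⁻¹ * gd * gr * gr)) * ga⁻¹
          = ga * (gz * (gr⁻¹ * gr⁻¹ * gd * gr * gr) * gz⁻¹) * (gz * ga⁻¹) := by group
        _ = (ga * (gz * (gr⁻¹ * gr⁻¹ * gd * gr * gr) * gz⁻¹) * ga⁻¹) * gz := by rw [h2]; group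
        _ = gz⁻¹ * (gx * gd * gx⁻¹) * gz * gz := by rw [hV gd ha3d]
        _ = _ := by rw [rel_v]; simp [pow_succ, mul_assoc]
  exact DFunLike.congr_fun e w

end Pool.Agent.Helper7.AG
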