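import Pool.Agent.Helper7.AG.Act

/-!
# Project AG, piece AG-B3: identities in `⟨ga, gb⟩`

Proof of the last four.  Put `x = ga gb`, `y = ga gb ga`; then `x³ = y² = gz`, `ga = x⁻¹ y`,
`gb = y⁻¹ x²`.
* `gr = gb ga³ = gz h x⁻¹ h⁻¹`, `h = y⁻¹ x y`; so `gr³ = gz³ x⁻³ = gz²`.
* `gr² ga = gz ga⁻¹ gr`: `gr² ga gr⁻¹ = b a³ b a³ a a⁻³ b⁻¹ = b a³ (b a b⁻¹) = b a³ a⁻¹ b a = b a² b a
= (b a)(a b a) = (b a)(b a b) = z a⁻¹`; this is `id1`.
* `id2`: `x⁻¹ a r⁻² = b⁻¹ r⁻² = b⁻¹ r z⁻² = a³ z⁻²`.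
* `id3` is `id1` again (`r⁻² a⁻¹ = z⁻¹ a r⁻¹`).
-/

namespace Pool.Agent.Helper7.AG

/-- `gz` commutes with `⟨ga, gb⟩` -/
theorem gz_comm {y : GA} (hy : y ∈ Subgroup.closure {ga, gb}) : y * gz = gz * y := by
  have h1 : ga * gz = gz * ga := by
    have h := ga_gb
    unfold gz
    simp only [pow_succ, pow_zero, one_mul]
    calc ga * (ga * gb * (ga * gb) * (ga * gb)) = ga * (ga * gb * ga) * (gb * ga * gb) := by
          group
      _ = ga * (gb * ga * gb) * (ga * gb * ga) := by rw [h]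
      _ = _ := by group
  have h2 : gb * gz = gz * gb := by
    have h := ga_gb
    unfold gz
    simp only [pow_succ, pow_zero, one_mul]
    calc gb * (ga * gb * (ga * gb) * (ga * gb)) = (gb * ga * gb) * (ga * gb * ga) * gb := by
          group
      _ = (ga * gb * ga) * (gb * ga * gb) * gb := by rw [h]
      _ = _ := by group
  induction hy using Subgroup.closure_induction with
  | mem x hx =>
    rcases hx with rfl | rfl
    · exact h1
    · exact h2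
  | one => simp
  | mul x y _ _ hx hy => rw [mul_assoc, hy, ← mul_assoc, hx, mul_assoc]
  | inv x _ hx =>
    rw [inv_mul_eq_iff_eq_mul, ← mul_assoc, hx, mul_assoc, mul_inv_cancel, mul_one]

private theorem rel0_ca : ga * gz = gz * ga :=
  gz_comm (Subgroup.subset_closure (by simp))

private theorem rel0_cb : gb * gz = gz * gb :=
  gz_comm (Subgroup.subset_closure (by simp))

private theorem rel0_cr : gr * gz = gz * gr := by
  have h1 : ga ^ 3 * gz = gz * ga ^ 3 := (Commute.pow_left (show Commute ga gz from rel0_ca) 3)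
  unfold gr
  rw [mul_assoc, h1, ← mul_assoc, rel0_cb, mul_assoc]

private theorem rel0_z : gz = gb * ga * ga * gb * ga * ga := by
  have h := ga_gb
  unfold gz
  calc (ga * gb) ^ 3 = (ga * gb * ga) * (gb * ga * gb) := by
        simp only [pow_succ, pow_zero, one_mul, mul_assoc]
    _ = (gb * ga * gb) * (ga * gb * ga) := by rw [h]
    _ = gb * ga * (gb * ga * gb) * ga := by group
    _ = gb * ga * (ga * gb * ga) * ga := by rw [h]
    _ = gb * ga * ga * gb * ga * ga := by group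

private theorem rel0_r : gr * gr * ga * gr⁻¹ = gz * ga⁻¹ := by
  have h := ga_gb
  have h1 : gb * ga * gb⁻¹ = ga⁻¹ * gb * ga := by
    calc gb * ga * gb⁻¹ = ga⁻¹ * (ga * gb * ga) * gb⁻¹ := by group
      _ = ga⁻¹ * (gb * ga * gb) * gb⁻¹ := by rw [h]
      _ = ga⁻¹ * gb * ga := by group
  unfold gr
  calc gb * ga ^ 3 * (gb * ga ^ 3) * ga * (gb * ga ^ 3)⁻¹
      = gb * ga ^ 3 * (gb * ga * gb⁻¹) := by group
    _ = gb * ga ^ 3 * (ga⁻¹ * gb * ga) := by rw [h1]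
    _ = (gb * ga * ga * gb * ga * ga) * ga⁻¹ := by
      simp only [pow_succ, pow_zero, one_mul, mul_assoc, mul_inv_cancel, mul_one,
        mul_inv_cancel_left]
    _ = gz * ga⁻¹ := by rw [rel0_z]

theorem gr_cube : gr ^ 3 = gz ^ 2 := by
  have h2 : gr * gr = gz * ga⁻¹ * gr * ga⁻¹ := by
    rw [← rel0_r]
    group
  calc gr ^ 3 = gr * (gr * gr) := by
        simp only [pow_succ, pow_zero, one_mul, mul_assoc]
    _ = gr * (gz * ga⁻¹ * gr * ga⁻¹) := by rw [h2]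
    _ = (gr * gz) * ga⁻¹ * gr * ga⁻¹ := by group
    _ = (gz * gr) * ga⁻¹ * gr * ga⁻¹ := by rw [rel0_cr]
    _ = gz * (gb * ga * ga * gb * ga * ga) := by
      unfold gr
      simp only [pow_succ, pow_zero, one_mul, mul_assoc, mul_inv_cancel, mul_one,
        mul_inv_cancel_left]
    _ = gz ^ 2 := by
      rw [← rel0_z, sq]

theorem id1 : ga * gr⁻¹ = gr⁻¹ * gr⁻¹ * gz * ga⁻¹ := by
  calc ga * gr⁻¹ = gr⁻¹ * gr⁻¹ * (gr * gr * ga * gr⁻¹) := by group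
    _ = gr⁻¹ * gr⁻¹ * (gz * ga⁻¹) := by rw [rel0_r]
    _ = gr⁻¹ * gr⁻¹ * gz * ga⁻¹ := by group

theorem id2 : ga * gr⁻¹ * gr⁻¹ = gz⁻¹ * gz⁻¹ * gx * ga ^ 3 := by
  have h1 : gr⁻¹ * gr⁻¹ = gr * (gz ^ 2)⁻¹ := by
    rw [← gr_cube]
    group
  have h2 : ga * gr = gx * ga ^ 3 := by
    unfold gr gx
    group
  have h3 : Commute (ga * gr) gz := Commute.mul_left (show Commute ga gz from rel0_ca)
    (show Commute gr gz from rel0_cr)
  have h4 : Commute (ga * gr) (gz ^ 2)⁻¹ := (h3.pow_right 2).inv_right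
  calc ga * gr⁻¹ * gr⁻¹ = ga * (gr⁻¹ * gr⁻¹) := by group
    _ = (ga * gr) * (gz ^ 2)⁻¹ := by rw [h1, mul_assoc]
    _ = (gz ^ 2)⁻¹ * (ga * gr) := h4.eq
    _ = (gz ^ 2)⁻¹ * (gx * ga ^ 3) := by rw [h2]
    _ = gz⁻¹ * gz⁻¹ * gx * ga ^ 3 := by group

theorem id3 : gr⁻¹ * gr⁻¹ * ga⁻¹ = gz⁻¹ * ga * gr⁻¹ := by
  have h3 : Commute (gr⁻¹ * gr⁻¹) gz := Commute.mul_left
    (show Commute gr gz from rel0_cr).inv_left (show Commute gr gz from rel0_cr).inv_left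
  calc gr⁻¹ * gr⁻¹ * ga⁻¹ = gz⁻¹ * (gz * (gr⁻¹ * gr⁻¹)) * ga⁻¹ := by group
    _ = gz⁻¹ * ((gr⁻¹ * gr⁻¹) * gz) * ga⁻¹ := by rw [h3.eq]
    _ = gz⁻¹ * (gr⁻¹ * gr⁻¹ * gz * ga⁻¹) := by group
    _ = gz⁻¹ * (ga * gr⁻¹) := by rw [id1]
    _ = gz⁻¹ * ga * gr⁻¹ := by group

end Pool.Agent.Helper7.AG
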