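import Pool.Agent.Helper7.AG.Sl

/-!
# Project AG, piece AG-CM: centralizers in `SL(2, ℤ)`

Proof.  `X = !![a, b; c, d]` with `b ≠ 0`, or `c ≠ 0`, or (`b = c = 0`) `a = d = ±1`.  Compare the
entries of `X Y = Y X`: `b y₁₀ = c y₀₁`, `b (y₀₀ - y₁₁) = y₀₁ (a - d)`,
`c (y₀₀ - y₁₁) = y₁₀ (a - d)`; the same for `Y'`; the entries of `Y Y' - Y' Y`, multiplied by `b`
(or `c`), vanish.
-/

namespace Pool.Agent.Helper7.AG

private theorem sl0_entries {X Y : SL} (h : X * Y = Y * X) :
    X.1 0 1 * Y.1 1 0 = Y.1 0 1 * X.1 1 0 ∧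
    X.1 0 1 * (Y.1 0 0 - Y.1 1 1) = Y.1 0 1 * (X.1 0 0 - X.1 1 1) ∧
    X.1 1 0 * (Y.1 0 0 - Y.1 1 1) = Y.1 1 0 * (X.1 0 0 - X.1 1 1) := by
  have h' : X.1 * Y.1 = Y.1 * X.1 := congrArg Subtype.val h
  have e00 := congrFun (congrFun h' 0) 0
  have e01 := congrFun (congrFun h' 0) 1
  have e10 := congrFun (congrFun h' 1) 0
  rw [Matrix.mul_apply, Matrix.mul_apply, Fin.sum_univ_two, Fin.sum_univ_two] at e00 e01 e10
  refine ⟨?_, ?_, ?_⟩
  · linear_combination e00
  · linear_combination -e01
  · linear_combination e10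

/-- the centralizer of a non-scalar matrix is commutative -/
theorem comm_of_comm {X Y Y' : SL} (h1 : X ≠ 1) (h2 : X ≠ -1) (hY : X * Y = Y * X)
    (hY' : X * Y' = Y' * X) : Y * Y' = Y' * Y := by
  obtain ⟨a1, a2, a3⟩ := sl0_entries hY
  obtain ⟨b1, b2, b3⟩ := sl0_entries hY'
  have hdet : X.1 0 0 * X.1 1 1 - X.1 0 1 * X.1 1 0 = 1 := by
    have := X.2
    rwa [Matrix.det_fin_two] at this
  generalize hp : Y.1 0 0 = p at *
  generalize hq : Y.1 0 1 = q at *
  generalize hr : Y.1 1 0 = r at *
  generalize hs : Y.1 1 1 = s at *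
  generalize hp' : Y'.1 0 0 = p' at *
  generalize hq' : Y'.1 0 1 = q' at *
  generalize hr' : Y'.1 1 0 = r' at *
  generalize hs' : Y'.1 1 1 = s' at *
  generalize ha : X.1 0 0 = a at *
  generalize hb : X.1 0 1 = b at *
  generalize hc : X.1 1 0 = c at *
  generalize hd : X.1 1 1 = d at *
  have key : q * r' - q' * r = 0 ∧ q' * (p - s) - q * (p' - s') = 0 ∧
      r * (p' - s') - r' * (p - s) = 0 := by
    by_cases hb0 : b = 0
    · subst hb0
      by_cases hc0 : c = 0
      · exfalso
        subst hc0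
        have had : a * d = 1 := by linear_combination hdet
        rcases Int.eq_one_or_neg_one_of_mul_eq_one' had with ⟨h3, h4⟩ | ⟨h3, h4⟩
        · apply h1
          apply Subtype.ext
          ext i j
          fin_cases i <;> fin_cases j <;> simp [ha, hb, hc, hd, h3, h4]
        · apply h2
          apply Subtype.ext
          ext i j
          fin_cases i <;> fin_cases j <;> simp [ha, hb, hc, hd, h3, h4]
      · have hq0 : q = 0 := by
          have : q * c = 0 := by linear_combination -a1
          exact (mul_eq_zero.mp this).resolve_right hc0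
        have hq0' : q' = 0 := by
          have : q' * c = 0 := by linear_combination -b1
          exact (mul_eq_zero.mp this).resolve_right hc0
        refine ⟨by rw [hq0, hq0']; ring, by rw [hq0, hq0']; ring, ?_⟩
        refine (mul_eq_zero.mp (?_ : c * (r * (p' - s') - r' * (p - s)) = 0)).resolve_left hc0
        linear_combination r * b3 - r' * a3
    · refine ⟨?_, ?_, ?_⟩
      · refine (mul_eq_zero.mp (?_ : b * (q * r' - q' * r) = 0)).resolve_left hb0
        linear_combination q * b1 - q' * a1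
      · refine (mul_eq_zero.mp (?_ : b * (q' * (p - s) - q * (p' - s')) = 0)).resolve_left hb0
        linear_combination q' * a2 - q * b2
      · refine (mul_eq_zero.mp
          (?_ : (b * b) * (r * (p' - s') - r' * (p - s)) = 0)).resolve_left (mul_ne_zero hb0 hb0)
        linear_combination (b * (p' - s')) * a1 - (b * (p - s)) * b1 + q * c * b2 - q' * c * a2
  obtain ⟨k1, k2, k3⟩ := key
  apply Subtype.ext
  change Y.1 * Y'.1 = Y'.1 * Y.1
  ext i j
  rw [Matrix.mul_apply, Matrix.mul_apply, Fin.sum_univ_two, Fin.sum_univ_two]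
  fin_cases i <;> fin_cases j <;> simp only [Fin.zero_eta, Fin.mk_one, hp, hq, hr, hs, hp', hq',
    hr', hs']
  · linear_combination k1
  · linear_combination k2
  · linear_combination k3
  · linear_combination -k1

end Pool.Agent.Helper7.AG
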