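import Pool.Agent.Helper7.AG.Sl

/-!
# Project AG, piece AG-CS: matrices of trace 0 in `SL(2, ℤ)` are conjugate to `± mS`

Proof.  `Y = !![a, b; c, -a]`, `a² + b c = -1`.  Strong induction on `a.natAbs`.  `a = 0`:
`b c = -1`, `Y = ± mS` (`M = 1`).  `a ≠ 0`: `|b| |c| = a² + 1`, so `|c| ≤ |a|` or `|b| ≤ |a|`
(if both were `≥ |a| + 1` then the product would be `≥ (|a| + 1)² > a² + 1`); and `c ≠ 0`, `b ≠ 0`.
If `|c| ≤ |a|`: conjugation by `!![1, n; 0, 1]` replaces `a` by `a + n c`; choose `n = ±1` such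
that `|a + n c| < |a|` (signs of `a` and `n c` opposite; `|a + n c| = |a| - |c|`).  If `|b| ≤ |a|`:
the same with the conjugation by `!![1, 0; n, 1]`, `a ↦ a - n b`.
-/

namespace Pool.Agent.Helper7.AG

private lemma cs_up (Y : SL) (n : ℤ) : ∃ M : SL, (M * Y * M⁻¹) 0 0 = Y 0 0 + n * Y 1 0 ∧
    (M * Y * M⁻¹) 1 1 = Y 1 1 - n * Y 1 0 := by
  refine ⟨⟨!![1, n; 0, 1], by simp [Matrix.det_fin_two]⟩, ?_, ?_⟩
  · simp [Matrix.SpecialLinearGroup.coe_inv, Matrix.adjugate_fin_two, Matrix.mul_apply,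
      Fin.sum_univ_two, Matrix.vecMul, dotProduct]
  · simp [Matrix.SpecialLinearGroup.coe_inv, Matrix.adjugate_fin_two, Matrix.mul_apply,
      Fin.sum_univ_two, Matrix.vecMul, dotProduct]
    ring

private lemma cs_low (Y : SL) (n : ℤ) : ∃ M : SL, (M * Y * M⁻¹) 0 0 = Y 0 0 - n * Y 0 1 ∧
    (M * Y * M⁻¹) 1 1 = Y 1 1 + n * Y 0 1 := by
  refine ⟨⟨!![1, 0; n, 1], by simp [Matrix.det_fin_two]⟩, ?_, ?_⟩
  · simp [Matrix.SpecialLinearGroup.coe_inv, Matrix.adjugate_fin_two, Matrix.mul_apply,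
      Fin.sum_univ_two, Matrix.vecMul, dotProduct]
    ring
  · simp [Matrix.SpecialLinearGroup.coe_inv, Matrix.adjugate_fin_two, Matrix.mul_apply,
      Fin.sum_univ_two, Matrix.vecMul, dotProduct]
    ring

private lemma cs_sign {a c : ℤ} (hc : c ≠ 0) (h : c.natAbs ≤ a.natAbs) :
    ∃ n : ℤ, (a + n * c).natAbs < a.natAbs := by
  by_cases h1 : (0 < a ∧ 0 < c) ∨ (a < 0 ∧ c < 0)
  · refine ⟨-1, ?_⟩
    have : a + -1 * c = a - c := by ring
    rw [this]
    omega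
  · refine ⟨1, ?_⟩
    have : a + 1 * c = a + c := by ring
    rw [this]
    omega

private lemma cs_aux : ∀ (k : ℕ) (Y : SL), tr Y = 0 → (Y 0 0).natAbs = k →
    ∃ M : SL, M * Y * M⁻¹ = mS ∨ M * Y * M⁻¹ = -mS := by
  intro k
  induction k using Nat.strong_induction_on with
  | _ k ih =>
    intro Y ht hk
    have hd : Y 1 1 = - Y 0 0 := by
      unfold tr at ht
      linarith
    have hdet : Y 0 0 * Y 1 1 - Y 0 1 * Y 1 0 = 1 := by
      have := Y.det_coe
      rwa [Matrix.det_fin_two] at this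
    rw [hd] at hdet
    by_cases ha : Y 0 0 = 0
    · have hbc : Y 0 1 * Y 1 0 = -1 := by
        rw [ha] at hdet
        linarith
      refine ⟨1, ?_⟩
      rw [one_mul, inv_one, mul_one]
      rcases Int.mul_eq_neg_one_iff_eq_one_or_neg_one.1 hbc with ⟨h1, h2⟩ | ⟨h1, h2⟩
      · left
        ext i j
        fin_cases i <;> fin_cases j <;> simp [mS, ha, hd, h1, h2]
      · right
        ext i j
        fin_cases i <;> fin_cases j <;> simp [mS, ha, hd, h1, h2]
    · have hb : Y 0 1 ≠ 0 := by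
        intro h0
        rw [h0] at hdet
        nlinarith [sq_nonneg (Y 0 0)]
      have hc : Y 1 0 ≠ 0 := by
        intro h0
        rw [h0] at hdet
        nlinarith [sq_nonneg (Y 0 0)]
      have hcase : (Y 1 0).natAbs ≤ (Y 0 0).natAbs ∨ (Y 0 1).natAbs ≤ (Y 0 0).natAbs := by
        by_contra hcon
        push Not at hcon
        obtain ⟨h1, h2⟩ := hcon
        have e1 : (Y 0 1).natAbs * (Y 1 0).natAbs = (Y 0 0).natAbs * (Y 0 0).natAbs + 1 := by
          rw [← Int.natAbs_mul, ← Int.natAbs_mul]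
          have h3 : Y 0 1 * Y 1 0 = -(Y 0 0 * Y 0 0 + 1) := by linarith
          rw [h3, Int.natAbs_neg]
          have h4 : 0 ≤ Y 0 0 * Y 0 0 := mul_self_nonneg _
          omega
        have h5 : 0 < (Y 0 0).natAbs := Int.natAbs_pos.2 ha
        nlinarith [Nat.mul_le_mul (Nat.succ_le_of_lt h2) (Nat.succ_le_of_lt h1)]
      have hfin : ∀ M : SL, (M * Y * M⁻¹) 0 0 + (M * Y * M⁻¹) 1 1 = 0 →
          ((M * Y * M⁻¹) 0 0).natAbs < (Y 0 0).natAbs →
          ∃ M : SL, M * Y * M⁻¹ = mS ∨ M * Y * M⁻¹ = -mS := by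
        intro M h1 h2
        obtain ⟨N, hN⟩ := ih _ (hk ▸ h2) (M * Y * M⁻¹) h1 rfl
        refine ⟨N * M, ?_⟩
        have e : N * M * Y * (N * M)⁻¹ = N * (M * Y * M⁻¹) * N⁻¹ := by group
        rw [e]
        exact hN
      rcases hcase with h | h
      · obtain ⟨n, hn⟩ := cs_sign hc h
        obtain ⟨M, hM1, hM2⟩ := cs_up Y n
        refine hfin M ?_ ?_
        · rw [hM1, hM2, hd]
          ring
        · rw [hM1]
          exact hn
      · obtain ⟨n, hn⟩ := cs_sign hb h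
        obtain ⟨M, hM1, hM2⟩ := cs_low Y (-n)
        refine hfin M ?_ ?_
        · rw [hM1, hM2, hd]
          ring
        · rw [hM1, neg_mul, sub_neg_eq_add]
          exact hn

/-- AG-CS -/
theorem conj_S {Y : SL} (h : tr Y = 0) :
    ∃ M : SL, M * Y * M⁻¹ = mS ∨ M * Y * M⁻¹ = -mS :=
  cs_aux _ Y h rfl

end Pool.Agent.Helper7.AG
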